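import Pool.Agent.R945.AP.Stm

/-!
# Project AP: assembly
-/

set_option autoImplicit false

open scoped InnerProductSpace ComplexConjugate

namespace Pool.Agent.R945.AP

universe u

section good

variable {H : Type u} [NormedAddCommGroup H] [InnerProductSpace ℂ H] [CompleteSpace H]

lemma abs_nn (T : H →L[ℂ] H) : 0 ≤ CFC.abs T := CFC.abs_nonneg T

lemma pw_zero {P : H →L[ℂ] H} (hP : 0 ≤ P) : pw P 0 = 1 := by
  have h := hP.isSelfAdjoint
  unfold pw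
  simp only [Real.rpow_zero]
  exact cfc_const_one ℝ P

lemma pw_one {P : H →L[ℂ] H} (hP : 0 ≤ P) : pw P 1 = P := by
  have h := hP.isSelfAdjoint
  unfold pw
  simp only [Real.rpow_one]
  exact cfc_id' ℝ P

lemma pol_mul (T : H →L[ℂ] H) : pol T * CFC.abs T = T :=
  (Pool.Agent.R884.AL.existsUnique_polarPart T).choose_spec.1.mul_abs

lemma alu_zero (T : H →L[ℂ] H) : alu 0 T = T := by
  unfold alu
  rw [pw_zero (abs_nn T), sub_zero, pw_one (abs_nn T), one_mul, pol_mul]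

lemma alu_one (T : H →L[ℂ] H) : alu 1 T = CFC.abs T * pol T := by
  unfold alu
  rw [pw_one (abs_nn T), sub_self, pw_zero (abs_nn T), mul_one]

lemma half_add (X : H →L[ℂ] H) : (2⁻¹ : ℂ) • (X + X) = X := by
  rw [← two_smul ℂ, smul_smul, inv_mul_cancel₀ (two_ne_zero), one_smul]

lemma ro_smul_left (c : ℂ) (x y : H) : ro (c • x) y = c • ro x y := by
  ext v
  simp [smul_smul, mul_comm]

theorem good_M (hF : S_FIXM.{u}) (hS : S_SQM.{u}) (hR : S_RK.{u}) (hT : S_TRIM.{u}) {l : ℝ}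
    (h0 : 0 < l) (h1 : l ≤ 1 / 2) : Good (H := H) (ML l) 0 where
  ne := zero_ne_one
  fix := hF H l h0.le h1
  sq T := by rw [zero_smul]; exact hS H l h0 h1 T
  rank A x y hA hx hy hy0 := by
    unfold ML
    rw [hR H l h0 (by linarith) A x y hA hx hy hy0,
      hR H (1 - l) (by linarith) (by linarith) A x y hA hx hy hy0, half_add]
    rw [zero_smul, zero_add, sub_zero, one_mul]
  tri h1' h2 T p q τ a1 a2 a3 a4 a5 a6 a7 a8 a9 a10 a11 a12 := by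
    rw [zero_mul, zero_smul, zero_add] at a12
    exact hT H l h0 h1 h1' h2 T p q τ a1 a2 a3 a4 a5 a6 a7 a8 a9 a10 a11 a12

theorem good_Z (hF : S_FIXM.{u}) (hS : S_SQZ.{u}) (hR : S_RK.{u}) (hT : S_TRIZ.{u}) :
    Good (H := H) (ML 0) (2⁻¹) where
  ne := by norm_num
  fix := hF H 0 le_rfl (by norm_num)
  sq T := hS H T
  rank A x y hA hx hy hy0 := by
    unfold ML
    rw [alu_zero, sub_zero, hR H 1 one_pos le_rfl A x y hA hx hy hy0]
    have : (1 : ℂ) - 2⁻¹ = 2⁻¹ := by norm_num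
    rw [this]
    have e : ro x y + A + ((⟪y, x⟫_ℂ / ((‖y‖ : ℂ) ^ 2)) • ro y y + A) =
      ro x y + (⟪y, x⟫_ℂ / ((‖y‖ : ℂ) ^ 2)) • ro y y + (A + A) := by abel
    rw [e, smul_add, smul_add, half_add, smul_smul]
  tri h1' h2 T p q τ a1 a2 a3 a4 a5 a6 a7 a8 a9 a10 a11 a12 :=
    hT H h1' h2 T p q τ a1 a2 a3 a4 a5 a6 a7 a8 a9 a10 a11 a12

theorem good_A (hF : S_FIXA.{u}) (hS : S_SQA.{u}) (hR : S_RK.{u}) (hT : S_TRIA.{u}) :
    Good (H := H) mA 0 where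
  ne := zero_ne_one
  fix := hF H
  sq T := by rw [zero_smul]; exact hS H T
  rank A x y hA hx hy hy0 := by
    unfold mA
    rw [hR H (1 / 2) (by norm_num) (by norm_num) A x y hA hx hy hy0]
    set κ : ℂ := ⟪y, x⟫_ℂ / ((‖y‖ : ℂ) ^ 2) with hκ
    have e1 : κ • ro y y + A = ro (κ • y) y + A := by rw [ro_smul_left]
    unfold mt
    rw [← alu_one, e1, hR H 1 one_pos le_rfl A (κ • y) y hA (by rw [map_smul, hy, smul_zero]) hy hy0]
    have hn : (‖y‖ : ℂ) ^ 2 ≠ 0 := by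
      simp [hy0]
    have e2 : ⟪y, κ • y⟫_ℂ / ((‖y‖ : ℂ) ^ 2) = κ := by
      rw [inner_smul_right, inner_self_eq_norm_sq_to_K, mul_div_assoc]
      simp only [Complex.coe_algebraMap]
      rw [div_self hn, mul_one]
    rw [e2, ← e1, half_add, zero_smul, zero_add, sub_zero, one_mul]
  tri h1' h2 T p q τ a1 a2 a3 a4 a5 a6 a7 a8 a9 a10 a11 a12 := by
    rw [zero_mul, zero_smul, zero_add] at a12
    exact hT H h1' h2 T p q τ a1 a2 a3 a4 a5 a6 a7 a8 a9 a10 a11 a12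

end good

section pres

variable {H : Type u} [NormedAddCommGroup H] [InnerProductSpace ℂ H] [CompleteSpace H]

theorem pres_of_good {L : (H →L[ℂ] H) → (H →L[ℂ] H)} {α : ℂ} (hL : Good L α)
    (Φ : (H →L[ℂ] H) ≃ₗ[ℂ] (H →L[ℂ] H)) (hc : ∀ T, Φ (L T) = L (Φ T)) : Pres Φ where
  qn T := by
    rw [← hL.fix, ← hL.fix, ← hc]
    exact Φ.injective.eq_iff.symm
  sq T := by
    rw [← hL.sq, ← hL.sq, ← hc, ← map_smul]
    exact Φ.injective.eq_iff.symm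

theorem comm_symm {L : (H →L[ℂ] H) → (H →L[ℂ] H)}
    (Φ : (H →L[ℂ] H) ≃ₗ[ℂ] (H →L[ℂ] H)) (hc : ∀ T, Φ (L T) = L (Φ T)) (T : H →L[ℂ] H) :
    Φ.symm (L T) = L (Φ.symm T) := by
  apply Φ.injective
  rw [hc, LinearEquiv.apply_symm_apply, LinearEquiv.apply_symm_apply]

theorem main (k1 : S_ONE.{u}) (k2 : S_COM.{u}) (k3 : S_PR3.{u}) (k4 : S_PR2.{u}) (k5 : S_BLK.{u})
    (k6 : S_B3.{u}) (k7 : S_B2.{u}) (k8 : S_TYPE.{u}) (k9 : S_UNI.{u}) (k10 : S_FIN.{u})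
    (k11 : S_D1.{u}) {L : (H →L[ℂ] H) → (H →L[ℂ] H)} {α : ℂ} (hL : Good L α)
    (Φ : (H →L[ℂ] H) ≃ₗ[ℂ] (H →L[ℂ] H)) (hc : ∀ T, Φ (L T) = L (Φ T)) :
    ∃ (c : ℂ) (U : H ≃ₗᵢ[ℂ] H), c ≠ 0 ∧
      ∀ T, Φ T = c • ((U : H →L[ℂ] H) * T * star (U : H →L[ℂ] H)) := by
  by_cases hd : Dim2 H
  · have : Nontrivial H := by
      obtain ⟨x, y, hx, hy, hxy⟩ := hd
      exact ⟨x, 0, by rintro rfl; simp at hx⟩
    have key : ∀ (Ψ : (H →L[ℂ] H) ≃ₗ[ℂ] (H →L[ℂ] H)), (∀ T, Ψ (L T) = L (Ψ T)) →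
        ∃ (a : ℂ) (g : H → H), Proj Ψ a 0 g := by
      intro Ψ hΨ
      have hP := pres_of_good hL Ψ hΨ
      by_cases h3 : Dim3 H
      · obtain ⟨a, b, g, h⟩ := k3 H Ψ hP h3
        have hb := k6 H L α hL Ψ a b g hΨ h h3
        subst hb
        exact ⟨a, g, h⟩
      · obtain ⟨a, b, g, h⟩ := k4 H Ψ hP hd h3
        exact k7 H L α hL Ψ a b g hΨ h hd h3
    obtain ⟨a, g, hg⟩ := key Φ hc
    obtain ⟨a', g', hg'⟩ := key Φ.symm (comm_symm Φ hc)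
    obtain ⟨U, hU⟩ := k9 H Φ a g hg (by
      intro x y hx hy hxy
      obtain ⟨ζ, hζ, h | h⟩ := k5 H Φ a 0 g hg x y hx hy hxy
      · exact ⟨ζ, hζ, h⟩
      · exact absurd h (k8 H L α hL Φ a g hc hg x y ζ hx hy hxy (by
          rintro rfl; simp at hζ))) (by
      intro v hv
      refine ⟨g' v, a'⁻¹, hg'.norm v hv, inv_ne_zero hg'.ne, ?_⟩
      have h := congrArg Φ (hg'.eq v hv)
      rw [LinearEquiv.apply_symm_apply, zero_smul, add_zero, map_smul] at h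
      rw [h, smul_smul, inv_mul_cancel₀ hg'.ne, one_smul])
    refine ⟨a, U, hg.ne, ?_⟩
    exact k10 H L α hL Φ a U hc (fun A B hA hAB =>
      ((k2 H Φ (pres_of_good hL Φ hc) A hA).2 B).1 hAB) hg.ne hd hU
  · obtain ⟨c, hc0, h⟩ := k11 H hd Φ
    refine ⟨c, LinearIsometryEquiv.refl ℂ H, hc0, fun T => ?_⟩
    rw [h]
    have e : ((LinearIsometryEquiv.refl ℂ H : H ≃ₗᵢ[ℂ] H) : H →L[ℂ] H) = 1 := rfl
    rw [e, star_one, mul_one, one_mul]

theorem conj_comm (k : S_EQV.{u}) {L : (H →L[ℂ] H) → (H →L[ℂ] H)}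
    (hL : L = mA ∨ ∃ l : ℝ, 0 ≤ l ∧ l ≤ 1 / 2 ∧ L = ML l) (c : ℂ) (hc : c ≠ 0) (U : H ≃ₗᵢ[ℂ] H)
    (T : H →L[ℂ] H) :
    c • ((U : H →L[ℂ] H) * L T * star (U : H →L[ℂ] H)) =
      L (c • ((U : H →L[ℂ] H) * T * star (U : H →L[ℂ] H))) := by
  rcases hL with rfl | ⟨l, h0, h1, rfl⟩
  · have e1 := (k H (1 / 2) c U (by norm_num) (by norm_num) hc T).1
    have e2 := (k H 1 c U (by norm_num) (by norm_num) hc (alu (1 / 2) T)).1
    unfold mA mt
    rw [← alu_one, ← alu_one, e1, e2]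
    rw [mul_smul_comm, smul_mul_assoc, smul_comm, mul_add, add_mul, smul_add]
  · have e1 := (k H l c U h0 (by linarith) hc T).1
    have e2 := (k H (1 - l) c U (by linarith) (by linarith) hc T).1
    unfold ML
    rw [e1, e2]
    rw [mul_smul_comm, smul_mul_assoc, smul_comm, mul_add, add_mul, smul_add]

end pres

end Pool.Agent.R945.AP
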