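import Mathlib
import Pool.Agent.R884.AL.Main

/-!
# Definitions for the project AP: linear bijections commuting with mean-type Aluthge transforms
-/

set_option autoImplicit false

open scoped InnerProductSpace ComplexConjugate

namespace Pool.Agent.R945.AP

universe u

variable {H : Type u} [NormedAddCommGroup H] [InnerProductSpace ℂ H] [CompleteSpace H]

/-- the partial isometry `V` of the canonical polar decomposition `T = V |T|`, `ker V = ker T` -/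
noncomputable def pol (T : H →L[ℂ] H) : H →L[ℂ] H :=
  (Pool.Agent.R884.AL.existsUnique_polarPart T).choose

/-- `P ^ l` for a positive operator (continuous functional calculus, `P ^ 0 = 1`) -/
noncomputable def pw (P : H →L[ℂ] H) (l : ℝ) : H →L[ℂ] H := cfc (fun t : ℝ => t ^ l) P

/-- the `l`-Aluthge transform `|T|^l V |T|^(1-l)` -/
noncomputable def alu (l : ℝ) (T : H →L[ℂ] H) : H →L[ℂ] H :=
  pw (CFC.abs T) l * pol T * pw (CFC.abs T) (1 - l)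

/-- `M_l(T)`, the mean of the `l`- and the `(1-l)`-Aluthge transforms -/
noncomputable def ML (l : ℝ) (T : H →L[ℂ] H) : H →L[ℂ] H :=
  (2⁻¹ : ℂ) • (alu l T + alu (1 - l) T)

/-- the mean transform `(T + |T| V) / 2` -/
noncomputable def mt (T : H →L[ℂ] H) : H →L[ℂ] H := (2⁻¹ : ℂ) • (T + CFC.abs T * pol T)

/-- the mean-Aluthge transform: the mean transform of the Aluthge transform -/
noncomputable def mA (T : H →L[ℂ] H) : H →L[ℂ] H := mt (alu (1 / 2) T)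

/-- rank one operator `v ↦ ⟪y, v⟫ x` -/
noncomputable def ro (x y : H) : H →L[ℂ] H := (innerSL ℂ y).smulRight x

@[simp] lemma ro_apply (x y v : H) : ro x y v = ⟪y, v⟫_ℂ • x := rfl

/-- quasi-normal -/
def QN (T : H →L[ℂ] H) : Prop := T * (star T * T) = (star T * T) * T

/-- orthogonal projection -/
def IsPr (P : H →L[ℂ] H) : Prop := IsSelfAdjoint P ∧ P * P = P

/-- the properties of the transforms that are used -/
structure Good (L : (H →L[ℂ] H) → (H →L[ℂ] H)) (α : ℂ) : Prop where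
  ne : α ≠ 1
  fix : ∀ T, L T = T ↔ QN T
  sq : ∀ T, L T = α • T ↔ T * T = 0
  rank : ∀ (A : H →L[ℂ] H) (x y : H), IsSelfAdjoint A → A x = 0 → A y = 0 → y ≠ 0 →
    L (ro x y + A) = α • ro x y + ((1 - α) * (⟪y, x⟫_ℂ / ((‖y‖ : ℂ) ^ 2))) • ro y y + A
  tri : ∀ (h1 h2 : H) (T : H →L[ℂ] H) (p q τ : ℂ), ‖h1‖ = 1 → ‖h2‖ = 1 → ⟪h1, h2⟫_ℂ = 0 →
    p ≠ q → p ≠ 0 → q ≠ 0 → T h1 = p • h1 → T h2 = τ • h1 + q • h2 →
    star T h1 = conj p • h1 + conj τ • h2 → star T h2 = conj q • h2 →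
    L T h1 = p • h1 → L T h2 = (α * τ) • h1 + q • h2 → τ = 0

/-- linear bijections preserving quasi-normal and square-zero operators in both directions -/
structure Pres (Φ : (H →L[ℂ] H) ≃ₗ[ℂ] (H →L[ℂ] H)) : Prop where
  qn : ∀ T, QN T ↔ QN (Φ T)
  sq : ∀ T, T * T = 0 ↔ Φ T * Φ T = 0

/-- three orthonormal vectors exist -/
def Dim3 (H : Type u) [NormedAddCommGroup H] [InnerProductSpace ℂ H] : Prop :=
  ∃ x y z : H, ‖x‖ = 1 ∧ ‖y‖ = 1 ∧ ‖z‖ = 1 ∧ ⟪x, y⟫_ℂ = 0 ∧ ⟪x, z⟫_ℂ = 0 ∧ ⟪y, z⟫_ℂ = 0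

/-- two orthonormal vectors exist -/
def Dim2 (H : Type u) [NormedAddCommGroup H] [InnerProductSpace ℂ H] : Prop :=
  ∃ x y : H, ‖x‖ = 1 ∧ ‖y‖ = 1 ∧ ⟪x, y⟫_ℂ = 0

/-- `Φ` maps rank one projections to `a` times rank one projections plus `b` -/
structure Proj (Φ : (H →L[ℂ] H) ≃ₗ[ℂ] (H →L[ℂ] H)) (a b : ℂ) (g : H → H) : Prop where
  ne : a ≠ 0
  norm : ∀ x, ‖x‖ = 1 → ‖g x‖ = 1
  eq : ∀ x, ‖x‖ = 1 → Φ (ro x x) = a • ro (g x) (g x) + b • 1
  orth : ∀ x y, ‖x‖ = 1 → ‖y‖ = 1 → ⟪x, y⟫_ℂ = 0 → ⟪g x, g y⟫_ℂ = 0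

end Pool.Agent.R945.AP
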