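import Pool.Agent.R945.AP.Stm

/-!
# Project AP, piece B2
-/

set_option autoImplicit false

open scoped InnerProductSpace ComplexConjugate

namespace Pool.Agent.R945.AP

universe u

namespace B2

variable {H : Type u} [NormedAddCommGroup H] [InnerProductSpace ℂ H] [CompleteSpace H]

theorem star_ro (x y : H) : star (ro x y) = ro y x := by
  rw [ContinuousLinearMap.star_eq_adjoint]
  symm
  rw [ContinuousLinearMap.eq_adjoint_iff]
  intro v w
  rw [ro_apply, ro_apply, inner_smul_left, inner_smul_right, inner_conj_symm]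
  ring

theorem inner_self_one (x : H) (hx : ‖x‖ = 1) : ⟪x, x⟫_ℂ = 1 := by
  rw [inner_self_eq_norm_sq_to_K, hx]
  simp

theorem inner_zero_symm (x y : H) (h : ⟪x, y⟫_ℂ = 0) : ⟪y, x⟫_ℂ = 0 := by
  rw [← inner_conj_symm, h, map_zero]

theorem tri_contra {L : (H →L[ℂ] H) → (H →L[ℂ] H)} {α : ℂ} (hG : Good L α) (u w : H)
    (hu : ‖u‖ = 1) (hw : ‖w‖ = 1) (huw : ⟪u, w⟫_ℂ = 0) (p q τ : ℂ) (hpq : p ≠ q) (hp : p ≠ 0)
    (hq : q ≠ 0) (hτ : τ ≠ 0)
    (hL : L (p • ro u u + q • ro w w + τ • ro u w) =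
      p • ro u u + q • ro w w + (α * τ) • ro u w) : False := by
  have huu := inner_self_one u hu
  have hww := inner_self_one w hw
  have hwu := inner_zero_symm u w huw
  apply hτ
  refine hG.tri u w (p • ro u u + q • ro w w + τ • ro u w) p q τ hu hw huw hpq hp hq ?_ ?_ ?_ ?_
    ?_ ?_
  · simp [hu, hwu]
  · simp [huw, hw, add_comm]
  · simp only [star_add, star_smul, star_ro]
    simp [hu, hwu]
  · simp only [star_add, star_smul, star_ro]
    simp [huw, hw]
  · rw [hL]
    simp [hu, hwu]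
  · rw [hL]
    simp [huw, hw, add_comm]

theorem exW (h2 : Dim2 H) (u : H) (hu : ‖u‖ = 1) : ∃ w : H, ‖w‖ = 1 ∧ ⟪u, w⟫_ℂ = 0 := by
  obtain ⟨e1, e2, h1, h3, h4⟩ := h2
  have huu := inner_self_one u hu
  by_cases hr : e1 - ⟪u, e1⟫_ℂ • u = 0
  · refine ⟨e2, h3, ?_⟩
    have h5 : e1 = ⟪u, e1⟫_ℂ • u := sub_eq_zero.1 hr
    have h6 : ⟪u, e1⟫_ℂ ≠ 0 := by
      intro h7
      rw [h7, zero_smul] at h5
      rw [h5, norm_zero] at h1
      exact zero_ne_one h1
    rw [h5, inner_smul_left] at h4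
    rcases mul_eq_zero.1 h4 with h7 | h7
    · exact absurd ((map_eq_zero _).1 h7) h6
    · exact h7
  · have hn : ‖e1 - ⟪u, e1⟫_ℂ • u‖ ≠ 0 := norm_ne_zero_iff.2 hr
    refine ⟨((‖e1 - ⟪u, e1⟫_ℂ • u‖⁻¹ : ℝ) : ℂ) • (e1 - ⟪u, e1⟫_ℂ • u), ?_, ?_⟩
    · rw [norm_smul, Complex.norm_real, norm_inv, norm_norm, inv_mul_cancel₀ hn]
    · rw [inner_smul_right, inner_sub_right, inner_smul_right, huu, mul_one, sub_self, mul_zero]

theorem one_eq (h3 : ¬ Dim3 H) (u w : H) (hu : ‖u‖ = 1) (hw : ‖w‖ = 1) (huw : ⟪u, w⟫_ℂ = 0) :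
    (1 : H →L[ℂ] H) = ro u u + ro w w := by
  have huu := inner_self_one u hu
  have hww := inner_self_one w hw
  have hwu := inner_zero_symm u w huw
  ext v
  by_contra hcon
  apply h3
  have hr : v - (⟪u, v⟫_ℂ • u + ⟪w, v⟫_ℂ • w) ≠ 0 := by
    intro h
    apply hcon
    simp only [ContinuousLinearMap.one_apply, ContinuousLinearMap.add_apply, ro_apply]
    exact sub_eq_zero.1 h
  have hn : ‖v - (⟪u, v⟫_ℂ • u + ⟪w, v⟫_ℂ • w)‖ ≠ 0 := norm_ne_zero_iff.2 hr
  refine ⟨u, w, ((‖v - (⟪u, v⟫_ℂ • u + ⟪w, v⟫_ℂ • w)‖⁻¹ : ℝ) : ℂ) •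
    (v - (⟪u, v⟫_ℂ • u + ⟪w, v⟫_ℂ • w)), hu, hw, ?_, huw, ?_, ?_⟩
  · rw [norm_smul, Complex.norm_real, norm_inv, norm_norm, inv_mul_cancel₀ hn]
  · rw [inner_smul_right, inner_sub_right, inner_add_right, inner_smul_right, inner_smul_right,
      huu, huw]
    ring
  · rw [inner_smul_right, inner_sub_right, inner_add_right, inner_smul_right, inner_smul_right,
      hwu, hww]
    ring

end B2

open B2

theorem t_B2 (h7 : S_BLK.{u}) : S_B2.{u} := by
  intro H _ _ _ L α hG Φ a b g hcomm hP hD2 hD3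
  by_cases hb : b = 0
  · subst hb
    exact ⟨a, g, hP⟩
  have ha := hP.ne
  by_cases hab : a + b = 0
  · -- replace the projections by their complements
    have hex : ∀ x : H, ‖x‖ = 1 → ∃ w : H, ‖w‖ = 1 ∧ ⟪g x, w⟫_ℂ = 0 := fun x hx =>
      exW hD2 (g x) (hP.norm x hx)
    choose! g' hg'1 hg'2 using hex
    have hone : ∀ x, ‖x‖ = 1 → (1 : H →L[ℂ] H) = ro (g x) (g x) + ro (g' x) (g' x) :=
      fun x hx => one_eq hD3 _ _ (hP.norm x hx) (hg'1 x hx) (hg'2 x hx)
    have hb' : b = -a := by linear_combination hab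
    refine ⟨-a, g', neg_ne_zero.2 ha, hg'1, ?_, ?_⟩
    · intro x hx
      rw [hP.eq x hx, hb']
      conv_lhs => rw [hone x hx]
      rw [smul_add, neg_smul, neg_smul, zero_smul]
      abel
    · intro x y hx hy hxy
      have h1 : (1 : H →L[ℂ] H) = ro (g x) (g x) + ro (g y) (g y) :=
        one_eq hD3 _ _ (hP.norm x hx) (hP.norm y hy) (hP.orth x y hx hy hxy)
      have h2 := hone x hx
      have h3 := hone y hy
      have h4 : ro (g' x) (g' x) + ro (g' y) (g' y) = (1 : H →L[ℂ] H) := by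
        have h5 : ro (g' x) (g' x) = 1 - ro (g x) (g x) := by
          rw [h2]
          abel
        have h6 : ro (g' y) (g' y) = 1 - ro (g y) (g y) := by
          rw [h3]
          abel
        rw [h5, h6]
        calc (1 : H →L[ℂ] H) - ro (g x) (g x) + (1 - ro (g y) (g y))
            = 1 + (1 - (ro (g x) (g x) + ro (g y) (g y))) := by abel
          _ = 1 := by rw [← h1]; abel
      have h5 := congrArg (fun A : H →L[ℂ] H => A (g' x)) h4
      simp only [ContinuousLinearMap.add_apply, ro_apply, ContinuousLinearMap.one_apply,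
        inner_self_one (g' x) (hg'1 x hx), one_smul] at h5
      have h6 : ⟪g' y, g' x⟫_ℂ • g' y = 0 := by
        have := h5
        rwa [add_eq_left] at this
      rcases smul_eq_zero.1 h6 with h8 | h8
      · exact inner_zero_symm _ _ h8
      · exfalso
        have := hg'1 y hy
        rw [h8, norm_zero] at this
        exact zero_ne_one this
  · exfalso
    obtain ⟨x, y, hx, hy, hxy⟩ := hD2
    have hyx := inner_zero_symm x y hxy
    have hyy := inner_self_one y hy
    have hgx := hP.norm x hx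
    have hgy := hP.norm y hy
    have hgxy := hP.orth x y hx hy hxy
    have hgyx := inner_zero_symm _ _ hgxy
    have hone : (1 : H →L[ℂ] H) = ro (g x) (g x) + ro (g y) (g y) :=
      one_eq hD3 _ _ hgx hgy hgxy
    have hy0 : y ≠ 0 := by
      intro h
      rw [h, norm_zero] at hy
      exact zero_ne_one hy
    have hsplit : ro (y + x) y = ro y y + ro x y := by
      ext v
      simp only [ContinuousLinearMap.add_apply, ro_apply, smul_add]
    have hLT : L (ro y y + ro x y) = ro y y + α • ro x y := by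
      have h1 := hG.rank 0 (y + x) y (IsSelfAdjoint.zero _) (by simp) (by simp) hy0
      rw [add_zero, add_zero, hsplit, inner_add_right, hyy, hyx, hy] at h1
      rw [h1]
      have h2 : (1 - α) * ((1 + 0) / ((1 : ℝ) : ℂ) ^ 2) = 1 - α := by
        rw [Complex.ofReal_one]
        ring
      rw [h2, smul_add, sub_smul, one_smul]
      abel
    have hmain : L (Φ (ro y y) + Φ (ro x y)) = Φ (ro y y) + α • Φ (ro x y) := by
      rw [← map_add, ← hcomm, hLT, map_add, map_smul]
    obtain ⟨ζ, hζ, hty⟩ := h7 H Φ a b g hP x y hx hy hxy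
    have hζ0 : ζ ≠ 0 := by
      intro h
      rw [h, norm_zero] at hζ
      exact zero_ne_one hζ
    have hτ : a * ζ ≠ 0 := mul_ne_zero ha hζ0
    rw [hP.eq y hy] at hmain
    rcases hty with h | h
    · rw [h] at hmain
      refine tri_contra hG (g x) (g y) hgx hgy hgxy b (a + b) (a * ζ) ?_ hb hab hτ ?_
      · intro h1
        apply ha
        linear_combination -h1
      · have e1 : a • ro (g y) (g y) + b • (1 : H →L[ℂ] H) + (a * ζ) • ro (g x) (g y)
            = b • ro (g x) (g x) + (a + b) • ro (g y) (g y) + (a * ζ) • ro (g x) (g y) := by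
          rw [hone, smul_add, add_smul]
          abel
        rw [e1] at hmain
        rw [hmain, smul_smul]
        rw [hone, smul_add, add_smul]
        abel
    · rw [h] at hmain
      refine tri_contra hG (g y) (g x) hgy hgx hgyx (a + b) b (a * ζ) ?_ hab hb hτ ?_
      · intro h1
        apply ha
        linear_combination h1
      · have e1 : a • ro (g y) (g y) + b • (1 : H →L[ℂ] H) + (a * ζ) • ro (g y) (g x)
            = (a + b) • ro (g y) (g y) + b • ro (g x) (g x) + (a * ζ) • ro (g y) (g x) := by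
          rw [hone, smul_add, add_smul]
          abel
        rw [e1] at hmain
        rw [hmain, smul_smul]
        rw [hone, smul_add, add_smul]
        abel

end Pool.Agent.R945.AP
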