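import Pool.Agent.R945.AP.Stm

/-!
Piece B3: the constant `b` vanishes in dimension at least three.
-/

set_option autoImplicit false

open scoped InnerProductSpace ComplexConjugate

namespace Pool.Agent.R945.AP

universe u

namespace PB3

variable {H : Type u} [NormedAddCommGroup H] [InnerProductSpace ℂ H] [CompleteSpace H]

lemma star_ro (x y : H) : star (ro x y) = ro y x := by
  rw [ContinuousLinearMap.star_eq_adjoint, eq_comm, ContinuousLinearMap.eq_adjoint_iff]
  intro u v
  rw [ro_apply, ro_apply, inner_smul_left, inner_smul_right, inner_conj_symm]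
  ring

lemma inner_self_one (x : H) (hx : ‖x‖ = 1) : ⟪x, x⟫_ℂ = 1 := by
  rw [inner_self_eq_norm_sq_to_K, hx]; norm_num

lemma inner_symm_zero (x y : H) (h : ⟪x, y⟫_ℂ = 0) : ⟪y, x⟫_ℂ = 0 := by
  rw [← inner_conj_symm, h, map_zero]

end PB3

open PB3 in
theorem t_B3 (h7 : S_BLK.{u}) : S_B3.{u} := by
  intro H _ _ _ L α hG Φ a b g hΦ hP hD
  obtain ⟨x, y, w, hx, hy, hw, hxy, hxw, hyw⟩ := hD
  by_contra hb
  obtain ⟨s, hs1, hs2⟩ : ∃ s : ℝ, (1 + (s : ℂ)) ≠ 0 ∧ a + b * (1 + (s : ℂ)) ≠ 0 := by
    by_cases h : a + b = 0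
    · refine ⟨1, by norm_num, ?_⟩
      have h2 : a + b * (1 + ((1 : ℝ) : ℂ)) = b := by
        push_cast
        linear_combination h
      rw [h2]; exact hb
    · exact ⟨0, by norm_num, by simpa using h⟩
  obtain ⟨ζ, hζ, hZ⟩ := h7 H Φ a b g hP x y hx hy hxy
  have ha := hP.ne
  have hζ0 : ζ ≠ 0 := by
    intro h; rw [h, norm_zero] at hζ; exact zero_ne_one hζ
  have hyx := inner_symm_zero x y hxy
  have hwx := inner_symm_zero x w hxw
  have hwy := inner_symm_zero y w hyw
  have hyy := inner_self_one y hy
  -- the operator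
  have hA : IsSelfAdjoint ((s : ℂ) • ro w w) := by
    rw [IsSelfAdjoint, star_smul, star_ro]
    congr 1
    exact Complex.conj_ofReal s
  have hrank := hG.rank ((s : ℂ) • ro w w) (y + x) y hA
    (by rw [ContinuousLinearMap.smul_apply, ro_apply, inner_add_right, hwy, hwx]; simp)
    (by rw [ContinuousLinearMap.smul_apply, ro_apply, hwy]; simp)
    (by intro h; rw [h, norm_zero] at hy; exact zero_ne_one hy)
  have hadd : ro (y + x) y = ro y y + ro x y := by
    ext v
    simp only [ro_apply, ContinuousLinearMap.add_apply, smul_add]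
  have hin : ⟪y, y + x⟫_ℂ / ((‖y‖ : ℂ) ^ 2) = 1 := by
    rw [inner_add_right, hyy, hyx, hy]; norm_num
  rw [hin, mul_one] at hrank
  have hLT : L (ro (y + x) y + (s : ℂ) • ro w w) = ro y y + α • ro x y + (s : ℂ) • ro w w := by
    rw [hrank, hadd]
    module
  have hPy := hP.eq y hy
  have hPw := hP.eq w hw
  have hT1 : Φ (ro (y + x) y + (s : ℂ) • ro w w) = (a • ro (g y) (g y) + b • 1) + Φ (ro x y)
      + (s : ℂ) • (a • ro (g w) (g w) + b • 1) := by
    rw [hadd, map_add, map_add, map_smul, hPy, hPw]
  have hT2 : L (Φ (ro (y + x) y + (s : ℂ) • ro w w)) = (a • ro (g y) (g y) + b • 1) + α • Φ (ro x y)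
      + (s : ℂ) • (a • ro (g w) (g w) + b • 1) := by
    rw [← hΦ, hLT, map_add, map_add, map_smul, map_smul, hPy, hPw]
  rw [hT1] at hT2
  have gx := inner_self_one _ (hP.norm x hx)
  have gy := inner_self_one _ (hP.norm y hy)
  have gxy := hP.orth x y hx hy hxy
  have gyx := inner_symm_zero _ _ gxy
  have gxw := hP.orth x w hx hw hxw
  have gwx := inner_symm_zero _ _ gxw
  have gyw := hP.orth y w hy hw hyw
  have gwy := inner_symm_zero _ _ gyw
  have hp0 : b * (1 + (s : ℂ)) ≠ 0 := mul_ne_zero hb hs1
  have hpq : b * (1 + (s : ℂ)) ≠ a + b * (1 + (s : ℂ)) := by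
    intro h; exact ha (by linear_combination -h)
  have hτ : a * ζ ≠ 0 := mul_ne_zero ha hζ0
  rcases hZ with hZ | hZ
  · rw [hZ] at hT2
    refine hτ (hG.tri (g x) (g y) (b * (1 + (s : ℂ))) (a + b * (1 + (s : ℂ))) (a * ζ)
      (hP.norm x hx) (hP.norm y hy) gxy hpq hp0 hs2 ?_ ?_ ?_ ?_ ?_ ?_
      (T := (a • ro (g y) (g y) + b • 1) + (a * ζ) • ro (g x) (g y)
        + (s : ℂ) • (a • ro (g w) (g w) + b • 1)))
    · simp only [ContinuousLinearMap.add_apply, ContinuousLinearMap.smul_apply, ro_apply,
        ContinuousLinearMap.one_apply, gyx, gwx, zero_smul, smul_zero]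
      module
    · simp only [ContinuousLinearMap.add_apply, ContinuousLinearMap.smul_apply, ro_apply,
        ContinuousLinearMap.one_apply, gy, gwy, zero_smul, smul_zero, one_smul]
      module
    · simp only [star_add, star_smul, star_ro, star_one, ContinuousLinearMap.add_apply,
        ContinuousLinearMap.smul_apply, ro_apply, ContinuousLinearMap.one_apply, gx, gyx, gwx,
        zero_smul, smul_zero, one_smul, RCLike.star_def, map_mul, map_add, map_one, Complex.conj_ofReal]
      module
    · simp only [star_add, star_smul, star_ro, star_one, ContinuousLinearMap.add_apply,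
        ContinuousLinearMap.smul_apply, ro_apply, ContinuousLinearMap.one_apply, gy, gxy, gwy,
        zero_smul, smul_zero, one_smul, RCLike.star_def, map_mul, map_add, map_one, Complex.conj_ofReal]
      module
    · rw [hT2]
      simp only [ContinuousLinearMap.add_apply, ContinuousLinearMap.smul_apply, ro_apply,
        ContinuousLinearMap.one_apply, gyx, gwx, zero_smul, smul_zero]
      module
    · rw [hT2]
      simp only [ContinuousLinearMap.add_apply, ContinuousLinearMap.smul_apply, ro_apply,
        ContinuousLinearMap.one_apply, gy, gwy, zero_smul, smul_zero, one_smul]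
      module
  · rw [hZ] at hT2
    refine hτ (hG.tri (g y) (g x) (a + b * (1 + (s : ℂ))) (b * (1 + (s : ℂ))) (a * ζ)
      (hP.norm y hy) (hP.norm x hx) gyx hpq.symm hs2 hp0 ?_ ?_ ?_ ?_ ?_ ?_
      (T := (a • ro (g y) (g y) + b • 1) + (a * ζ) • ro (g y) (g x)
        + (s : ℂ) • (a • ro (g w) (g w) + b • 1)))
    · simp only [ContinuousLinearMap.add_apply, ContinuousLinearMap.smul_apply, ro_apply,
        ContinuousLinearMap.one_apply, gy, gxy, gwy, zero_smul, smul_zero, one_smul]
      module
    · simp only [ContinuousLinearMap.add_apply, ContinuousLinearMap.smul_apply, ro_apply,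
        ContinuousLinearMap.one_apply, gx, gyx, gwx, zero_smul, smul_zero, one_smul]
      module
    · simp only [star_add, star_smul, star_ro, star_one, ContinuousLinearMap.add_apply,
        ContinuousLinearMap.smul_apply, ro_apply, ContinuousLinearMap.one_apply, gy, gwy,
        zero_smul, smul_zero, one_smul, RCLike.star_def, map_mul, map_add, map_one, Complex.conj_ofReal]
      module
    · simp only [star_add, star_smul, star_ro, star_one, ContinuousLinearMap.add_apply,
        ContinuousLinearMap.smul_apply, ro_apply, ContinuousLinearMap.one_apply, gyx, gwx,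
        zero_smul, smul_zero, one_smul, RCLike.star_def, map_mul, map_add, map_one, Complex.conj_ofReal]
      module
    · rw [hT2]
      simp only [ContinuousLinearMap.add_apply, ContinuousLinearMap.smul_apply, ro_apply,
        ContinuousLinearMap.one_apply, gy, gxy, gwy, zero_smul, smul_zero, one_smul]
      module
    · rw [hT2]
      simp only [ContinuousLinearMap.add_apply, ContinuousLinearMap.smul_apply, ro_apply,
        ContinuousLinearMap.one_apply, gx, gyx, gwx, zero_smul, smul_zero, one_smul]
      module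

end Pool.Agent.R945.AP
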