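import Pool.Agent.R945.AP.Stm

/-!
# Project AP: the double commutant of a projection
-/

set_option autoImplicit false

open scoped InnerProductSpace ComplexConjugate

namespace Pool.Agent.R945.AP

universe u

namespace BIC

variable {H : Type u} [NormedAddCommGroup H] [InnerProductSpace ℂ H] [CompleteSpace H]

theorem star_ro (x y : H) : star (ro x y) = ro y x := by
  rw [ContinuousLinearMap.star_eq_adjoint, eq_comm, ContinuousLinearMap.eq_adjoint_iff]
  intro v w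
  simp only [ro_apply, inner_smul_left, inner_smul_right, inner_conj_symm]
  ring

theorem sa (x y : H) : IsSelfAdjoint (ro x y + ro y x) := by
  rw [IsSelfAdjoint, star_add, star_ro, star_ro, add_comm]

theorem comm {P : H →L[ℂ] H} (hP : IsSelfAdjoint P) {c : ℂ} (hc : conj c = c) {x y : H}
    (hx : P x = c • x) (hy : P y = c • y) : Commute P (ro x y + ro y x) := by
  have hs : ∀ a b : H, ⟪a, P b⟫_ℂ = ⟪P a, b⟫_ℂ := by
    intro a b
    rw [← ContinuousLinearMap.adjoint_inner_left, ← ContinuousLinearMap.star_eq_adjoint, hP.star_eq]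
  ext v
  change P (⟪y, v⟫_ℂ • x + ⟪x, v⟫_ℂ • y) = ⟪y, P v⟫_ℂ • x + ⟪x, P v⟫_ℂ • y
  rw [map_add, map_smul, map_smul, hs, hs, hx, hy, inner_smul_left, inner_smul_left, hc,
    smul_smul, smul_smul, mul_comm c, mul_comm c]

theorem scal {P X : H →L[ℂ] H} (hP : IsSelfAdjoint P)
    (h : ∀ C : H →L[ℂ] H, IsSelfAdjoint C → Commute P C → Commute X C) {c : ℂ} (hc : conj c = c) :
    ∃ m : ℂ, ∀ y : H, P y = c • y → X y = m • y := by
  by_cases h0 : ∃ x : H, P x = c • x ∧ x ≠ 0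
  · obtain ⟨x, hx, hx0⟩ := h0
    have hxx : ⟪x, x⟫_ℂ ≠ 0 := by simpa using hx0
    have hm : X x = (⟪x, X x⟫_ℂ / ⟪x, x⟫_ℂ) • x := by
      have h1 := h _ (sa x x) (comm hP hc hx hx)
      have h2 : X (⟪x, x⟫_ℂ • x + ⟪x, x⟫_ℂ • x) = ⟪x, X x⟫_ℂ • x + ⟪x, X x⟫_ℂ • x :=
        congrArg (fun T : H →L[ℂ] H => T x) h1.eq
      rw [map_add, map_smul, ← two_smul ℂ, ← two_smul ℂ (⟪x, X x⟫_ℂ • x)] at h2
      have h3 : ⟪x, x⟫_ℂ • X x = ⟪x, X x⟫_ℂ • x := smul_right_injective H (two_ne_zero) h2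
      rw [div_eq_inv_mul, mul_smul, ← h3, smul_smul, inv_mul_cancel₀ hxx, one_smul]
    refine ⟨⟪x, X x⟫_ℂ / ⟪x, x⟫_ℂ, fun y hy => ?_⟩
    set m := ⟪x, X x⟫_ℂ / ⟪x, x⟫_ℂ with hmdef
    have h1 := h _ (sa x y) (comm hP hc hx hy)
    have h2 : X (⟪y, x⟫_ℂ • x + ⟪x, x⟫_ℂ • y) = ⟪y, X x⟫_ℂ • x + ⟪x, X x⟫_ℂ • y :=
      congrArg (fun T : H →L[ℂ] H => T x) h1.eq
    rw [map_add, map_smul, map_smul, hm, inner_smul_right, inner_smul_right, smul_smul,
      mul_comm m ⟪y, x⟫_ℂ, add_right_inj] at h2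
    have h3 : ⟪x, x⟫_ℂ • X y = ⟪x, x⟫_ℂ • (m • y) := by
      rw [h2, smul_smul]
      ring_nf
    exact smul_right_injective H hxx h3
  · push Not at h0
    refine ⟨0, fun y hy => ?_⟩
    rw [h0 y hy]
    simp

end BIC

theorem t_BIC : S_BIC.{u} := by
  intro H _ _ _ P X hP h
  obtain ⟨m, hm⟩ := BIC.scal hP.1 h (c := 1) (by simp)
  obtain ⟨n, hn⟩ := BIC.scal hP.1 h (c := 0) (by simp)
  refine ⟨m - n, n, ?_⟩
  ext v
  have hPP : P (P v) = P v := by
    have := congrArg (fun T : H →L[ℂ] H => T v) hP.2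
    simpa using this
  have h1 : X (P v) = m • P v := hm _ (by rw [hPP, one_smul])
  have h2 : X (v - P v) = n • (v - P v) := hn _ (by rw [map_sub, hPP, sub_self, zero_smul])
  have h3 : X v = X (P v) + X (v - P v) := by
    rw [← map_add]
    congr 1
    abel
  rw [h3, h1, h2]
  change m • P v + n • (v - P v) = (m - n) • P v + n • v
  module

end Pool.Agent.R945.AP
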