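import Pool.Agent.R945.AP.Stm

/-!
# Project AP: off-diagonal matrix units
-/

set_option autoImplicit false

open scoped InnerProductSpace ComplexConjugate

namespace Pool.Agent.R945.AP

universe u

namespace BLK

variable {H : Type u} [NormedAddCommGroup H] [InnerProductSpace ℂ H] [CompleteSpace H]

lemma star_ro (x y : H) : star (ro x y) = ro y x := by
  rw [ContinuousLinearMap.star_eq_adjoint]
  symm
  rw [ContinuousLinearMap.eq_adjoint_iff]
  intro v w
  simp only [ro_apply, inner_smul_left, inner_smul_right, inner_conj_symm]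
  ring

lemma ro_mul (x y z t : H) : ro x y * ro z t = ⟪y, z⟫_ℂ • ro x t := by
  ext v
  simp only [mul_apply_eq_comp, ro_apply, inner_smul_right,
    smul_apply, smul_smul]
  rw [mul_comm]

lemma ro_op_mul (x y z t : H) (Z : H →L[ℂ] H) :
    ro x y * Z * ro z t = ⟪y, Z z⟫_ℂ • ro x t := by
  ext v
  simp only [mul_apply_eq_comp, ro_apply, inner_smul_right, map_smul,
    smul_apply, smul_smul]
  rw [mul_comm]

lemma alg (Ex Ey W : H →L[ℂ] H) (hEx : Ex * Ex = Ex) (hEy : Ey * Ey = Ey) (hxy : Ex * Ey = 0)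
    (hyx : Ey * Ex = 0)
    (h1 : ((9 / 25 : ℂ) • Ex + (16 / 25 : ℂ) • Ey + (12 / 25 : ℂ) • W) *
      ((9 / 25 : ℂ) • Ex + (16 / 25 : ℂ) • Ey + (12 / 25 : ℂ) • W) =
      (9 / 25 : ℂ) • Ex + (16 / 25 : ℂ) • Ey + (12 / 25 : ℂ) • W)
    (h2 : ((9 / 25 : ℂ) • Ex + (16 / 25 : ℂ) • Ey + (-12 / 25 : ℂ) • W) *
      ((9 / 25 : ℂ) • Ex + (16 / 25 : ℂ) • Ey + (-12 / 25 : ℂ) • W) =
      (9 / 25 : ℂ) • Ex + (16 / 25 : ℂ) • Ey + (-12 / 25 : ℂ) • W)
    (h3 : ((16 / 25 : ℂ) • Ex + (9 / 25 : ℂ) • Ey + (12 / 25 : ℂ) • W) *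
      ((16 / 25 : ℂ) • Ex + (9 / 25 : ℂ) • Ey + (12 / 25 : ℂ) • W) =
      (16 / 25 : ℂ) • Ex + (9 / 25 : ℂ) • Ey + (12 / 25 : ℂ) • W)
    (h4 : ((16 / 25 : ℂ) • Ex + (9 / 25 : ℂ) • Ey + (-12 / 25 : ℂ) • W) *
      ((16 / 25 : ℂ) • Ex + (9 / 25 : ℂ) • Ey + (-12 / 25 : ℂ) • W) =
      (16 / 25 : ℂ) • Ex + (9 / 25 : ℂ) • Ey + (-12 / 25 : ℂ) • W) :
    Ex * W + W * Ex = W ∧ Ey * W + W * Ey = W ∧ W * W = Ex + Ey := by
  simp only [mul_add, add_mul, smul_mul_assoc, mul_smul_comm, smul_smul, hEx, hEy, hxy, hyx,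
    smul_zero] at h1 h2 h3 h4
  refine ⟨?_, ?_, ?_⟩
  · linear_combination (norm := module) (50 / 21 : ℂ) • h3 - (50 / 21 : ℂ) • h4 -
      (75 / 56 : ℂ) • h1 + (75 / 56 : ℂ) • h2
  · linear_combination (norm := module) (50 / 21 : ℂ) • h1 - (50 / 21 : ℂ) • h2 -
      (75 / 56 : ℂ) • h3 + (75 / 56 : ℂ) • h4
  · linear_combination (norm := module) (625 / 288 : ℂ) • h1 + (625 / 288 : ℂ) • h2

lemma fact1 {Φ : (H →L[ℂ] H) ≃ₗ[ℂ] (H →L[ℂ] H)} {a b : ℂ} {g : H → H} (hP : Proj Φ a b g)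
    {x y : H} (hx : ‖x‖ = 1) (hy : ‖y‖ = 1) (hxy : ⟪x, y⟫_ℂ = 0) (c s : ℝ) (w : ℂ)
    (hcs : c ^ 2 + s ^ 2 = 1) (hw : ‖w‖ = 1) : ∃ u : H, ‖u‖ = 1 ∧ ro (g u) (g u) =
      ((c ^ 2 : ℝ) : ℂ) • ro (g x) (g x) + ((s ^ 2 : ℝ) : ℂ) • ro (g y) (g y) +
      ((c * s : ℝ) : ℂ) • (conj w • (a⁻¹ • Φ (ro x y)) + w • (a⁻¹ • Φ (ro y x))) := by
  have hww : conj w * w = 1 := by
    rw [Complex.conj_mul', hw]; simp
  set u : H := (c : ℂ) • x + ((s : ℂ) * w) • y with hu
  have hun : ‖u‖ = 1 := by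
    have h0 : ⟪(c : ℂ) • x, ((s : ℂ) * w) • y⟫_ℂ = 0 := by
      rw [inner_smul_left, inner_smul_right, hxy]; simp
    have h := norm_add_sq_eq_norm_sq_add_norm_sq_of_inner_eq_zero _ _ h0
    rw [← hu, norm_smul, norm_smul, norm_mul, hx, hy, hw, Complex.norm_real, Complex.norm_real,
      Real.norm_eq_abs, Real.norm_eq_abs, mul_one, mul_one, mul_one, abs_mul_abs_self,
      abs_mul_abs_self] at h
    have h' : ‖u‖ * ‖u‖ = 1 := by rw [h]; linarith
    nlinarith [norm_nonneg u]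
  refine ⟨u, hun, ?_⟩
  have hro : ro u u = ((c ^ 2 : ℝ) : ℂ) • ro x x + ((s ^ 2 : ℝ) : ℂ) • ro y y +
      ((c * s : ℝ) : ℂ) • (conj w • ro x y + w • ro y x) := by
    ext v
    simp only [ro_apply, hu, add_apply, smul_apply,
      inner_add_left, inner_smul_left, map_mul, Complex.conj_ofReal, Complex.ofReal_pow,
      Complex.ofReal_mul]
    match_scalars
    · ring
    · linear_combination ((s : ℂ) ^ 2 * ⟪y, v⟫_ℂ) * hww
  have h1 := hP.eq u hun
  rw [hro, map_add, map_add, map_smul, map_smul, map_smul, map_add, map_smul, map_smul,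
    hP.eq x hx, hP.eq y hy] at h1
  have hA : Φ (ro x y) = a • (a⁻¹ • Φ (ro x y)) := (smul_inv_smul₀ hP.ne _).symm
  have hB : Φ (ro y x) = a • (a⁻¹ • Φ (ro y x)) := (smul_inv_smul₀ hP.ne _).symm
  rw [hA, hB] at h1
  have hs : ((s ^ 2 : ℝ) : ℂ) = 1 - ((c ^ 2 : ℝ) : ℂ) := by
    have h2 : (s ^ 2 : ℝ) = 1 - c ^ 2 := by linarith
    rw [h2]; push_cast; ring
  rw [hs] at h1 ⊢
  apply smul_right_injective (H →L[ℂ] H) hP.ne
  simp only
  generalize a⁻¹ • Φ (ro x y) = Z at h1 ⊢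
  generalize a⁻¹ • Φ (ro y x) = Z' at h1 ⊢
  linear_combination (norm := module) -h1

end BLK

open BLK

/-- off-diagonal matrix units -/
theorem t_BLK : S_BLK.{u} := by
  intro H _ _ _ Φ a b g hP x y hx hy hxy
  set Z : H →L[ℂ] H := a⁻¹ • Φ (ro x y) with hZ
  set Z' : H →L[ℂ] H := a⁻¹ • Φ (ro y x) with hZ'
  set p : H := g x with hp
  set q : H := g y with hq
  have hpn : ‖p‖ = 1 := hP.norm x hx
  have hqn : ‖q‖ = 1 := hP.norm y hy
  have hpq : ⟪p, q⟫_ℂ = 0 := hP.orth x y hx hy hxy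
  have hqp : ⟪q, p⟫_ℂ = 0 := by rw [← inner_conj_symm, hpq]; simp
  have hpp : ⟪p, p⟫_ℂ = 1 := by rw [inner_self_eq_norm_sq_to_K, hpn]; simp
  have hqq : ⟪q, q⟫_ℂ = 1 := by rw [inner_self_eq_norm_sq_to_K, hqn]; simp
  have hidem : ∀ v : H, ‖v‖ = 1 → ro v v * ro v v = ro v v := by
    intro v hv
    rw [ro_mul, inner_self_eq_norm_sq_to_K, hv]; simp
  have hEx : ro p p * ro p p = ro p p := hidem p hpn
  have hEy : ro q q * ro q q = ro q q := hidem q hqn
  have hExy : ro p p * ro q q = 0 := by rw [ro_mul, hpq, zero_smul]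
  have hEyx : ro q q * ro p p = 0 := by rw [ro_mul, hqp, zero_smul]
  -- the four equations
  have hW : ∀ w : ℂ, ‖w‖ = 1 →
      ro p p * (conj w • Z + w • Z') + (conj w • Z + w • Z') * ro p p = conj w • Z + w • Z' ∧
      ro q q * (conj w • Z + w • Z') + (conj w • Z + w • Z') * ro q q = conj w • Z + w • Z' ∧
      (conj w • Z + w • Z') * (conj w • Z + w • Z') = ro p p + ro q q ∧
      star (conj w • Z + w • Z') = conj w • Z + w • Z' := by
    intro w hw
    obtain ⟨u1, hu1, e1⟩ := fact1 hP hx hy hxy (3 / 5) (4 / 5) w (by norm_num) hw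
    obtain ⟨u2, hu2, e2⟩ := fact1 hP hx hy hxy (3 / 5) (-4 / 5) w (by norm_num) hw
    obtain ⟨u3, hu3, e3⟩ := fact1 hP hx hy hxy (4 / 5) (3 / 5) w (by norm_num) hw
    obtain ⟨u4, hu4, e4⟩ := fact1 hP hx hy hxy (4 / 5) (-3 / 5) w (by norm_num) hw
    rw [← hZ, ← hZ', ← hp, ← hq] at e1 e2 e3 e4
    have c1 : (((3 / 5 : ℝ) ^ 2 : ℝ) : ℂ) = 9 / 25 := by push_cast; norm_num
    have c2 : (((4 / 5 : ℝ) ^ 2 : ℝ) : ℂ) = 16 / 25 := by push_cast; norm_num
    have c3 : (((-4 / 5 : ℝ) ^ 2 : ℝ) : ℂ) = 16 / 25 := by push_cast; norm_num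
    have c4 : (((-3 / 5 : ℝ) ^ 2 : ℝ) : ℂ) = 9 / 25 := by push_cast; norm_num
    have c5 : (((3 / 5 : ℝ) * (4 / 5) : ℝ) : ℂ) = 12 / 25 := by push_cast; norm_num
    have c6 : (((3 / 5 : ℝ) * (-4 / 5) : ℝ) : ℂ) = -12 / 25 := by push_cast; norm_num
    have c7 : (((4 / 5 : ℝ) * (3 / 5) : ℝ) : ℂ) = 12 / 25 := by push_cast; norm_num
    have c8 : (((4 / 5 : ℝ) * (-3 / 5) : ℝ) : ℂ) = -12 / 25 := by push_cast; norm_num
    rw [c1, c2, c5] at e1
    rw [c1, c3, c6] at e2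
    rw [c2, c1, c7] at e3
    rw [c2, c4, c8] at e4
    have f1 := hidem _ (hP.norm u1 hu1)
    have f2 := hidem _ (hP.norm u2 hu2)
    have f3 := hidem _ (hP.norm u3 hu3)
    have f4 := hidem _ (hP.norm u4 hu4)
    rw [e1] at f1
    rw [e2] at f2
    rw [e3] at f3
    rw [e4] at f4
    obtain ⟨r1, r2, r3⟩ := alg (ro p p) (ro q q) (conj w • Z + w • Z') hEx hEy hExy hEyx
      f1 f2 f3 f4
    refine ⟨r1, r2, r3, ?_⟩
    have hWe : conj w • Z + w • Z' = (25 / 24 : ℂ) • (ro (g u1) (g u1) - ro (g u2) (g u2)) := by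
      rw [e1, e2]; module
    have hst : star (25 / 24 : ℂ) = 25 / 24 := by
      rw [Complex.star_def, map_div₀, map_ofNat, map_ofNat]
    rw [hWe, star_smul, star_sub, star_ro, star_ro, hst]
  obtain ⟨a1, b1, s1, t1⟩ := hW 1 (by simp)
  obtain ⟨a2, b2, s2, t2⟩ := hW Complex.I (by simp)
  have hw3 : ‖(3 + 4 * Complex.I) / 5‖ = 1 := by
    rw [norm_div]
    have : ‖(3 + 4 * Complex.I : ℂ)‖ = 5 := by
      rw [show (3 + 4 * Complex.I : ℂ) = ((3 : ℝ) : ℂ) + ((4 : ℝ) : ℂ) * Complex.I by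
        push_cast; ring, Complex.norm_add_mul_I]
      rw [show (3 : ℝ) ^ 2 + 4 ^ 2 = 5 ^ 2 by norm_num]
      exact Real.sqrt_sq (by norm_num)
    rw [this]; norm_num
  obtain ⟨a3, b3, s3, t3⟩ := hW ((3 + 4 * Complex.I) / 5) hw3
  simp only [map_one, one_smul, Complex.conj_I] at a1 b1 s1 t1 a2 b2 s2 t2
  clear_value Z Z'
  -- `Z' = star Z`
  have hI : Complex.I * Complex.I = -1 := Complex.I_mul_I
  have hstar : Z' = star Z := by
    rw [star_add] at t1
    rw [star_add, star_smul, star_smul, Complex.star_def, map_neg,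
      Complex.conj_I, neg_neg] at t2
    -- t1 : star Z + star Z' = Z + Z' ; t2 : I • star Z + -I • star Z' = -I • Z + I • Z'
    have t2' : star Z - star Z' = -Z + Z' := by
      have h := congrArg (fun X : H →L[ℂ] H => (-Complex.I) • X) t2
      simp only [smul_add, smul_smul, neg_mul, mul_neg, neg_neg, hI] at h
      linear_combination (norm := module) h
    linear_combination (norm := module) (-(1 / 2) : ℂ) • t1 - (1 / 2 : ℂ) • t2'
  -- the relations for Z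
  have rx : ro p p * Z + Z * ro p p = Z := by
    simp only [mul_add, add_mul, smul_mul_assoc, mul_smul_comm] at a1 a2
    have h := congrArg (fun X : H →L[ℂ] H => Complex.I • X) a2
    simp only [smul_add, smul_smul, mul_neg, hI, neg_neg] at h
    linear_combination (norm := module) (1 / 2 : ℂ) • a1 + (1 / 2 : ℂ) • h
  have ry : ro q q * Z + Z * ro q q = Z := by
    simp only [mul_add, add_mul, smul_mul_assoc, mul_smul_comm] at b1 b2
    have h := congrArg (fun X : H →L[ℂ] H => Complex.I • X) b2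
    simp only [smul_add, smul_smul, mul_neg, hI, neg_neg] at h
    linear_combination (norm := module) (1 / 2 : ℂ) • b1 + (1 / 2 : ℂ) • h
  have hZ1 : ro p p * Z = ro p p * Z * ro q q := by
    conv_lhs => rw [← ry]
    rw [mul_add, ← mul_assoc, hExy, zero_mul, zero_add, mul_assoc]
  have hZ2 : Z * ro p p = ro q q * Z * ro p p := by
    conv_lhs => rw [← ry]
    rw [add_mul, mul_assoc Z, hEyx, mul_zero, add_zero]
  set α : ℂ := ⟪p, Z q⟫_ℂ with hα
  set β : ℂ := ⟪q, Z p⟫_ℂ with hβ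
  have hZe : Z = α • ro p q + β • ro q p := by
    conv_lhs => rw [← rx]
    rw [hZ1, hZ2, ro_op_mul, ro_op_mul]
  have hZs : Z' = conj α • ro q p + conj β • ro p q := by
    rw [hstar, hZe, star_add, star_smul, star_smul, star_ro, star_ro]
    rfl
  have hcoef : ∀ w : ℂ, (conj w • Z + w • Z') * (conj w • Z + w • Z') = ro p p + ro q q →
      (conj w * β + w * conj α) * (conj w * α + w * conj β) = 1 := by
    intro w h
    have h1 := congrArg (fun X : H →L[ℂ] H => ⟪p, X p⟫_ℂ) h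
    rw [hZe, hZs] at h1
    simp only [mul_apply_eq_comp, add_apply,
      smul_apply, ro_apply, map_add, map_smul, hpp, hqq, hpq, hqp,
      inner_add_right, inner_smul_right, smul_zero, zero_smul, one_smul, mul_zero, zero_mul,
      add_zero, zero_add, mul_one] at h1
    linear_combination h1
  have hcoef' : ∀ w : ℂ, conj w * w = 1 →
      (conj w • Z + w • Z') * (conj w • Z + w • Z') = ro p p + ro q q →
      (conj w) ^ 2 * (α * β) + w ^ 2 * (conj α * conj β) + (α * conj α + β * conj β) = 1 := by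
    intro w hww h
    linear_combination (hcoef w h) - (α * conj α + β * conj β) * hww
  have k1 := hcoef' 1 (by simp) (by simpa using s1)
  have k2 := hcoef' Complex.I (by simp) (by simpa [Complex.conj_I] using s2)
  have k3 := hcoef' ((3 + 4 * Complex.I) / 5)
    (by rw [Complex.conj_mul', hw3]; simp) s3
  have e1 : (conj ((3 + 4 * Complex.I) / 5)) ^ 2 = (-7 - 24 * Complex.I) / 25 := by
    rw [map_div₀, map_add, map_mul, Complex.conj_I, map_ofNat, map_ofNat, map_ofNat]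
    linear_combination (16 / 25 : ℂ) * hI
  have e2 : ((3 + 4 * Complex.I) / 5) ^ 2 = (-7 + 24 * Complex.I) / 25 := by
    linear_combination (16 / 25 : ℂ) * hI
  rw [e1, e2] at k3
  rw [Complex.conj_I] at k2
  rw [map_one, one_pow, one_mul, one_mul] at k1
  have e3 : (-Complex.I) ^ 2 = -1 := by linear_combination hI
  have e4 : Complex.I ^ 2 = -1 := by linear_combination hI
  rw [e3, e4] at k2
  have hγ : α * β = 0 := by
    linear_combination (25 * Complex.I / 48) * (k3 - (k1 + k2) / 2 -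
      ((-7 + 24 * Complex.I) / 25) * (k1 - k2) / 2) + (α * β) * hI
  have hS : α * conj α + β * conj β = 1 := by
    linear_combination (k1 + k2) / 2
  have hΦ : Φ (ro x y) = a • Z := by
    rw [hZ, smul_inv_smul₀ hP.ne]
  have hnorm : ∀ z : ℂ, z * conj z = 1 → ‖z‖ = 1 := by
    intro z hz
    rw [Complex.mul_conj'] at hz
    have h1 : ‖z‖ ^ 2 = 1 := by exact_mod_cast hz
    nlinarith [norm_nonneg z]
  rcases mul_eq_zero.mp hγ with h0 | h0
  · rw [h0] at hS hZe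
    refine ⟨β, hnorm β (by simpa using hS), Or.inr ?_⟩
    rw [hΦ]
    conv_lhs => rw [hZe]
    rw [zero_smul, zero_add, smul_smul]
  · rw [h0] at hS hZe
    refine ⟨α, hnorm α (by simpa using hS), Or.inl ?_⟩
    rw [hΦ]
    conv_lhs => rw [hZe]
    rw [zero_smul, add_zero, smul_smul]

end Pool.Agent.R945.AP
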