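import Pool.Agent.R945.AP.Stm

set_option autoImplicit false

open scoped InnerProductSpace ComplexConjugate

namespace Pool.Agent.R945.AP

universe u

namespace ComAux

section alg

variable {A : Type*} [Ring A] [StarRing A] [Algebra ℂ A] [StarModule ℂ A]

/-- quasi-normal in a star algebra -/
def Qn (T : A) : Prop := T * (star T * T) = (star T * T) * T

omit [StarModule ℂ A] in
lemma normal_iff (N : A) : IsStarNormal N ↔ Qn (1 + N) ∧ Qn (1 - N) := by
  have e1 : (1 + N) * (star (1 + N) * (1 + N)) - (star (1 + N) * (1 + N)) * (1 + N)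
      = (N * star N - star N * N) + (N * (star N * N) - star N * N * N) := by
    rw [star_add, star_one]; noncomm_ring
  have e2 : (1 - N) * (star (1 - N) * (1 - N)) - (star (1 - N) * (1 - N)) * (1 - N)
      = (N * star N - star N * N) - (N * (star N * N) - star N * N * N) := by
    rw [star_sub, star_one]; noncomm_ring
  constructor
  · intro h
    have h0 : star N * N = N * star N := h.star_comm_self
    have h1 : N * star N - star N * N = 0 := by rw [h0, sub_self]
    have h2 : N * (star N * N) - star N * N * N = 0 := by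
      rw [← mul_assoc, ← h0, sub_self]
    refine ⟨sub_eq_zero.mp ?_, sub_eq_zero.mp ?_⟩
    · rw [e1, h1, h2, add_zero]
    · rw [e2, h1, h2, sub_zero]
  · rintro ⟨h1, h2⟩
    have h3 := sub_eq_zero.mpr h1
    have h4 := sub_eq_zero.mpr h2
    rw [e1] at h3
    rw [e2] at h4
    have h5 : (2 : ℂ) • (N * star N - star N * N) = 0 := by
      rw [two_smul]
      have := congrArg₂ (· + ·) h3 h4
      simp only [add_zero] at this
      rw [← this]; abel
    have h6 := (smul_eq_zero.mp h5).resolve_left two_ne_zero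
    exact ⟨(sub_eq_zero.mp h6).symm⟩

lemma qn_smul {c : ℂ} {T : A} (h : Qn T) : Qn (c • T) := by
  unfold Qn at *
  rw [star_smul]
  simp only [smul_mul_assoc, mul_smul_comm]
  rw [h, smul_smul, smul_smul, smul_smul, smul_smul]
  congr 1
  ring

lemma normal_smul {c : ℂ} {T : A} (h : IsStarNormal T) : IsStarNormal (c • T) := by
  constructor
  rw [star_smul]
  unfold Commute SemiconjBy
  simp only [smul_mul_assoc, mul_smul_comm]
  rw [h.star_comm_self.eq, smul_smul, smul_smul, mul_comm]

end alg

section cstar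

variable {A : Type*} [CStarAlgebra A]

lemma normal_add_smul {P Q : A} (hP : IsStarNormal P) (hQ : IsStarNormal Q) (h : Commute P Q)
    (t : ℂ) : IsStarNormal (P + t • Q) := by
  have h1 : P * star Q = star Q * P := (hQ.commute_star_right h).eq
  have h2 : Q * star P = star P * Q := (hP.commute_star_right h.symm).eq
  constructor
  rw [star_add, star_smul]
  unfold Commute SemiconjBy
  simp only [add_mul, mul_add, smul_mul_assoc, mul_smul_comm]
  rw [hP.star_comm_self.eq, hQ.star_comm_self.eq, h1, h2, smul_add, smul_add,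
    smul_comm (star t) t]
  abel

lemma commute_of_normal {P Q : A} (hP : IsStarNormal P) (hQ : IsStarNormal Q)
    (h : ∀ t : ℂ, IsStarNormal (P + t • Q)) : Commute P Q := by
  have key : ∀ t : ℂ, (star t) • (P * star Q - star Q * P) + t • (Q * star P - star P * Q) = 0 := by
    intro t
    have h1 := (h t).star_comm_self.eq
    rw [star_add, star_smul] at h1
    simp only [add_mul, mul_add, smul_mul_assoc, mul_smul_comm] at h1
    rw [hP.star_comm_self.eq, hQ.star_comm_self.eq, smul_add, smul_add,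
      smul_comm (star t) t] at h1
    have h2 := sub_eq_zero.mpr h1.symm
    rw [← h2, smul_sub, smul_sub]
    abel
  have k1 := key 1
  have k2 := key Complex.I
  rw [star_one, one_smul, one_smul] at k1
  have hI : star Complex.I = - Complex.I := Complex.conj_I
  rw [hI, neg_smul, ← smul_neg, ← smul_add] at k2
  have k3 := (smul_eq_zero.mp k2).resolve_left Complex.I_ne_zero
  have k4 : (2 : ℂ) • (P * star Q - star Q * P) = 0 := by
    rw [two_smul]
    have h5 : Q * star P - star P * Q = P * star Q - star Q * P := by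
      rw [neg_add_eq_zero] at k3
      exact k3.symm
    rw [h5] at k1
    exact k1
  have k5 := (smul_eq_zero.mp k4).resolve_left two_ne_zero
  have k6 : Commute P (star Q) := sub_eq_zero.mp k5
  have hQ' : IsStarNormal (star Q) := inferInstance
  have k7 := hQ'.commute_star_right k6
  rwa [star_star] at k7

end cstar

variable {H : Type u} [NormedAddCommGroup H] [InnerProductSpace ℂ H] [CompleteSpace H]

lemma pres_symm {Φ : (H →L[ℂ] H) ≃ₗ[ℂ] (H →L[ℂ] H)} (h : Pres Φ) : Pres Φ.symm where
  qn T := by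
    have := h.qn (Φ.symm T)
    rw [Φ.apply_symm_apply] at this
    exact this.symm
  sq T := by
    have := h.sq (Φ.symm T)
    rw [Φ.apply_symm_apply] at this
    exact this.symm

lemma pres_normal {Φ : (H →L[ℂ] H) ≃ₗ[ℂ] (H →L[ℂ] H)} (h : Pres Φ) {c : ℂ} (hc : c ≠ 0)
    (hΦ : Φ 1 = c • 1) {N : H →L[ℂ] H} (hN : IsStarNormal N) : IsStarNormal (Φ N) := by
  obtain ⟨h1, h2⟩ := (normal_iff N).mp hN
  have h3 : QN (Φ (1 + N)) := (h.qn _).mp h1
  have h4 : QN (Φ (1 - N)) := (h.qn _).mp h2
  rw [map_add, hΦ] at h3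
  rw [map_sub, hΦ] at h4
  have h5 : Qn (1 + c⁻¹ • Φ N) := by
    have h6 : Qn (c⁻¹ • (c • (1 : H →L[ℂ] H) + Φ N)) := qn_smul h3
    rwa [smul_add, smul_smul, inv_mul_cancel₀ hc, one_smul] at h6
  have h6 : Qn (1 - c⁻¹ • Φ N) := by
    have h7 : Qn (c⁻¹ • (c • (1 : H →L[ℂ] H) - Φ N)) := qn_smul h4
    rwa [smul_sub, smul_smul, inv_mul_cancel₀ hc, one_smul] at h7
  have h7 : IsStarNormal (c⁻¹ • Φ N) := (normal_iff _).mpr ⟨h5, h6⟩
  have h8 := normal_smul (c := c) h7
  rwa [smul_smul, mul_inv_cancel₀ hc, one_smul] at h8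

lemma pres_commute_normal {Φ : (H →L[ℂ] H) ≃ₗ[ℂ] (H →L[ℂ] H)}
    (hn : ∀ N, IsStarNormal N → IsStarNormal (Φ N)) {P Q : H →L[ℂ] H} (hP : IsStarNormal P)
    (hQ : IsStarNormal Q) (hPQ : Commute P Q) : Commute (Φ P) (Φ Q) := by
  apply commute_of_normal (hn _ hP) (hn _ hQ)
  intro t
  rw [← map_smul, ← map_add]
  exact hn _ (normal_add_smul hP hQ hPQ t)

lemma pres_commute {Φ : (H →L[ℂ] H) ≃ₗ[ℂ] (H →L[ℂ] H)}
    (hn : ∀ N, IsStarNormal N → IsStarNormal (Φ N)) {P Q : H →L[ℂ] H} (hP : IsStarNormal P)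
    (hPQ : Commute P Q) : Commute (Φ P) (Φ Q) := by
  have h1 : Commute (star P) Q := hP.commute_star_left hPQ
  have h2 : Commute P (star Q) := by
    have := h1.star_star
    rwa [star_star] at this
  have h3 : IsStarNormal (Q + star Q) := by
    constructor
    rw [star_add, star_star, add_comm]
  have h4 : IsStarNormal (Q - star Q) := by
    constructor
    have : star (Q - star Q) = - (Q - star Q) := by
      rw [star_sub, star_star, neg_sub]
    rw [this]
    exact (Commute.refl _).neg_left
  have h5 := pres_commute_normal hn hP h3 (hPQ.add_right h2)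
  have h6 := pres_commute_normal hn hP h4 (hPQ.sub_right h2)
  have h7 : Commute (Φ P) ((2⁻¹ : ℂ) • (Φ (Q + star Q) + Φ (Q - star Q))) :=
    (h5.add_right h6).smul_right _
  rw [← map_add] at h7
  have h8 : Q + star Q + (Q - star Q) = (2 : ℂ) • Q := by
    rw [two_smul]; abel
  rw [h8, map_smul, smul_smul] at h7
  norm_num at h7
  exact h7

end ComAux

open ComAux

theorem t_COM (h1 : S_ONE.{u}) : S_COM.{u} := by
  intro H _ _ _ _ Φ hΦ A hA
  obtain ⟨c, hc, hc1⟩ := h1 H Φ hΦ
  obtain ⟨c', hc', hc1'⟩ := h1 H Φ.symm (pres_symm hΦ)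
  have hn : ∀ N, IsStarNormal N → IsStarNormal (Φ N) := fun N hN => pres_normal hΦ hc hc1 hN
  have hn' : ∀ N, IsStarNormal N → IsStarNormal (Φ.symm N) :=
    fun N hN => pres_normal (pres_symm hΦ) hc' hc1' hN
  refine ⟨hn A hA, fun B => ⟨fun h => pres_commute hn hA h, fun h => ?_⟩⟩
  have h2 := pres_commute hn' (hn A hA) h
  rwa [Φ.symm_apply_apply, Φ.symm_apply_apply] at h2

end Pool.Agent.R945.AP
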