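import Pool.Agent.R945.AP.Stm

set_option autoImplicit false

open scoped InnerProductSpace ComplexConjugate

namespace Pool.Agent.R945.AP

universe u

namespace D1Aux

variable {H : Type u} [NormedAddCommGroup H] [InnerProductSpace ℂ H] [CompleteSpace H]

theorem eq_smul (hD : ¬ Dim2 H) {e : H} (he : ‖e‖ = 1) (x : H) : x = ⟪e, x⟫_ℂ • e := by
  by_contra hne
  have hy : x - ⟪e, x⟫_ℂ • e ≠ 0 := fun h => hne (sub_eq_zero.1 h)
  apply hD
  refine ⟨e, ((‖x - ⟪e, x⟫_ℂ • e‖⁻¹ : ℝ) : ℂ) • (x - ⟪e, x⟫_ℂ • e), he, ?_, ?_⟩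
  · rw [norm_smul, Complex.norm_real, norm_inv, norm_norm]
    exact inv_mul_cancel₀ (norm_ne_zero_iff.2 hy)
  · rw [inner_smul_right, inner_sub_right, inner_smul_right, inner_self_eq_norm_sq_to_K, he]
    simp

theorem op_eq (hD : ¬ Dim2 H) {e : H} (he : ‖e‖ = 1) (T : H →L[ℂ] H) :
    T = ⟪e, T e⟫_ℂ • (1 : H →L[ℂ] H) := by
  ext x
  have h1 := eq_smul hD he x
  have h2 := eq_smul hD he (T e)
  have h3 : T x = ⟪e, x⟫_ℂ • T e := by
    conv_lhs => rw [h1]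
    rw [map_smul]
  have h4 : (⟪e, T e⟫_ℂ • (1 : H →L[ℂ] H)) x = ⟪e, T e⟫_ℂ • x := rfl
  rw [h4, h3]
  conv_lhs => rw [h2]
  conv_rhs => rw [h1]
  rw [smul_smul, smul_smul, mul_comm]

end D1Aux

open D1Aux

theorem t_D1 : S_D1.{u} := by
  intro H _ _ _ hD Φ
  rcases subsingleton_or_nontrivial H with hs | hn
  · refine ⟨1, one_ne_zero, fun T => ?_⟩
    ext x
    exact Subsingleton.elim _ _
  · obtain ⟨v, hv⟩ := exists_ne (0 : H)
    have he : ‖((‖v‖⁻¹ : ℝ) : ℂ) • v‖ = 1 := by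
      rw [norm_smul, Complex.norm_real, norm_inv, norm_norm]
      exact inv_mul_cancel₀ (norm_ne_zero_iff.2 hv)
    set e : H := ((‖v‖⁻¹ : ℝ) : ℂ) • v with hedef
    have h1 := op_eq hD he (Φ 1)
    refine ⟨⟪e, Φ 1 e⟫_ℂ, ?_, fun T => ?_⟩
    · intro h0
      rw [h0, zero_smul] at h1
      have h2 : (1 : H →L[ℂ] H) = 0 := by
        apply Φ.injective
        rw [h1, map_zero]
      have h3 : (1 : H →L[ℂ] H) e = (0 : H →L[ℂ] H) e := by rw [h2]
      have h4 : e = 0 := h3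
      rw [h4, norm_zero] at he
      exact zero_ne_one he
    · have h2 := op_eq hD he T
      have h3 : Φ T = ⟪e, T e⟫_ℂ • Φ 1 := by
        conv_lhs => rw [h2]
        rw [map_smul]
      rw [h3]
      conv_lhs => rw [h1]
      conv_rhs => rw [h2]
      rw [smul_smul, smul_smul, mul_comm]

end Pool.Agent.R945.AP
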