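import Pool.Agent.R945.AP.Stm

set_option autoImplicit false

/-!
# AP-EPR: normal operators with a quadratic equation (helper507)
-/

open scoped InnerProductSpace ComplexConjugate

namespace Pool.Agent.R945.AP

universe u

namespace EPR507

variable {H : Type u} [NormedAddCommGroup H] [InnerProductSpace ℂ H] [CompleteSpace H]

theorem nil_normal {N : H →L[ℂ] H} (h : Commute (star N) N) (h2 : N * N = 0) : N = 0 := by
  have h3 : star (star N * N) * (star N * N) = 0 := by
    rw [star_mul, star_star]
    have e : star N * N * (star N * N) = star N * star N * (N * N) := by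
      calc star N * N * (star N * N) = star N * (N * star N) * N := by noncomm_ring
        _ = star N * (star N * N) * N := by rw [h.eq]
        _ = star N * star N * (N * N) := by noncomm_ring
    rw [e, h2, mul_zero]
  have h4 : star N * N = 0 := (CStarRing.star_mul_self_eq_zero_iff _).1 h3
  exact (CStarRing.star_mul_self_eq_zero_iff _).1 h4

theorem idem_normal {E : H →L[ℂ] H} (h : Commute (star E) E) (h2 : E * E = E) :
    IsSelfAdjoint E := by
  have hs : star E * star E = star E := by
    rw [← star_mul, h2]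
  have h3 : star (E - star E * E) * (E - star E * E) = 0 := by
    rw [star_sub, star_mul, star_star]
    have e1 : star E * E * E = star E * E := by rw [mul_assoc, h2]
    have e2 : star E * (star E * E) = star E * E := by rw [← mul_assoc, hs]
    have e3 : star E * E * (star E * E) = star E * E := by
      calc star E * E * (star E * E) = star E * (E * star E) * E := by noncomm_ring
        _ = star E * (star E * E) * E := by rw [h.eq]
        _ = (star E * star E) * (E * E) := by noncomm_ring
        _ = star E * E := by rw [hs, h2]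
    rw [sub_mul, mul_sub, mul_sub, e2, e1, e3]
    simp
  have h4 : E - star E * E = 0 := (CStarRing.star_mul_self_eq_zero_iff _).1 h3
  have h5 : E = star E * E := sub_eq_zero.1 h4
  rw [h5]
  exact IsSelfAdjoint.star_mul_self E

theorem comm_shift {A : H →L[ℂ] H} (h : Commute (star A) A) (c r : ℂ) :
    Commute (star (c • (A - r • (1 : H →L[ℂ] H)))) (c • (A - r • (1 : H →L[ℂ] H))) := by
  rw [star_smul, star_sub, star_smul, star_one]
  refine Commute.smul_left (Commute.smul_right ?_ _) _
  refine Commute.sub_left (Commute.sub_right h ?_) (Commute.sub_right ?_ ?_)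
  · exact (Commute.one_right _).smul_right _
  · exact (Commute.one_left _).smul_left _
  · exact ((Commute.one_left _).smul_left _).smul_right _

end EPR507

open EPR507 in
theorem t_EPR : S_EPR.{u} := by
  intro H _ _ _ A u v hA hq hs
  have hc : Commute (star A) A := hA.star_comm_self
  obtain ⟨d, hd⟩ := IsAlgClosed.exists_pow_nat_eq (u ^ 2 + 4 * v) (n := 2) (by norm_num)
  have sqf : ∀ c r : ℂ, (c • (A - r • (1 : H →L[ℂ] H))) * (c • (A - r • (1 : H →L[ℂ] H))) =
      (c ^ 2 * (u - 2 * r)) • A + (c ^ 2 * (v + r ^ 2)) • (1 : H →L[ℂ] H) := by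
    intro c r
    rw [smul_mul_smul_comm, sub_mul, mul_sub, mul_sub, smul_mul_smul_comm, mul_one,
      smul_mul_assoc, mul_smul_comm, mul_one, one_mul, hq]
    module
  by_cases h0 : d = 0
  · exfalso
    apply hs
    refine ⟨u / 2, ?_⟩
    have h1 := nil_normal (comm_shift hc 1 (u / 2)) (by
      rw [sqf]
      have e1 : (1 : ℂ) ^ 2 * (u - 2 * (u / 2)) = 0 := by ring
      have e2 : (1 : ℂ) ^ 2 * (v + (u / 2) ^ 2) = 0 := by
        rw [h0] at hd
        linear_combination -(1 / 4 : ℂ) * hd
      rw [e1, e2, zero_smul, zero_smul, add_zero])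
    rw [one_smul] at h1
    exact sub_eq_zero.1 h1
  · have hE2 : (d⁻¹ • (A - ((u - d) / 2) • (1 : H →L[ℂ] H))) *
        (d⁻¹ • (A - ((u - d) / 2) • (1 : H →L[ℂ] H))) =
        d⁻¹ • (A - ((u - d) / 2) • (1 : H →L[ℂ] H)) := by
      rw [sqf]
      have e1 : d⁻¹ ^ 2 * (u - 2 * ((u - d) / 2)) = d⁻¹ := by
        field_simp
        ring
      have e2 : d⁻¹ ^ 2 * (v + ((u - d) / 2) ^ 2) = -(d⁻¹ * ((u - d) / 2)) := by
        field_simp
        linear_combination -(1 : ℂ) * hd
      rw [e1, e2]
      module
    have hA' : A = d • (d⁻¹ • (A - ((u - d) / 2) • (1 : H →L[ℂ] H))) +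
        ((u - d) / 2) • (1 : H →L[ℂ] H) := by
      rw [smul_smul, mul_inv_cancel₀ h0, one_smul, sub_add_cancel]
    refine ⟨d, (u - d) / 2, d⁻¹ • (A - ((u - d) / 2) • (1 : H →L[ℂ] H)), h0,
      ⟨idem_normal (comm_shift hc _ _) hE2, hE2⟩, ?_, ?_, hA'⟩
    · intro h
      apply hs
      rw [h, smul_zero, zero_add] at hA'
      exact ⟨_, hA'⟩
    · intro h
      apply hs
      rw [h, ← add_smul] at hA'
      exact ⟨_, hA'⟩

end Pool.Agent.R945.AP
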