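import Pool.Agent.R945.AP.Stm

/-! AP-EQV (helper608 for helper945): scalars and unitary conjugation. -/

set_option autoImplicit false

open scoped InnerProductSpace ComplexConjugate ComplexOrder

namespace Pool.Agent.R945.AP

universe u

namespace EQV

variable {H : Type u} [NormedAddCommGroup H] [InnerProductSpace ℂ H] [CompleteSpace H]

open Pool.Agent.R884.AL

theorem sw (U : H ≃ₗᵢ[ℂ] H) : star (U : H →L[ℂ] H) * (U : H →L[ℂ] H) = 1 := by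
  rw [LinearIsometryEquiv.star_eq_symm]
  ext x
  simp

theorem ws (U : H ≃ₗᵢ[ℂ] H) : (U : H →L[ℂ] H) * star (U : H →L[ℂ] H) = 1 := by
  rw [LinearIsometryEquiv.star_eq_symm]
  ext x
  simp

/-- conjugation -/
noncomputable def φ (U : H ≃ₗᵢ[ℂ] H) : (H →L[ℂ] H) ≃⋆ₐ[ℂ] (H →L[ℂ] H) :=
  Unitary.conjStarAlgAut ℂ (H →L[ℂ] H) ⟨(U : H →L[ℂ] H), Unitary.mem_iff.2 ⟨sw U, ws U⟩⟩

theorem φ_apply (U : H ≃ₗᵢ[ℂ] H) (X : H →L[ℂ] H) :
    φ U X = (U : H →L[ℂ] H) * X * star (U : H →L[ℂ] H) := rfl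

theorem φ_nonneg (U : H ≃ₗᵢ[ℂ] H) {X : H →L[ℂ] H} (hX : 0 ≤ X) : 0 ≤ φ U X := by
  rw [φ_apply]
  exact star_right_conjugate_nonneg hX _

theorem φ_cont (U : H ≃ₗᵢ[ℂ] H) : Continuous (φ U) := by
  change Continuous fun X : H →L[ℂ] H => (U : H →L[ℂ] H) * X * star (U : H →L[ℂ] H)
  fun_prop

theorem φ_zero (U : H ≃ₗᵢ[ℂ] H) (X : H →L[ℂ] H) (x : H) :
    φ U X x = 0 ↔ X (star (U : H →L[ℂ] H) x) = 0 := by
  rw [φ_apply]
  change U (X (star (U : H →L[ℂ] H) x)) = 0 ↔ _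
  rw [map_eq_zero_iff _ U.injective]

theorem abs_eq (U : H ≃ₗᵢ[ℂ] H) (c : ℂ) (T : H →L[ℂ] H) :
    CFC.abs (c • φ U T) = (‖c‖ : ℂ) • φ U (CFC.abs T) := by
  have hn : (0 : H →L[ℂ] H) ≤ (‖c‖ : ℂ) • φ U (CFC.abs T) := by
    have h1 : (0 : ℂ) ≤ (‖c‖ : ℂ) := by
      rw [← Complex.ofReal_zero, Complex.real_le_real]
      exact norm_nonneg c
    exact smul_nonneg h1 (φ_nonneg U (CFC.abs_nonneg T))
  have hc : (‖c‖ : ℂ) * (‖c‖ : ℂ) = star c * c := by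
    rw [Complex.star_def, ← Complex.normSq_eq_conj_mul_self, Complex.normSq_eq_norm_sq]
    push_cast
    ring
  unfold CFC.abs
  refine CFC.sqrt_unique ?_ hn
  rw [smul_mul_smul_comm, ← map_mul, star_smul, ← map_star, smul_mul_smul_comm, ← map_mul, hc]
  congr 2
  exact CFC.abs_mul_abs T

theorem polar (U : H ≃ₗᵢ[ℂ] H) (c : ℂ) (hc : c ≠ 0) (T V : H →L[ℂ] H)
    (h : IsPolarPart T V) : IsPolarPart (c • φ U T) ((c / (‖c‖ : ℂ)) • φ U V) := by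
  have hn : (‖c‖ : ℂ) ≠ 0 := by
    rw [Ne, Complex.ofReal_eq_zero, norm_eq_zero]
    exact hc
  have hz : c / (‖c‖ : ℂ) ≠ 0 := div_ne_zero hc hn
  have hone : (c / (‖c‖ : ℂ)) * star (c / (‖c‖ : ℂ)) = 1 := by
    rw [Complex.star_def, Complex.mul_conj, Complex.normSq_eq_norm_sq, norm_div,
      Complex.norm_real, norm_norm, div_self (norm_ne_zero_iff.2 hc)]
    simp
  refine ⟨?_, ?_, ?_⟩
  · rw [abs_eq, smul_mul_smul_comm, ← map_mul, h.mul_abs, div_mul_cancel₀ _ hn]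
  · rw [star_smul, ← map_star, smul_mul_smul_comm, ← map_mul, hone, one_smul, mul_smul_comm,
      ← map_mul, h.partialIsometry]
  · intro x
    rw [ContinuousLinearMap.smul_apply, ContinuousLinearMap.smul_apply, smul_eq_zero,
      smul_eq_zero, φ_zero, φ_zero, h.ker_eq]
    simp only [hc, hz, false_or]

theorem pol_eq (U : H ≃ₗᵢ[ℂ] H) (c : ℂ) (hc : c ≠ 0) (T : H →L[ℂ] H) :
    pol (c • φ U T) = (c / (‖c‖ : ℂ)) • φ U (pol T) := by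
  have h1 : IsPolarPart T (pol T) := (existsUnique_polarPart T).choose_spec.1
  have h2 : IsPolarPart (c • φ U T) (pol (c • φ U T)) :=
    (existsUnique_polarPart (c • φ U T)).choose_spec.1
  exact h2.unique (polar U c hc T _ h1)

theorem rpow_cont (l : ℝ) (hl : 0 ≤ l) : Continuous fun t : ℝ => t ^ l :=
  continuous_iff_continuousAt.2 fun x => Real.continuousAt_rpow_const x l (Or.inr hl)

theorem pw_eq (U : H ≃ₗᵢ[ℂ] H) (r l : ℝ) (hr : 0 ≤ r) (hl : 0 ≤ l) (Q : H →L[ℂ] H)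
    (hQ : 0 ≤ Q) : pw ((r : ℂ) • φ U Q) l = ((r ^ l : ℝ) : ℂ) • φ U (pw Q l) := by
  have hcont := rpow_cont l hl
  have hQ' := φ_nonneg U hQ
  have hsa : IsSelfAdjoint (φ U Q) := hQ'.isSelfAdjoint
  have h1 : φ U (pw Q l) = cfc (fun t : ℝ => t ^ l) (φ U Q) := by
    unfold pw
    exact StarAlgHomClass.map_cfc (S := ℂ) (φ U) (fun t : ℝ => t ^ l) Q hcont.continuousOn
      (φ_cont U) hQ.isSelfAdjoint hsa
  rw [h1, Complex.coe_smul, Complex.coe_smul]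
  unfold pw
  rw [← cfc_comp_smul r (fun t : ℝ => t ^ l) (φ U Q) hcont.continuousOn hsa,
    ← cfc_smul (r ^ l) (fun t : ℝ => t ^ l) (φ U Q) hcont.continuousOn]
  apply cfc_congr
  intro t ht
  have ht0 : 0 ≤ t := spectrum_nonneg_of_nonneg hQ' ht
  simp only [smul_eq_mul]
  exact Real.mul_rpow hr ht0

theorem alu_eq (U : H ≃ₗᵢ[ℂ] H) (c : ℂ) (hc : c ≠ 0) (l : ℝ) (hl : 0 ≤ l) (hl1 : l ≤ 1)
    (T : H →L[ℂ] H) : alu l (c • φ U T) = c • φ U (alu l T) := by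
  have hn : (‖c‖ : ℂ) ≠ 0 := by
    rw [Ne, Complex.ofReal_eq_zero, norm_eq_zero]
    exact hc
  have hpos : 0 < ‖c‖ := norm_pos_iff.2 hc
  unfold alu
  rw [abs_eq, pol_eq U c hc, pw_eq U _ _ (norm_nonneg c) hl _ (CFC.abs_nonneg T),
    pw_eq U _ _ (norm_nonneg c) (by linarith) _ (CFC.abs_nonneg T), smul_mul_smul_comm,
    ← map_mul, smul_mul_smul_comm, ← map_mul]
  congr 1
  have h1 : ((‖c‖ ^ l : ℝ) : ℂ) * ((‖c‖ ^ (1 - l) : ℝ) : ℂ) = (‖c‖ : ℂ) := by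
    rw [← Complex.ofReal_mul, ← Real.rpow_add hpos, add_sub_cancel, Real.rpow_one]
  calc ((‖c‖ ^ l : ℝ) : ℂ) * (c / (‖c‖ : ℂ)) * ((‖c‖ ^ (1 - l) : ℝ) : ℂ)
      = (((‖c‖ ^ l : ℝ) : ℂ) * ((‖c‖ ^ (1 - l) : ℝ) : ℂ)) * (c / (‖c‖ : ℂ)) := by ring
    _ = c := by rw [h1, mul_div_cancel₀ _ hn]

end EQV

theorem t_EQV : S_EQV.{u} := by
  intro H _ _ _ l c U hl hl1 hc T W
  exact ⟨EQV.alu_eq U c hc l hl hl1 T, EQV.abs_eq U c T, EQV.pol_eq U c hc T⟩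

end Pool.Agent.R945.AP
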