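import Pool.Agent.R945.AP.Stm

/-!
# Piece FIN: from finite rank to all operators
-/

set_option autoImplicit false

open scoped InnerProductSpace ComplexConjugate

namespace Pool.Agent.R945.AP

universe u

namespace FIN

variable {H : Type u} [NormedAddCommGroup H] [InnerProductSpace ℂ H] [CompleteSpace H]

theorem mul_ro (B : H →L[ℂ] H) (x y : H) : B * ro x y = ro (B x) y := by
  ext v
  simp [ro_apply, ContinuousLinearMap.mul_apply]

theorem ro_mul (x y : H) (B : H →L[ℂ] H) : ro x y * B = ro x (star B y) := by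
  ext v
  simp only [ContinuousLinearMap.mul_apply, ro_apply, ContinuousLinearMap.star_eq_adjoint,
    ContinuousLinearMap.adjoint_inner_left]

theorem star_ro (x y : H) : star (ro x y) = ro y x := by
  rw [ContinuousLinearMap.star_eq_adjoint]
  symm
  rw [ContinuousLinearMap.eq_adjoint_iff]
  intro u v
  rw [ro_apply, ro_apply, inner_smul_left, inner_smul_right, inner_conj_symm, mul_comm]

theorem star_inner_right (B : H →L[ℂ] H) (x y : H) : ⟪x, star B y⟫_ℂ = ⟪B x, y⟫_ℂ := by
  rw [ContinuousLinearMap.star_eq_adjoint, ContinuousLinearMap.adjoint_inner_right]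

theorem star_W (U : H ≃ₗᵢ[ℂ] H) (x : H) : star (U : H →L[ℂ] H) x = U.symm x := by
  rw [LinearIsometryEquiv.star_eq_symm]
  rfl

theorem W_apply (U : H ≃ₗᵢ[ℂ] H) (x : H) : (U : H →L[ℂ] H) x = U x := rfl

/-- the defect -/
noncomputable def Dd (Φ : (H →L[ℂ] H) ≃ₗ[ℂ] (H →L[ℂ] H)) (a : ℂ) (U : H ≃ₗᵢ[ℂ] H)
    (T : H →L[ℂ] H) : H →L[ℂ] H := Φ T - a • ((U : H →L[ℂ] H) * T * star (U : H →L[ℂ] H))

variable {Φ : (H →L[ℂ] H) ≃ₗ[ℂ] (H →L[ℂ] H)} {a : ℂ} {U : H ≃ₗᵢ[ℂ] H}

theorem Dd_add (S T : H →L[ℂ] H) : Dd Φ a U (S + T) = Dd Φ a U S + Dd Φ a U T := by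
  unfold Dd
  rw [map_add, mul_add, add_mul, smul_add]
  abel

theorem Dd_smul (c : ℂ) (T : H →L[ℂ] H) : Dd Φ a U (c • T) = c • Dd Φ a U T := by
  unfold Dd
  rw [map_smul, mul_smul_comm, smul_mul_assoc, smul_sub, smul_comm]

theorem Dd_sub (S T : H →L[ℂ] H) : Dd Φ a U (S - T) = Dd Φ a U S - Dd Φ a U T := by
  have h : S - T = S + (-1 : ℂ) • T := by rw [neg_one_smul, sub_eq_add_neg]
  rw [h, Dd_add, Dd_smul, neg_one_smul, sub_eq_add_neg]

theorem Dd_ro (hro : ∀ x y, Φ (ro x y) = a • ro (U x) (U y)) (x y : H) :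
    Dd Φ a U (ro x y) = 0 := by
  unfold Dd
  rw [hro, mul_ro, ro_mul, star_star]
  simp only [W_apply, sub_self]

theorem Dd_ro_mul (hro : ∀ x y, Φ (ro x y) = a • ro (U x) (U y)) (x y : H) (B : H →L[ℂ] H) :
    Dd Φ a U (ro x y * B) = 0 := by
  rw [ro_mul, Dd_ro hro]

theorem Dd_mul_ro (hro : ∀ x y, Φ (ro x y) = a • ro (U x) (U y)) (x y : H) (B : H →L[ℂ] H) :
    Dd Φ a U (B * ro x y) = 0 := by
  rw [mul_ro, Dd_ro hro]

theorem Phi_eq (T : H →L[ℂ] H) : Φ T =
    Dd Φ a U T + a • ((U : H →L[ℂ] H) * T * star (U : H →L[ℂ] H)) := by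
  unfold Dd
  abel

/-- cutting off rank one projections does not change the defect -/
theorem Dd_cut (hro : ∀ x y, Φ (ro x y) = a • ro (U x) (U y)) (v : H) (A : H →L[ℂ] H) :
    Dd Φ a U ((1 - ro v v) * A * (1 - ro v v)) = Dd Φ a U A := by
  have h : (1 - ro v v) * A * (1 - ro v v) =
      A - ro v v * A - A * ro v v + (ro v v * A) * ro v v := by
    noncomm_ring
  rw [h, Dd_add, Dd_sub, Dd_sub, Dd_ro_mul hro, Dd_mul_ro hro, Dd_mul_ro hro]
  simp

/-- an operator commuting with all `ro u u` is a scalar -/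
theorem scalar_of_comm (D : H →L[ℂ] H) (e : H) (he : ‖e‖ = 1)
    (h : ∀ u : H, Commute D (ro u u)) : ∃ c : ℂ, D = c • 1 := by
  have hro : ∀ x y : H, Commute D (ro x y) := by
    intro x y
    have h1 : Commute D (ro x y + ro y x) := by
      have e1 : ro x y + ro y x = ro (x + y) (x + y) - ro x x - ro y y := by
        ext v
        simp only [ContinuousLinearMap.add_apply, ContinuousLinearMap.sub_apply, ro_apply,
          inner_add_left, smul_add, add_smul]
        abel
      rw [e1]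
      exact ((h _).sub_right (h _)).sub_right (h _)
    have h2 : Commute D (-Complex.I • ro x y + Complex.I • ro y x) := by
      have e1 : -Complex.I • ro x y + Complex.I • ro y x =
          ro (x + Complex.I • y) (x + Complex.I • y) - ro x x - ro y y := by
        ext v
        simp only [ContinuousLinearMap.add_apply, ContinuousLinearMap.sub_apply, ro_apply,
          inner_add_left, smul_add, add_smul, ContinuousLinearMap.smul_apply, inner_smul_left,
          Complex.conj_I, smul_smul]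
        have e2 : (⟪x, v⟫_ℂ + -Complex.I * ⟪y, v⟫_ℂ) * Complex.I =
            Complex.I * ⟪x, v⟫_ℂ + ⟪y, v⟫_ℂ := by
          have := Complex.I_mul_I
          linear_combination (-⟪y, v⟫_ℂ) * this
        rw [e2, add_smul]
        abel
      rw [e1]
      exact ((h _).sub_right (h _)).sub_right (h _)
    have h3 : ro x y = (2⁻¹ : ℂ) • ((ro x y + ro y x) +
        Complex.I • (-Complex.I • ro x y + Complex.I • ro y x)) := by
      rw [smul_add Complex.I, smul_smul, smul_smul, mul_neg, Complex.I_mul_I, neg_neg, one_smul,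
        neg_one_smul]
      have e3 : ro x y + ro y x + (ro x y + -ro y x) = (2 : ℂ) • ro x y := by
        rw [two_smul]
        abel
      rw [e3, smul_smul]
      norm_num
    rw [h3]
    exact ((h1.add_right (h2.smul_right _)).smul_right _)
  refine ⟨⟪e, D e⟫_ℂ, ?_⟩
  ext x
  have h1 := congrArg (fun Z : H →L[ℂ] H => Z e) (hro x e).eq
  simp only [ContinuousLinearMap.mul_apply, ro_apply, map_smul] at h1
  have h2 : ⟪e, e⟫_ℂ = 1 := by
    rw [inner_self_eq_norm_sq_to_K, he]
    norm_num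
  rw [h2, one_smul] at h1
  rw [h1]
  simp

/-- the defect of a self-adjoint operator is a scalar -/
theorem Dd_scalar (hcom : ∀ A B : H →L[ℂ] H, IsStarNormal A → Commute A B → Commute (Φ A) (Φ B))
    (ha : a ≠ 0) (hro : ∀ x y, Φ (ro x y) = a • ro (U x) (U y)) (e : H) (he : ‖e‖ = 1)
    (A : H →L[ℂ] H) : ∃ c : ℂ, Dd Φ a U A = c • 1 := by
  apply scalar_of_comm _ e he
  -- unit vectors suffice
  have hunit : ∀ u : H, ‖u‖ = 1 → Commute (Dd Φ a U A) (ro u u) := by
    intro u hu
    set v : H := U.symm u with hv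
    have hUv : U v = u := by rw [hv]; simp
    have hvn : ‖v‖ = 1 := by rw [hv, LinearIsometryEquiv.norm_map, hu]
    have hvv : ⟪v, v⟫_ℂ = 1 := by
      rw [inner_self_eq_norm_sq_to_K, hvn]
      norm_num
    have hPP : ro v v * ro v v = ro v v := by
      rw [mul_ro, ro_apply, hvv, one_smul]
    set S : H →L[ℂ] H := (1 - ro v v) * A * (1 - ro v v) with hS
    have h0 : ro v v * (1 - ro v v) = 0 := by rw [mul_sub, mul_one, hPP, sub_self]
    have h0' : (1 - ro v v) * ro v v = 0 := by rw [sub_mul, one_mul, hPP, sub_self]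
    have hPS : ro v v * S = 0 := by
      rw [hS, ← mul_assoc, ← mul_assoc, h0, zero_mul, zero_mul]
    have hSP : S * ro v v = 0 := by
      rw [hS, mul_assoc, h0', mul_zero]
    have hcomm : Commute (ro v v) S := by
      unfold Commute SemiconjBy
      rw [hPS, hSP]
    have hnorm : IsStarNormal (ro v v) := by
      constructor
      rw [star_ro]
    have h1 := hcom _ _ hnorm hcomm
    rw [hro, hUv] at h1
    have h2 : Commute (ro u u) (Φ S) := by
      have := h1.smul_left a⁻¹
      rwa [smul_smul, inv_mul_cancel₀ ha, one_smul] at this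
    have h3 : Commute (ro u u) (a • ((U : H →L[ℂ] H) * S * star (U : H →L[ℂ] H))) := by
      apply Commute.smul_right
      unfold Commute SemiconjBy
      have e1 : ro u u = (U : H →L[ℂ] H) * ro v v * star (U : H →L[ℂ] H) := by
        rw [mul_ro, ro_mul, star_star, W_apply, hUv]
      have e2 : star (U : H →L[ℂ] H) * (U : H →L[ℂ] H) = 1 := by
        ext x
        rw [ContinuousLinearMap.mul_apply, star_W, W_apply]
        simp
      have e3 : (U : H →L[ℂ] H) * ro v v * star (U : H →L[ℂ] H) *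
          ((U : H →L[ℂ] H) * S * star (U : H →L[ℂ] H)) =
          (U : H →L[ℂ] H) * (ro v v * S) * star (U : H →L[ℂ] H) := by
        calc (U : H →L[ℂ] H) * ro v v * star (U : H →L[ℂ] H) *
          ((U : H →L[ℂ] H) * S * star (U : H →L[ℂ] H)) =
          (U : H →L[ℂ] H) * ro v v * (star (U : H →L[ℂ] H) * (U : H →L[ℂ] H)) * S *
            star (U : H →L[ℂ] H) := by noncomm_ring
          _ = _ := by rw [e2]; noncomm_ring
      have e4 : (U : H →L[ℂ] H) * S * star (U : H →L[ℂ] H) *
          ((U : H →L[ℂ] H) * ro v v * star (U : H →L[ℂ] H)) =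
          (U : H →L[ℂ] H) * (S * ro v v) * star (U : H →L[ℂ] H) := by
        calc (U : H →L[ℂ] H) * S * star (U : H →L[ℂ] H) *
          ((U : H →L[ℂ] H) * ro v v * star (U : H →L[ℂ] H)) =
          (U : H →L[ℂ] H) * S * (star (U : H →L[ℂ] H) * (U : H →L[ℂ] H)) * ro v v *
            star (U : H →L[ℂ] H) := by noncomm_ring
          _ = _ := by rw [e2]; noncomm_ring
      rw [e1, e3, e4, hPS, hSP]
    have h4 : Dd Φ a U A = Dd Φ a U S := (Dd_cut hro v A).symm
    rw [h4]
    unfold Dd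
    exact (h2.sub_right h3).symm
  intro u
  by_cases hu : u = 0
  · subst hu
    have : ro (0 : H) 0 = 0 := by
      ext v
      simp [ro_apply]
    rw [this]
    exact Commute.zero_right _
  · have hn : ‖u‖ ≠ 0 := norm_ne_zero_iff.mpr hu
    obtain ⟨w, hw⟩ : ∃ w : H, w = ((‖u‖⁻¹ : ℝ) : ℂ) • u := ⟨_, rfl⟩
    have hwn : ‖w‖ = 1 := by
      rw [hw, norm_smul, Complex.norm_real, norm_inv, norm_norm, inv_mul_cancel₀ hn]
    have huw : u = ((‖u‖ : ℝ) : ℂ) • w := by
      rw [hw, smul_smul, ← Complex.ofReal_mul, mul_inv_cancel₀ hn, Complex.ofReal_one, one_smul]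
    have hsm : ∀ c : ℂ, ro (c • w) (c • w) = (c * conj c) • ro w w := by
      intro c
      ext v
      rw [ContinuousLinearMap.smul_apply, ro_apply, ro_apply, inner_smul_left, smul_smul,
        smul_smul]
      congr 1
      ring
    have hr : ro u u = (((‖u‖ : ℝ) : ℂ) * conj ((‖u‖ : ℝ) : ℂ)) • ro w w := by
      rw [← hsm, ← huw]
    rw [hr]
    exact (hunit w hwn).smul_right _

/-- a self-adjoint operator with nonzero scalar defect `r`, `a + r ≠ 0`, is impossible -/
theorem no_defect (L : (H →L[ℂ] H) → (H →L[ℂ] H)) (α : ℂ) (hL : Good L α)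
    (hΦ : ∀ T, Φ (L T) = L (Φ T)) (ha : a ≠ 0)
    (hro : ∀ x y, Φ (ro x y) = a • ro (U x) (U y)) (e1 e2 : H) (he1 : ‖e1‖ = 1) (he2 : ‖e2‖ = 1)
    (he : ⟪e1, e2⟫_ℂ = 0) (A : H →L[ℂ] H) (hA : IsSelfAdjoint A) (r : ℂ)
    (hr : Dd Φ a U A = r • 1) (hr0 : r ≠ 0) (har : a + r ≠ 0) : False := by
  have h11 : ⟪e1, e1⟫_ℂ = 1 := by
    rw [inner_self_eq_norm_sq_to_K, he1]
    norm_num
  have h22 : ⟪e2, e2⟫_ℂ = 1 := by
    rw [inner_self_eq_norm_sq_to_K, he2]
    norm_num
  have h21 : ⟪e2, e1⟫_ℂ = 0 := by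
    rw [← inner_conj_symm, he, map_zero]
  have hsa : ∀ v : H, IsSelfAdjoint (1 - ro v v) := by
    intro v
    rw [IsSelfAdjoint, star_sub, star_one, star_ro]
  obtain ⟨B, hB⟩ : ∃ B : H →L[ℂ] H, B = (1 - ro e1 e1) * A * (1 - ro e1 e1) := ⟨_, rfl⟩
  obtain ⟨C, hC⟩ : ∃ C : H →L[ℂ] H, C = (1 - ro e2 e2) * B * (1 - ro e2 e2) := ⟨_, rfl⟩
  have hBsa : IsSelfAdjoint B := by
    rw [IsSelfAdjoint, hB, star_mul, star_mul, (hsa e1).star_eq, hA.star_eq, mul_assoc]
  have hCsa : IsSelfAdjoint C := by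
    rw [IsSelfAdjoint, hC, star_mul, star_mul, (hsa e2).star_eq, hBsa.star_eq, mul_assoc]
  have hDC : Dd Φ a U C = r • 1 := by
    rw [hC, Dd_cut hro, hB, Dd_cut hro, hr]
  have hCe2 : C e2 = 0 := by
    rw [hC, ContinuousLinearMap.mul_apply, ContinuousLinearMap.sub_apply, ro_apply, h22]
    simp
  have hBe1 : B e1 = 0 := by
    rw [hB, ContinuousLinearMap.mul_apply, ContinuousLinearMap.sub_apply, ro_apply, h11]
    simp
  have hCe1 : C e1 = 0 := by
    rw [hC, ContinuousLinearMap.mul_apply, ContinuousLinearMap.sub_apply, ro_apply, h21,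
      zero_smul, ContinuousLinearMap.one_apply, sub_zero, ContinuousLinearMap.mul_apply, hBe1,
      map_zero]
  obtain ⟨T, hT⟩ : ∃ T : H →L[ℂ] H, T = ro (e2 + e1) e2 + C := ⟨_, rfl⟩
  have hx : C (e2 + e1) = 0 := by rw [map_add, hCe1, hCe2, add_zero]
  have hne2 : e2 ≠ 0 := by
    intro h
    rw [h, norm_zero] at he2
    exact zero_ne_one he2
  have hLT := hL.rank C (e2 + e1) e2 hCsa hx hCe2 hne2
  have h221 : ⟪e2, e2 + e1⟫_ℂ = 1 := by rw [inner_add_right, h22, h21, add_zero]
  rw [h221, he2] at hLT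
  have hLT' : L T = α • ro (e2 + e1) e2 + (1 - α) • ro e2 e2 + C := by
    rw [hT, hLT]
    norm_num
  have hDT : Dd Φ a U T = r • 1 := by
    rw [hT, Dd_add, Dd_ro hro, zero_add, hDC]
  have hDLT : Dd Φ a U (L T) = r • 1 := by
    rw [hLT', Dd_add, Dd_add, Dd_smul, Dd_smul, Dd_ro hro, Dd_ro hro, smul_zero, smul_zero,
      zero_add, zero_add, hDC]
  have hΦT : ∀ x : H, Φ T (U x) = r • U x + a • U (T x) := by
    intro x
    rw [Phi_eq (a := a) (U := U) T, hDT]
    simp only [ContinuousLinearMap.add_apply, ContinuousLinearMap.smul_apply,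
      ContinuousLinearMap.one_apply, ContinuousLinearMap.mul_apply, star_W, W_apply,
      LinearIsometryEquiv.symm_apply_apply]
  have hLΦT : ∀ x : H, L (Φ T) (U x) = r • U x + a • U (L T x) := by
    intro x
    rw [← hΦ, Phi_eq (a := a) (U := U) (L T), hDLT]
    simp only [ContinuousLinearMap.add_apply, ContinuousLinearMap.smul_apply,
      ContinuousLinearMap.one_apply, ContinuousLinearMap.mul_apply, star_W, W_apply,
      LinearIsometryEquiv.symm_apply_apply]
  have hsT : star T = ro e2 (e2 + e1) + C := by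
    rw [hT, star_add, star_ro, hCsa.star_eq]
  have hsΦ : ∀ x : H, star (Φ T) (U x) = (conj r) • U x + (conj a) • U (star T x) := by
    intro x
    rw [Phi_eq (a := a) (U := U) T, hDT, star_add, star_smul, star_smul, star_one, star_mul,
      star_mul, star_star]
    simp only [ContinuousLinearMap.add_apply, ContinuousLinearMap.smul_apply,
      ContinuousLinearMap.one_apply, ContinuousLinearMap.mul_apply, star_W, W_apply,
      LinearIsometryEquiv.symm_apply_apply]
    rfl
  have hTe1 : T e1 = 0 := by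
    rw [hT, ContinuousLinearMap.add_apply, ro_apply, h21, zero_smul, hCe1, add_zero]
  have hTe2 : T e2 = e2 + e1 := by
    rw [hT, ContinuousLinearMap.add_apply, ro_apply, h22, one_smul, hCe2, add_zero]
  have hLTe1 : L T e1 = 0 := by
    rw [hLT', ContinuousLinearMap.add_apply, ContinuousLinearMap.add_apply,
      ContinuousLinearMap.smul_apply, ContinuousLinearMap.smul_apply, ro_apply, ro_apply, h21,
      hCe1]
    simp
  have hLTe2 : L T e2 = e2 + α • e1 := by
    rw [hLT', ContinuousLinearMap.add_apply, ContinuousLinearMap.add_apply,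
      ContinuousLinearMap.smul_apply, ContinuousLinearMap.smul_apply, ro_apply, ro_apply, h22,
      hCe2, one_smul, one_smul, sub_smul, one_smul, smul_add, add_zero]
    abel
  have hi1 : ⟪e2 + e1, e1⟫_ℂ = 1 := by rw [inner_add_left, h21, h11, zero_add]
  have hi2 : ⟪e2 + e1, e2⟫_ℂ = 1 := by rw [inner_add_left, h22, he, add_zero]
  have hsTe1 : star T e1 = e2 := by
    rw [hsT, ContinuousLinearMap.add_apply, ro_apply, hi1, one_smul, hCe1, add_zero]
  have hsTe2 : star T e2 = e2 := by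
    rw [hsT, ContinuousLinearMap.add_apply, ro_apply, hi2, one_smul, hCe2, add_zero]
  apply ha
  apply hL.tri (U e1) (U e2) (Φ T) r (a + r) a
  · rw [LinearIsometryEquiv.norm_map, he1]
  · rw [LinearIsometryEquiv.norm_map, he2]
  · rw [LinearIsometryEquiv.inner_map_map, he]
  · intro h
    apply ha
    have : a + r = r := h.symm
    simpa using this
  · exact hr0
  · exact har
  · rw [hΦT, hTe1, map_zero, smul_zero, add_zero]
  · rw [hΦT, hTe2, map_add, smul_add, add_smul]
    abel
  · rw [hsΦ, hsTe1]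
  · rw [hsΦ, hsTe2, map_add, add_smul, add_comm]
  · rw [hLΦT, hLTe1, map_zero, smul_zero, add_zero]
  · rw [hLΦT, hLTe2, map_add, map_smul, smul_add, smul_smul, add_smul, mul_comm a α]
    abel

end FIN

theorem t_FIN : S_FIN.{u} := by
  intro H _ _ _ L α hL Φ a U hΦ hcom ha hdim hro
  obtain ⟨e1, e2, he1, he2, he⟩ := hdim
  have hsa : ∀ A : H →L[ℂ] H, IsSelfAdjoint A → FIN.Dd Φ a U A = 0 := by
    intro A hA
    obtain ⟨r, hr⟩ := FIN.Dd_scalar hcom ha hro e1 he1 A
    by_cases hr0 : r = 0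
    · rw [hr, hr0, zero_smul]
    exfalso
    by_cases har : a + r = 0
    · have h2 : FIN.Dd Φ a U ((2 : ℂ) • A) = (2 * r) • 1 := by
        rw [FIN.Dd_smul, hr, smul_smul]
      have hA2 : IsSelfAdjoint ((2 : ℂ) • A) := by
        rw [IsSelfAdjoint, star_smul, hA.star_eq]
        congr 1
        simp
      refine FIN.no_defect L α hL hΦ ha hro e1 e2 he1 he2 he _ hA2 (2 * r) h2
        (mul_ne_zero two_ne_zero hr0) ?_
      intro h
      apply hr0
      have : a + 2 * r = (a + r) + r := by ring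
      rw [this, har, zero_add] at h
      exact h
    · exact FIN.no_defect L α hL hΦ ha hro e1 e2 he1 he2 he A hA r hr hr0 har
  intro T
  have hT : FIN.Dd Φ a U T = 0 := by
    have h1 := realPart_add_I_smul_imaginaryPart T
    rw [← h1, FIN.Dd_add, FIN.Dd_smul, hsa _ (realPart T).2, hsa _ (imaginaryPart T).2,
      smul_zero, add_zero]
  unfold FIN.Dd at hT
  exact sub_eq_zero.mp hT

end Pool.Agent.R945.AP
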