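import Pool.Agent.R945.AP.Stm
import Pool.Agent.Results.MP_3feef6_an.FixedPoints

set_option autoImplicit false

namespace Pool.Agent.R945.AP

universe u

namespace FIXAaux

variable {H : Type u} [NormedAddCommGroup H] [InnerProductSpace ℂ H] [CompleteSpace H]

theorem pw_half (P : H →L[ℂ] H) (hP : 0 ≤ P) : pw P (1 / 2) = CFC.sqrt P := by
  unfold pw
  rw [CFC.sqrt_eq_real_sqrt P hP, cfcₙ_eq_cfc]
  refine cfc_congr fun t _ => ?_
  exact (Real.sqrt_eq_rpow t).symm

theorem alu_half (T : H →L[ℂ] H) :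
    alu (1 / 2) T = Pool.Agent.Results.MP_3feef6_an.FixedPoints.aluthge T := by
  unfold alu
  have e : (1 : ℝ) - 1 / 2 = 1 / 2 := by norm_num
  rw [e, pw_half _ (CFC.abs_nonneg T)]
  rfl

end FIXAaux

theorem t_FIXA : S_FIXA.{u} := by
  intro H _ _ _ T
  have h := Pool.Agent.Results.MP_3feef6_an.FixedPoints.result T
  have e : mA T = Pool.Agent.Results.MP_3feef6_an.FixedPoints.meanAluthge T := by
    unfold mA
    rw [FIXAaux.alu_half]
    rfl
  rw [e]
  exact h

end Pool.Agent.R945.AP
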