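import Pool.Agent.R945.AP.Stm
import Pool.Agent.Results.MP_a9e7a9_an.AluthgeFixed

set_option autoImplicit false

open scoped InnerProductSpace ComplexConjugate

namespace Pool.Agent.R945.AP

universe u

theorem t_FIXM : S_FIXM.{u} := by
  intro H _ _ _ l h0 h1 T
  have hp : Pool.Agent.R884.AL.IsPolarPart T (pol T) :=
    (Pool.Agent.R884.AL.existsUnique_polarPart T).choose_spec.1
  have hpol : Pool.Agent.Results.MP_a9e7a9_an.AluthgeFixed.IsPolar T (pol T) :=
    ⟨hp.partialIsometry, hp.mul_abs.symm, hp.ker_eq⟩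
  have key := Pool.Agent.Results.MP_a9e7a9_an.AluthgeFixed.result l h0 h1 T (pol T) hpol
  have e : Pool.Agent.Results.MP_a9e7a9_an.AluthgeFixed.meanAluthge l T (pol T) = ML l T := by
    unfold Pool.Agent.Results.MP_a9e7a9_an.AluthgeFixed.meanAluthge ML
    rw [one_div]
    rfl
  rw [e] at key
  exact key

end Pool.Agent.R945.AP
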