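import Pool.Agent.R945.AP.Stm

/-!
# The image of the identity is a scalar
-/

set_option autoImplicit false

open scoped InnerProductSpace ComplexConjugate

namespace Pool.Agent.R945.AP

universe u

namespace ONE

theorem extract {E : Type*} [AddCommGroup E] [Module ℂ E] (P0 P1 P2 Q0 Q1 Q2 : E)
    (h : ∀ t : ℂ, P0 + t • P1 + (t * t) • P2 + conj t • Q0 + (t * conj t) • Q1 +
      (t * t * conj t) • Q2 = 0) : Q0 = 0 := by
  have h1 := h 1
  have hm := h (-1)
  have hI := h Complex.I
  have hJ := h (-Complex.I)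
  simp only [map_one, map_neg, Complex.conj_I, Complex.I_mul_I, mul_neg, neg_mul, neg_neg,
    one_mul, mul_one] at h1 hm hI hJ
  have a1 : (2 : ℂ) • (P1 + Q0 + Q2) = 0 := by
    linear_combination (norm := module) h1 - hm
  have a2 : (2 * Complex.I) • (P1 - Q0 + Q2) = 0 := by
    linear_combination (norm := module) hI - hJ
  have b1 : P1 + Q0 + Q2 = 0 := by
    rcases smul_eq_zero.1 a1 with h | h
    · norm_num at h
    · exact h
  have b2 : P1 - Q0 + Q2 = 0 := by
    rcases smul_eq_zero.1 a2 with h | h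
    · simp at h
    · exact h
  have b3 : (2 : ℂ) • Q0 = 0 := by
    linear_combination (norm := module) b1 - b2
  rcases smul_eq_zero.1 b3 with h | h
  · norm_num at h
  · exact h

variable {H : Type u} [NormedAddCommGroup H] [InnerProductSpace ℂ H] [CompleteSpace H]

theorem qn_expand (A C : H →L[ℂ] H) (h : ∀ t : ℂ, QN (A + t • C)) :
    A * (star C * A) - star C * A * A = 0 := by
  refine extract (A * (star A * A) - star A * A * A)
    (C * (star A * A) + A * (star A * C) - (star A * C * A + star A * A * C))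
    (C * (star A * C) - star A * C * C) _
    (C * (star C * A) + A * (star C * C) - (star C * C * A + star C * A * C))
    (C * (star C * C) - star C * C * C) ?_
  intro t
  have ht := h t
  unfold QN at ht
  have hs : star (A + t • C) = star A + conj t • star C := by
    rw [star_add, star_smul]; rfl
  rw [hs] at ht
  simp only [mul_add, add_mul, smul_mul_assoc, mul_smul_comm, smul_smul, smul_add] at ht
  linear_combination (norm := module) ht

theorem qn_normal (N : H →L[ℂ] H) (hN : IsSelfAdjoint N) (t : ℂ) : QN (1 + t • N) := by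
  unfold QN
  have hs : star (1 + t • N) = 1 + conj t • N := by
    rw [star_add, star_smul, star_one, hN.star_eq]; rfl
  rw [hs]
  have hc : Commute (1 + t • N) (1 + conj t • N) := by
    apply Commute.add_left
    · exact Commute.one_left _
    · apply Commute.add_right
      · exact Commute.one_right _
      · exact ((Commute.refl N).smul_right _).smul_left _
  rw [← mul_assoc, hc.eq]

theorem main_id [Nontrivial H] (Φ : (H →L[ℂ] H) ≃ₗ[ℂ] (H →L[ℂ] H)) (hΦ : Pres Φ)
    (X : H →L[ℂ] H) : Φ 1 * X * Φ 1 = X * Φ 1 * Φ 1 := by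
  have key : ∀ N : H →L[ℂ] H, IsSelfAdjoint N →
      Φ 1 * (star (Φ N) * Φ 1) - star (Φ N) * Φ 1 * Φ 1 = 0 := by
    intro N hN
    apply qn_expand
    intro t
    have h1 := (hΦ.qn (1 + t • N)).1 (qn_normal N hN t)
    rwa [map_add, map_smul] at h1
  obtain ⟨Y, hY⟩ := Φ.surjective (star X)
  have hX : X = star (Φ Y) := by rw [hY, star_star]
  have hdec : Y = (realPart Y : H →L[ℂ] H) + Complex.I • (imaginaryPart Y : H →L[ℂ] H) :=
    (realPart_add_I_smul_imaginaryPart Y).symm
  have k1 := key (realPart Y : H →L[ℂ] H) (realPart Y).2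
  have k2 := key (imaginaryPart Y : H →L[ℂ] H) (imaginaryPart Y).2
  have hXX : X = star (Φ (realPart Y : H →L[ℂ] H)) +
      (-Complex.I) • star (Φ (imaginaryPart Y : H →L[ℂ] H)) := by
    rw [hX]
    conv_lhs => rw [hdec]
    rw [map_add, map_smul, star_add, star_smul]
    congr 2
    exact Complex.conj_I
  rw [hXX]
  simp only [mul_add, add_mul, smul_mul_assoc, mul_smul_comm]
  rw [← mul_assoc] at k1 k2
  linear_combination (norm := module) k1 + (-Complex.I) • k2

end ONE

theorem t_ONE : S_ONE.{u} := by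
  intro H _ _ _ _ Φ hΦ
  set A : H →L[ℂ] H := Φ 1 with hA
  have hne : A ≠ 0 := by
    intro h
    have : (1 : H →L[ℂ] H) = 0 := by
      apply Φ.injective
      rw [map_zero]
      exact h
    exact one_ne_zero this
  obtain ⟨v, hv⟩ : ∃ v, A v ≠ 0 := by
    by_contra hcon
    push Not at hcon
    exact hne (by ext x; simp [hcon x])
  have hid := ONE.main_id Φ hΦ
  have hw : ∀ u : H, (⟪A v, A v⟫_ℂ) • A u = ⟪A v, A (A v)⟫_ℂ • u := by
    intro u
    have h1 := congrArg (fun T : H →L[ℂ] H => T v) (hid (ro u (A v)))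
    simp only [ContinuousLinearMap.mul_apply, ro_apply, ← hA, map_smul] at h1
    exact h1
  have hin : ⟪A v, A v⟫_ℂ ≠ 0 := inner_self_ne_zero.2 hv
  have hAc : A = (⟪A v, A (A v)⟫_ℂ / ⟪A v, A v⟫_ℂ) • (1 : H →L[ℂ] H) := by
    ext u
    have h2 := hw u
    simp only [ContinuousLinearMap.smul_apply, ContinuousLinearMap.one_apply]
    rw [div_eq_inv_mul, mul_smul, ← h2, smul_smul, inv_mul_cancel₀ hin, one_smul]
  refine ⟨_, ?_, hAc⟩
  intro h0
  rw [h0, zero_smul] at hAc
  exact hne hAc

end Pool.Agent.R945.AP
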