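import Pool.Agent.R945.AP.Stm

/-! # PR2: uniform constants in dimension two (piece of MP_11cc5c_an) -/

set_option autoImplicit false

open scoped InnerProductSpace ComplexConjugate

namespace Pool.Agent.R945.AP

universe u

namespace PR2

variable {H : Type u} [NormedAddCommGroup H] [InnerProductSpace ℂ H] [CompleteSpace H]

lemma ro_mul (x y z w : H) : ro x y * ro z w = ⟪y, z⟫_ℂ • ro x w := by
  ext v
  simp only [ContinuousLinearMap.mul_apply, ro_apply, inner_smul_right,
    ContinuousLinearMap.smul_apply, smul_smul]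
  rw [mul_comm]

lemma ro_add_left (x x' y : H) : ro (x + x') y = ro x y + ro x' y := by
  ext v; simp [smul_add]

lemma ro_add_right (x y y' : H) : ro x (y + y') = ro x y + ro x y' := by
  ext v; simp [inner_add_left, add_smul]

lemma ro_smul_left (a : ℂ) (x y : H) : ro (a • x) y = a • ro x y := by
  ext v; simp only [ro_apply, ContinuousLinearMap.smul_apply]; rw [smul_comm]

lemma ro_smul_right (a : ℂ) (x y : H) : ro x (a • y) = conj a • ro x y := by
  ext v; simp only [ro_apply, ContinuousLinearMap.smul_apply, inner_smul_left, mul_smul]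

lemma inner_one {x : H} (hx : ‖x‖ = 1) : ⟪x, x⟫_ℂ = 1 := by
  rw [inner_self_eq_norm_sq_to_K, hx]; simp

lemma inner_zero {x y : H} (hxy : ⟪x, y⟫_ℂ = 0) : ⟪y, x⟫_ℂ = 0 := by
  rw [← inner_conj_symm, hxy, map_zero]

lemma compl (h3 : ¬ Dim3 H) {x y : H} (hx : ‖x‖ = 1) (hy : ‖y‖ = 1) (hxy : ⟪x, y⟫_ℂ = 0)
    (v : H) : ⟪x, v⟫_ℂ • x + ⟪y, v⟫_ℂ • y = v := by
  by_contra hne
  apply h3
  obtain ⟨w, hw⟩ : ∃ w : H, w = v - (⟪x, v⟫_ℂ • x + ⟪y, v⟫_ℂ • y) := ⟨_, rfl⟩
  have hw0 : w ≠ 0 := fun h => hne (sub_eq_zero.mp (hw ▸ h)).symm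
  have hxw : ⟪x, w⟫_ℂ = 0 := by
    rw [hw]
    simp only [inner_sub_right, inner_add_right, inner_smul_right, inner_one hx, hxy]
    ring
  have hyw : ⟪y, w⟫_ℂ = 0 := by
    rw [hw]
    simp only [inner_sub_right, inner_add_right, inner_smul_right, inner_one hy, inner_zero hxy]
    ring
  refine ⟨x, y, ((‖w‖ : ℂ))⁻¹ • w, hx, hy, ?_, hxy, ?_, ?_⟩
  · rw [norm_smul, norm_inv, Complex.norm_real, norm_norm]
    exact inv_mul_cancel₀ (norm_ne_zero_iff.mpr hw0)
  · rw [inner_smul_right, hxw, mul_zero]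
  · rw [inner_smul_right, hyw, mul_zero]

lemma compl_one (h3 : ¬ Dim3 H) {x y : H} (hx : ‖x‖ = 1) (hy : ‖y‖ = 1)
    (hxy : ⟪x, y⟫_ℂ = 0) : (1 : H →L[ℂ] H) = ro x x + ro y y := by
  ext v
  simp only [ContinuousLinearMap.one_apply, ContinuousLinearMap.add_apply, ro_apply]
  exact (compl h3 hx hy hxy v).symm

lemma perp_aux {x w : H} (hx : ‖x‖ = 1) (hw : w - ⟪x, w⟫_ℂ • x ≠ 0) :
    ∃ y : H, ‖y‖ = 1 ∧ ⟪x, y⟫_ℂ = 0 := by
  refine ⟨((‖w - ⟪x, w⟫_ℂ • x‖ : ℂ))⁻¹ • (w - ⟪x, w⟫_ℂ • x), ?_, ?_⟩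
  · rw [norm_smul, norm_inv, Complex.norm_real, norm_norm]
    exact inv_mul_cancel₀ (norm_ne_zero_iff.mpr hw)
  · rw [inner_smul_right, inner_sub_right, inner_smul_right, inner_one hx]
    ring

lemma exists_perp (h2 : Dim2 H) {x : H} (hx : ‖x‖ = 1) : ∃ y : H, ‖y‖ = 1 ∧ ⟪x, y⟫_ℂ = 0 := by
  obtain ⟨e1, e2, h1, h2, h12⟩ := h2
  by_cases k1 : e1 - ⟪x, e1⟫_ℂ • x = 0
  · by_cases k2 : e2 - ⟪x, e2⟫_ℂ • x = 0
    · exfalso
      rw [sub_eq_zero] at k1 k2
      have h : ⟪e1, e2⟫_ℂ = conj ⟪x, e1⟫_ℂ * ⟪x, e2⟫_ℂ := by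
        conv_lhs => rw [k1, k2]
        rw [inner_smul_left, inner_smul_right, inner_one hx]; ring
      rw [h12] at h
      rcases mul_eq_zero.mp h.symm with h | h
      · have h' : ⟪x, e1⟫_ℂ = 0 := (map_eq_zero (starRingEnd ℂ)).mp h
        rw [h', zero_smul] at k1
        rw [k1] at h1; simp at h1
      · rw [h, zero_smul] at k2
        rw [k2] at h2; simp at h2
    · exact perp_aux hx k2
  · exact perp_aux hx k1

lemma expand (h3 : ¬ Dim3 H) {x y : H} (hx : ‖x‖ = 1) (hy : ‖y‖ = 1)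
    (hxy : ⟪x, y⟫_ℂ = 0) (T : H →L[ℂ] H) : T = ⟪x, T x⟫_ℂ • ro x x + ⟪x, T y⟫_ℂ • ro x y +
      ⟪y, T x⟫_ℂ • ro y x + ⟪y, T y⟫_ℂ • ro y y := by
  ext v
  simp only [ContinuousLinearMap.add_apply, ContinuousLinearMap.smul_apply, ro_apply]
  have h1 := congrArg T (compl h3 hx hy hxy v)
  rw [map_add, map_smul, map_smul, ← compl h3 hx hy hxy (T x), ← compl h3 hx hy hxy (T y)] at h1
  simp only [compl h3 hx hy hxy] at h1
  rw [← h1]
  conv_lhs => rw [← compl h3 hx hy hxy (T x), ← compl h3 hx hy hxy (T y)]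
  module

end PR2

open PR2

theorem t_PR2 (h1 : S_ONE.{u}) (h6 : S_RANK.{u}) : S_PR2.{u} := by
  intro H _ _ _ _ Φ hΦ h2 h3
  obtain ⟨c, hc, hΦ1⟩ := h1 H Φ hΦ
  have h2' := h2
  obtain ⟨e1, e2, he1, he2, h12⟩ := h2'
  obtain ⟨A, hA⟩ : ∃ A, A = Φ (ro e1 e2) := ⟨_, rfl⟩
  obtain ⟨B, hB⟩ : ∃ B, B = Φ (ro e1 e1 - ro e2 e2) := ⟨_, rfl⟩
  obtain ⟨C, hC⟩ : ∃ C, C = Φ (ro e2 e1) := ⟨_, rfl⟩
  have i11 := inner_one he1
  have i22 := inner_one he2
  have i21 := inner_zero h12
  have hsq : ∀ u v : ℂ, ((u * u) • A + (u * v) • B - (v * v) • C) *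
      ((u * u) • A + (u * v) • B - (v * v) • C) = 0 := by
    intro u v
    have hT : ((u * u) • ro e1 e2 + (u * v) • (ro e1 e1 - ro e2 e2) - (v * v) • ro e2 e1) *
        ((u * u) • ro e1 e2 + (u * v) • (ro e1 e1 - ro e2 e2) - (v * v) • ro e2 e1) = 0 := by
      simp only [smul_sub, add_mul, mul_add, sub_mul, mul_sub, smul_mul_assoc, mul_smul_comm,
        ro_mul, i11, i22, h12, i21, zero_smul, one_smul, smul_zero, smul_smul]
      module
    have h := (hΦ.sq _).mp hT
    rwa [map_sub, map_add, map_smul, map_smul, map_smul, ← hA, ← hB, ← hC] at h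
  have hAA : A * A = 0 := by
    have h := hsq 1 0
    simpa using h
  have hCC : C * C = 0 := by
    have h := hsq 0 1
    simpa using h
  have E1 := hsq 1 1
  have E2 := hsq 1 (-1)
  have E3 := hsq 2 1
  simp only [add_mul, mul_add, sub_mul, mul_sub, smul_mul_assoc, mul_smul_comm, smul_smul]
    at E1 E2 E3
  have hX : A * B + B * A = 0 := by
    linear_combination (norm := module) (1 / 6 : ℂ) • E3 - (1 / 2 : ℂ) • E1 - (1 / 6 : ℂ) • E2
      - (2 : ℂ) • hAA + (1 / 2 : ℂ) • hCC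
  have hZ : B * B - A * C - C * A = 0 := by
    linear_combination (norm := module) (1 / 2 : ℂ) • E1 + (1 / 2 : ℂ) • E2 - hAA - hCC
  have hY : B * C + C * B = 0 := by
    linear_combination (norm := module) hX + hZ + hAA + hCC - E1
  have hBA : B * A = -(A * B) := eq_neg_of_add_eq_zero_right hX
  have hCB : C * B = -(B * C) := eq_neg_of_add_eq_zero_right hY
  have cA : Commute (B * B) A := by
    show B * B * A = A * (B * B)
    rw [mul_assoc, hBA, mul_neg, ← mul_assoc, hBA, neg_mul, neg_neg, mul_assoc]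
  have cC : Commute (B * B) C := by
    show B * B * C = C * (B * B)
    rw [← mul_assoc C, hCB, neg_mul, mul_assoc B C B, hCB, mul_neg, neg_neg, mul_assoc]
  have cB : Commute (B * B) B := (Commute.refl B).mul_left (Commute.refl B)
  have hone : (1 : H →L[ℂ] H) = ro e1 e1 + ro e2 e2 := compl_one h3 he1 he2 h12
  have hsum : Φ (ro e1 e1) + Φ (ro e2 e2) = c • 1 := by rw [← map_add, ← hone, hΦ1]
  have hdif : Φ (ro e1 e1) - Φ (ro e2 e2) = B := by rw [hB, map_sub]
  have hP1 : Φ (ro e1 e1) = (1 / 2 : ℂ) • (c • 1 + B) := by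
    rw [← hsum, ← hdif]; module
  have hP2 : Φ (ro e2 e2) = (1 / 2 : ℂ) • (c • 1 - B) := by
    rw [← hsum, ← hdif]; module
  have c1 : Commute (B * B) (Φ (ro e1 e1)) := by
    rw [hP1]
    exact (((Commute.one_right _).smul_right c).add_right cB).smul_right _
  have c2 : Commute (B * B) (Φ (ro e2 e2)) := by
    rw [hP2]
    exact (((Commute.one_right _).smul_right c).sub_right cB).smul_right _
  have hcent : ∀ X : H →L[ℂ] H, Commute (B * B) X := by
    intro X
    obtain ⟨T, rfl⟩ := Φ.surjective X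
    rw [expand h3 he1 he2 h12 T, map_add, map_add, map_add, map_smul, map_smul, map_smul,
      map_smul, ← hA, ← hC]
    exact (((c1.smul_right _).add_right (cA.smul_right _)).add_right
      (cC.smul_right _)).add_right (c2.smul_right _)
  have hM : ∀ x : H, ‖x‖ = 1 → Φ ((2 : ℂ) • ro x x - 1) * Φ ((2 : ℂ) • ro x x - 1) = B * B := by
    intro x hx
    obtain ⟨α, hα⟩ : ∃ α, α = ⟪e1, x⟫_ℂ := ⟨_, rfl⟩
    obtain ⟨β, hβ⟩ : ∃ β, β = ⟪e2, x⟫_ℂ := ⟨_, rfl⟩
    have hx' := compl h3 he1 he2 h12 x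
    rw [← hα, ← hβ] at hx'
    have hn : α * conj α + β * conj β = 1 := by
      have h := inner_one hx
      rw [← hx'] at h
      simp only [inner_add_left, inner_add_right, inner_smul_left, inner_smul_right, i11, i22,
        h12, i21] at h
      rw [← h]; ring
    have hro : ro x x = (α * conj α) • ro e1 e1 + (α * conj β) • ro e1 e2 +
        (β * conj α) • ro e2 e1 + (β * conj β) • ro e2 e2 := by
      rw [← hx']
      simp only [ro_add_left, ro_add_right, ro_smul_left, ro_smul_right]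
      module
    have hone' : (1 : H →L[ℂ] H) = (α * conj α + β * conj β) • (ro e1 e1 + ro e2 e2) := by
      rw [hn, one_smul]; exact hone
    have hMx : (2 : ℂ) • ro x x - 1 = (α * conj α - β * conj β) • (ro e1 e1 - ro e2 e2) +
        (2 * (α * conj β)) • ro e1 e2 + (2 * (β * conj α)) • ro e2 e1 := by
      rw [hro, hone']; module
    rw [hMx, map_add, map_add, map_smul, map_smul, map_smul, ← hA, ← hB, ← hC]
    obtain ⟨s, hs⟩ : ∃ s, s = α * conj α - β * conj β := ⟨_, rfl⟩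
    obtain ⟨n, hn1⟩ : ∃ n, n = 2 * (α * conj β) := ⟨_, rfl⟩
    obtain ⟨n', hn2⟩ : ∃ n', n' = 2 * (β * conj α) := ⟨_, rfl⟩
    rw [← hs, ← hn1, ← hn2]
    have hsn : s * s + n * n' = 1 := by
      rw [hs, hn1, hn2]
      linear_combination (α * conj α + β * conj β + 1) * hn
    have h : (s • B + n • A + n' • C) * (s • B + n • A + n' • C) = (s * s + n * n') • (B * B) := by
      simp only [add_mul, mul_add, smul_mul_assoc, mul_smul_comm, smul_smul]
      linear_combination (norm := module) (s * n) • hX + (s * n') • hY + (n * n) • hAA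
        + (n' * n') • hCC - (n * n') • hZ
    rw [h, hsn, one_smul]
  have hper : ∀ x : H, ‖x‖ = 1 → ∃ (a : ℂ) (g : H), a ≠ 0 ∧ ‖g‖ = 1 ∧
      Φ (ro x x) = a • ro g g + ((c - a) / 2) • 1 ∧ B * B = (a * a) • 1 := by
    intro x hx
    have hne : ro x x ≠ 1 := by
      intro h
      obtain ⟨y, hy, hxy⟩ := exists_perp h2 hx
      have h' := congrArg (fun T : H →L[ℂ] H => T y) h
      simp only [ro_apply, hxy, zero_smul, ContinuousLinearMap.one_apply] at h'
      rw [← h'] at hy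
      simp at hy
    obtain ⟨a, b, g, ha, hg, hΦx⟩ := h6 H Φ hΦ x hx hne
    obtain ⟨g', hg', hgg'⟩ := exists_perp h2 hg
    have igg := inner_one hg
    have ig'g' := inner_one hg'
    have ig'g := inner_zero hgg'
    have hMx := hM x hx
    rw [map_sub, map_smul, hΦx, hΦ1] at hMx
    have hEE : ro g g * ro g g = ro g g := by rw [ro_mul, igg, one_smul]
    have hsq' : B * B = (4 * a * (a + (2 * b - c))) • ro g g +
        ((2 * b - c) * (2 * b - c)) • (1 : H →L[ℂ] H) := by
      rw [← hMx]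
      simp only [smul_add, add_mul, mul_add, sub_mul, mul_sub, smul_mul_assoc, mul_smul_comm,
        smul_smul, hEE, one_mul, mul_one]
      module
    have hcm := hcent (ro g g')
    have hcm' : B * B * ro g g' = ro g g' * (B * B) := hcm
    rw [hsq'] at hcm'
    simp only [add_mul, mul_add, smul_mul_assoc, mul_smul_comm, one_mul, mul_one, ro_mul, igg,
      ig'g, zero_smul, one_smul, smul_zero, zero_add] at hcm'
    have hz : (4 * a * (a + (2 * b - c))) • ro g g' = 0 := by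
      have := sub_eq_zero.mpr hcm'
      rw [add_sub_cancel_right] at this
      rw [mul_add]
      exact this
    have hz' := congrArg (fun T : H →L[ℂ] H => T g') hz
    simp only [ContinuousLinearMap.smul_apply, ro_apply, ig'g', one_smul,
      ContinuousLinearMap.zero_apply] at hz'
    have hg0 : g ≠ 0 := by
      intro h; rw [h] at hg; simp at hg
    have hd : 4 * a * (a + (2 * b - c)) = 0 := (smul_eq_zero.mp hz').resolve_right hg0
    have hd' : a + (2 * b - c) = 0 := (mul_eq_zero.mp hd).resolve_left (mul_ne_zero (by norm_num) ha)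
    have hb : b = (c - a) / 2 := by linear_combination hd' / 2
    refine ⟨a, g, ha, hg, by rw [hΦx, hb], ?_⟩
    rw [hsq', hd, zero_smul, zero_add]
    congr 1
    linear_combination ((2 * b - c) - a) * hd'
  obtain ⟨a, g0, ha, hg0, -, hBa⟩ := hper e1 he1
  have hper' : ∀ x : H, ‖x‖ = 1 → ∃ g : H, ‖g‖ = 1 ∧
      Φ (ro x x) = a • ro g g + ((c - a) / 2) • 1 := by
    intro x hx
    obtain ⟨a', g, ha', hg, hΦx, hBa'⟩ := hper x hx
    have haa : a' * a' = a * a := by
      have h : (a' * a' - a * a) • (1 : H →L[ℂ] H) = 0 := by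
        rw [sub_smul, ← hBa, ← hBa', sub_self]
      exact sub_eq_zero.mp ((smul_eq_zero.mp h).resolve_right one_ne_zero)
    rcases mul_self_eq_mul_self_iff.mp haa with h | h
    · exact ⟨g, hg, by rw [hΦx, h]⟩
    · obtain ⟨g', hg', hgg'⟩ := exists_perp h2 hg
      refine ⟨g', hg', ?_⟩
      have hg1 : (1 : H →L[ℂ] H) = ro g g + ro g' g' := compl_one h3 hg hg' hgg'
      rw [hΦx, h]
      linear_combination (norm := module) a • hg1
  choose! g hg hgΦ using hper'
  refine ⟨a, (c - a) / 2, g, ha, hg, hgΦ, ?_⟩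
  intro x y hx hy hxy
  have h := congrArg Φ (compl_one h3 hx hy hxy)
  rw [map_add, hΦ1, hgΦ x hx, hgΦ y hy] at h
  have h' : a • (ro (g x) (g x) + ro (g y) (g y) - 1) = 0 := by
    linear_combination (norm := module) -h
  have h'' := (smul_eq_zero.mp h').resolve_left ha
  have h4 := congrArg (fun T : H →L[ℂ] H => T (g x)) h''
  simp only [ContinuousLinearMap.add_apply, ContinuousLinearMap.sub_apply, ro_apply,
    ContinuousLinearMap.one_apply, ContinuousLinearMap.zero_apply, inner_one (hg x hx),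
    one_smul, add_sub_cancel_left] at h4
  have hgy : g y ≠ 0 := by
    intro h; have := hg y hy; rw [h] at this; simp at this
  exact inner_zero ((smul_eq_zero.mp h4).resolve_right hgy)

end Pool.Agent.R945.AP
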