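import Pool.Agent.R945.AP.Stm

/-!
# Project AP: uniform constants, dimension at least three
-/

set_option autoImplicit false
set_option linter.deprecated false
set_option linter.unusedSimpArgs false
set_option linter.unusedSectionVars false

open scoped InnerProductSpace ComplexConjugate

namespace Pool.Agent.R945.AP

universe u

namespace PR3

variable {H : Type u} [NormedAddCommGroup H] [InnerProductSpace ℂ H] [CompleteSpace H]

theorem nrm {z : H} (h : ⟪z, z⟫_ℂ = 1) : ‖z‖ = 1 := by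
  have h2 : ‖z‖ ^ 2 = 1 := by
    rw [norm_sq_eq_re_inner (𝕜 := ℂ) z, h]; simp
  have h3 := norm_nonneg z
  nlinarith

theorem inn {z : H} (h : ‖z‖ = 1) : ⟪z, z⟫_ℂ = 1 := by
  rw [inner_self_eq_norm_sq_to_K, h]; norm_num

theorem ne0 {z : H} (h : ‖z‖ = 1) : z ≠ 0 := by
  rintro rfl
  simp at h

theorem flip0 {x y : H} (h : ⟪x, y⟫_ℂ = 0) : ⟪y, x⟫_ℂ = 0 := by
  rw [← inner_conj_symm, h, map_zero]

theorem ro_mul (x y z w : H) : ro x y * ro z w = ⟪y, z⟫_ℂ • ro x w := by
  ext v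
  simp only [ContinuousLinearMap.mul_apply, ro_apply, inner_smul_right,
    ContinuousLinearMap.smul_apply, smul_smul]
  congr 1
  ring

theorem star_ro (x y : H) : star (ro x y) = ro y x := by
  symm
  rw [ContinuousLinearMap.star_eq_adjoint, ContinuousLinearMap.eq_adjoint_iff]
  intro v w
  simp only [ro_apply, inner_smul_left, inner_smul_right, inner_conj_symm]
  ring

theorem exists_orth (h3 : Dim3 H) (x y : H) :
    ∃ z : H, ‖z‖ = 1 ∧ ⟪x, z⟫_ℂ = 0 ∧ ⟪y, z⟫_ℂ = 0 := by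
  obtain ⟨e1, e2, e3, n1, n2, n3, o12, o13, o23⟩ := h3
  let M : Matrix (Fin 2) (Fin 3) ℂ :=
    !![⟪x, e1⟫_ℂ, ⟪x, e2⟫_ℂ, ⟪x, e3⟫_ℂ; ⟪y, e1⟫_ℂ, ⟪y, e2⟫_ℂ, ⟪y, e3⟫_ℂ]
  have hker : LinearMap.ker M.mulVecLin ≠ ⊥ :=
    LinearMap.ker_ne_bot_of_finrank_lt (f := M.mulVecLin) (by simp)
  obtain ⟨c, hc, hc0⟩ := Submodule.exists_mem_ne_zero_of_ne_bot hker
  have hc' : M.mulVec c = 0 := by
    have := LinearMap.mem_ker.1 hc
    simpa using this
  have hx0 : ⟪x, e1⟫_ℂ * c 0 + ⟪x, e2⟫_ℂ * c 1 + ⟪x, e3⟫_ℂ * c 2 = 0 := by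
    have := congrFun hc' 0
    simpa [M, Matrix.mulVec, dotProduct, Fin.sum_univ_three] using this
  have hy0 : ⟪y, e1⟫_ℂ * c 0 + ⟪y, e2⟫_ℂ * c 1 + ⟪y, e3⟫_ℂ * c 2 = 0 := by
    have := congrFun hc' 1
    simpa [M, Matrix.mulVec, dotProduct, Fin.sum_univ_three] using this
  set w : H := c 0 • e1 + c 1 • e2 + c 2 • e3 with hw
  have hw0 : w ≠ 0 := by
    intro h0
    apply hc0
    have i1 : ⟪e1, w⟫_ℂ = c 0 := by
      rw [hw]
      simp only [inner_add_right, inner_smul_right, inn n1, o12, o13]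
      ring
    have i2 : ⟪e2, w⟫_ℂ = c 1 := by
      rw [hw]
      simp only [inner_add_right, inner_smul_right, inn n2, flip0 o12, o23]
      ring
    have i3 : ⟪e3, w⟫_ℂ = c 2 := by
      rw [hw]
      simp only [inner_add_right, inner_smul_right, inn n3, flip0 o13, flip0 o23]
      ring
    rw [h0, inner_zero_right] at i1 i2 i3
    funext i
    fin_cases i
    · exact i1.symm
    · exact i2.symm
    · exact i3.symm
  refine ⟨((‖w‖⁻¹ : ℝ) : ℂ) • w, ?_, ?_, ?_⟩
  · rw [norm_smul, Complex.norm_real, norm_inv, norm_norm]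
    exact inv_mul_cancel₀ (norm_ne_zero_iff.2 hw0)
  · rw [inner_smul_right, hw]
    simp only [inner_add_right, inner_smul_right]
    rw [show c 0 * ⟪x, e1⟫_ℂ + c 1 * ⟪x, e2⟫_ℂ + c 2 * ⟪x, e3⟫_ℂ = 0 by
      linear_combination hx0, mul_zero]
  · rw [inner_smul_right, hw]
    simp only [inner_add_right, inner_smul_right]
    rw [show c 0 * ⟪y, e1⟫_ℂ + c 1 * ⟪y, e2⟫_ℂ + c 2 * ⟪y, e3⟫_ℂ = 0 by
      linear_combination hy0, mul_zero]

theorem eig {F : H →L[ℂ] H} (hF : F * F = F) {α β l : ℂ} {v : H} (hv : v ≠ 0)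
    (h : (α • F + β • (1 : H →L[ℂ] H)) v = l • v) : l = β ∨ l = α + β := by
  have e1 : α • F v + β • v = l • v := by simpa using h
  have e2 : α • F v = (l - β) • v := by rw [sub_smul, ← e1, add_sub_cancel_right]
  have hFF : F (F v) = F v := by rw [← ContinuousLinearMap.mul_apply, hF]
  have e3 : α • F v = (l - β) • F v := by
    have := congrArg F e2
    rwa [map_smul, map_smul, hFF] at this
  have e4 : ((α - (l - β)) * (l - β)) • v = 0 := by
    rw [mul_smul, ← e2, smul_comm, sub_smul, e3, sub_self, smul_zero]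
  rcases smul_eq_zero.1 e4 with h | h
  · rcases mul_eq_zero.1 h with h | h
    · right; linear_combination -h
    · left; linear_combination h
  · exact absurd h hv

theorem isPr_two {p q : H} (hp : ‖p‖ = 1) (hq : ‖q‖ = 1)
    (h : ⟪p, q⟫_ℂ = 0) : IsPr (ro p p + ro q q) := by
  refine ⟨?_, ?_⟩
  · show star _ = _
    rw [star_add, star_ro, star_ro]
  · rw [mul_add, add_mul, add_mul, ro_mul, ro_mul, ro_mul, ro_mul, inn hp, inn hq, h, flip0 h]
    simp

/-- the vectors `(x + w y) / √2` -/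
noncomputable def uu (w : ℂ) (x y : H) : H := (((Real.sqrt 2)⁻¹ : ℝ) : ℂ) • (x + w • y)

theorem rr : (((Real.sqrt 2)⁻¹ : ℝ) : ℂ) * (((Real.sqrt 2)⁻¹ : ℝ) : ℂ) = 1 / 2 := by
  rw [← Complex.ofReal_mul, ← mul_inv, Real.mul_self_sqrt (by norm_num)]
  norm_num

theorem uu_inner {x y : H} (hx : ‖x‖ = 1) (hy : ‖y‖ = 1) (h : ⟪x, y⟫_ℂ = 0) (w w' : ℂ) :
    ⟪uu w x y, uu w' x y⟫_ℂ = 1 / 2 * (1 + conj w * w') := by
  unfold uu
  simp only [inner_smul_left, inner_smul_right, inner_add_left, inner_add_right, inn hx, inn hy, h,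
    flip0 h, Complex.conj_ofReal]
  linear_combination (1 + conj w * w') * rr

theorem ro_uu (x y : H) (w w' : ℂ) :
    ro (uu w x y) (uu w' x y) =
      (1 / 2 : ℂ) • (ro x x + (w * conj w') • ro y y + w • ro y x + conj w' • ro x y) := by
  ext v
  unfold uu
  simp only [ro_apply, inner_smul_left, inner_add_left, Complex.conj_ofReal,
    ContinuousLinearMap.smul_apply, ContinuousLinearMap.add_apply]
  rw [← rr]
  module

/-- the hypotheses after the first step -/
structure Hyp (Φ : (H →L[ℂ] H) ≃ₗ[ℂ] (H →L[ℂ] H)) (a : ℂ) (b : H → ℂ)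
    (g : H → H) : Prop where
  ne : a ≠ 0
  norm : ∀ x, ‖x‖ = 1 → ‖g x‖ = 1
  eq : ∀ x, ‖x‖ = 1 → Φ (ro x x) = a • ro (g x) (g x) + b x • 1
  orth : ∀ x y, ‖x‖ = 1 → ‖y‖ = 1 → ⟪x, y⟫_ℂ = 0 → ⟪g x, g y⟫_ℂ = 0

theorem C1 (h3 : Dim3 H) {Φ : (H →L[ℂ] H) ≃ₗ[ℂ] (H →L[ℂ] H)} {a : ℂ}
    {b : H → ℂ} {g : H → H} (hh : Hyp Φ a b g) {x y p q : H} (hx : ‖x‖ = 1) (hy : ‖y‖ = 1)
    (hxy : ⟪x, y⟫_ℂ = 0) (hp : ‖p‖ = 1) (hq : ‖q‖ = 1) (hpq : ⟪p, q⟫_ℂ = 0)
    (hs : ro p p + ro q q = ro x x + ro y y) {v : H} (hv1 : ⟪g x, v⟫_ℂ = 0)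
    (hv2 : ⟪g y, v⟫_ℂ = 0) : ⟪g p, v⟫_ℂ = 0 ∧ ⟪g q, v⟫_ℂ = 0 := by
  have hgxy := hh.orth x y hx hy hxy
  have hgpq := hh.orth p q hp hq hpq
  have key : a • (ro (g p) (g p) + ro (g q) (g q)) =
      a • (ro (g x) (g x) + ro (g y) (g y)) + (b x + b y - b p - b q) • (1 : H →L[ℂ] H) := by
    have e := congrArg Φ hs
    rw [map_add, map_add, hh.eq p hp, hh.eq q hq, hh.eq x hx, hh.eq y hy] at e
    have e2 : a • (ro (g p) (g p) + ro (g q) (g q)) =
        (a • ro (g p) (g p) + b p • (1 : H →L[ℂ] H) + (a • ro (g q) (g q) + b q • 1)) -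
          (b p + b q) • (1 : H →L[ℂ] H) := by
      module
    rw [e2, e]
    module
  set s : ℂ := (b x + b y - b p - b q) / a with hsdef
  have key2 : ro (g p) (g p) + ro (g q) (g q) =
      ro (g x) (g x) + ro (g y) (g y) + s • (1 : H →L[ℂ] H) := by
    have hsa : b x + b y - b p - b q = a * s := by
      rw [hsdef]; field_simp [hh.ne]
    rw [hsa, mul_smul, ← smul_add] at key
    exact smul_right_injective _ hh.ne key
  have hPr := isPr_two (hh.norm p hp) (hh.norm q hq) hgpq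
  obtain ⟨h, hn, ho1, ho2⟩ := exists_orth h3 (g x) (g y)
  have s1 : s = 0 ∨ s = 1 := by
    have := eig (F := ro (g p) (g p) + ro (g q) (g q)) hPr.2 (α := 1) (β := 0) (l := s)
      (ne0 hn) (by
        rw [one_smul, zero_smul, add_zero, key2]
        simp [ho1, ho2])
    simpa using this
  have s2 : 1 + s = 0 ∨ 1 + s = 1 := by
    have := eig (F := ro (g p) (g p) + ro (g q) (g q)) hPr.2 (α := 1) (β := 0) (l := 1 + s)
      (ne0 (hh.norm x hx)) (by
        rw [one_smul, zero_smul, add_zero, key2]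
        simp only [ContinuousLinearMap.add_apply, ro_apply, ContinuousLinearMap.smul_apply,
          ContinuousLinearMap.one_apply, inn (hh.norm x hx), flip0 hgxy]
        module)
    simpa using this
  have s0 : s = 0 := by
    rcases s1 with h | h
    · exact h
    · rcases s2 with h' | h'
      · rw [h] at h'; norm_num at h'
      · linear_combination h'
  have key3 : ⟪g p, v⟫_ℂ • g p + ⟪g q, v⟫_ℂ • g q = 0 := by
    have e := congrArg (fun T : H →L[ℂ] H => T v) key2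
    simpa [hv1, hv2, s0] using e
  constructor
  · have e := congrArg (fun z : H => ⟪g p, z⟫_ℂ) key3
    simp only [inner_add_right, inner_smul_right, inn (hh.norm p hp), hgpq, mul_one, mul_zero,
      add_zero, inner_zero_right] at e
    exact e
  · have e := congrArg (fun z : H => ⟪g q, z⟫_ℂ) key3
    simp only [inner_add_right, inner_smul_right, inn (hh.norm q hq), flip0 hgpq, mul_one, mul_zero,
      zero_add, inner_zero_right] at e
    exact e

theorem uu_facts {x y : H} (hx : ‖x‖ = 1) (hy : ‖y‖ = 1) (hxy : ⟪x, y⟫_ℂ = 0) (w : ℂ)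
    (hw : conj w * w = 1) : ‖uu w x y‖ = 1 ∧ ‖uu (-w) x y‖ = 1 ∧
      ⟪uu w x y, uu (-w) x y⟫_ℂ = 0 ∧
      ro (uu w x y) (uu w x y) + ro (uu (-w) x y) (uu (-w) x y) = ro x x + ro y y := by
  refine ⟨nrm ?_, nrm ?_, ?_, ?_⟩
  · rw [uu_inner hx hy hxy, hw]; norm_num
  · rw [uu_inner hx hy hxy, map_neg, neg_mul_neg, hw]; norm_num
  · rw [uu_inner hx hy hxy, mul_neg, hw]; norm_num
  · rw [ro_uu, ro_uu, map_neg, neg_mul_neg, mul_comm w, hw]
    module

theorem C2 (h3 : Dim3 H) {Φ : (H →L[ℂ] H) ≃ₗ[ℂ] (H →L[ℂ] H)} {a : ℂ}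
    {b : H → ℂ} {g : H → H} (hh : Hyp Φ a b g) (hP : Pres Φ) {x y : H} (hx : ‖x‖ = 1)
    (hy : ‖y‖ = 1) (hxy : ⟪x, y⟫_ℂ = 0) {v : H} (hv : v ≠ 0) (hv1 : ⟪g x, v⟫_ℂ = 0)
    (hv2 : ⟪g y, v⟫_ℂ = 0) : Φ (ro x y) v = 0 := by
  have h1 := uu_facts hx hy hxy 1 (by simp)
  have hI := uu_facts hx hy hxy Complex.I (by simp)
  obtain ⟨n1, n2, o1, t1⟩ := h1
  obtain ⟨n3, n4, o2, t2⟩ := hI
  obtain ⟨z1, z2⟩ := C1 h3 hh hx hy hxy n1 n2 o1 t1 hv1 hv2
  obtain ⟨z3, z4⟩ := C1 h3 hh hx hy hxy n3 n4 o2 t2 hv1 hv2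
  have dec : ro x y = (1 / 2 : ℂ) • (ro (uu 1 x y) (uu 1 x y) - ro (uu (-1) x y) (uu (-1) x y) +
      Complex.I • (ro (uu Complex.I x y) (uu Complex.I x y) -
        ro (uu (-Complex.I) x y) (uu (-Complex.I) x y))) := by
    rw [ro_uu, ro_uu, ro_uu, ro_uu]
    ext z
    simp only [map_one, map_neg, Complex.conj_I, ContinuousLinearMap.smul_apply,
      ContinuousLinearMap.add_apply, ContinuousLinearMap.sub_apply, ro_apply]
    match_scalars
    all_goals ring_nf
    all_goals simp only [Complex.I_sq]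
    all_goals ring
  have hval : ∃ κ : ℂ, Φ (ro x y) v = κ • v := by
    rw [dec, map_smul, map_add, map_sub, map_smul, map_sub, hh.eq _ n1, hh.eq _ n2, hh.eq _ n3,
      hh.eq _ n4]
    simp only [ContinuousLinearMap.smul_apply,
      ContinuousLinearMap.add_apply, ContinuousLinearMap.sub_apply, ro_apply, z1, z2, z3, z4,
      zero_smul, smul_zero, zero_add, ContinuousLinearMap.one_apply]
    refine ⟨1 / 2 * (b (uu 1 x y) - b (uu (-1) x y) +
      Complex.I * (b (uu Complex.I x y) - b (uu (-Complex.I) x y))), ?_⟩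
    module
  obtain ⟨κ, hκ⟩ := hval
  have hsq : Φ (ro x y) * Φ (ro x y) = 0 := by
    refine (hP.sq _).1 ?_
    rw [ro_mul, flip0 hxy, zero_smul]
  have h0 : (κ * κ) • v = 0 := by
    have e := congrArg (fun T : H →L[ℂ] H => T v) hsq
    simp only [ContinuousLinearMap.mul_apply, hκ, map_smul, ContinuousLinearMap.zero_apply] at e
    rw [smul_smul] at e
    exact e
  rcases smul_eq_zero.1 h0 with h | h
  · rw [hκ, mul_self_eq_zero.1 h, zero_smul]
  · exact absurd h hv

theorem C3 (h3 : Dim3 H) {Φ : (H →L[ℂ] H) ≃ₗ[ℂ] (H →L[ℂ] H)} {a : ℂ}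
    {b : H → ℂ} {g : H → H} (hh : Hyp Φ a b g) (hP : Pres Φ) {x y : H} (hx : ‖x‖ = 1)
    (hy : ‖y‖ = 1) (hxy : ⟪x, y⟫_ℂ = 0) : b x = b y := by
  obtain ⟨n1, n2, o1, t1⟩ := uu_facts hx hy hxy 1 (by simp)
  obtain ⟨v, hn, hv1, hv2⟩ := exists_orth h3 (g x) (g y)
  obtain ⟨z1, z2⟩ := C1 h3 hh hx hy hxy n1 n2 o1 t1 hv1 hv2
  have k1 := C2 h3 hh hP n1 n2 o1 (ne0 hn) z1 z2
  have k2 := C2 h3 hh hP n2 n1 (flip0 o1) (ne0 hn) z2 z1
  have dec : ro x x - ro y y = ro (uu 1 x y) (uu (-1) x y) + ro (uu (-1) x y) (uu 1 x y) := by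
    rw [ro_uu, ro_uu]
    simp only [map_one, map_neg]
    module
  have e := congrArg (fun T => Φ T v) dec
  simp only [map_sub, map_add, hh.eq x hx, hh.eq y hy, ContinuousLinearMap.sub_apply,
    ContinuousLinearMap.add_apply, k1, k2, ContinuousLinearMap.smul_apply, ro_apply, hv1, hv2,
    ContinuousLinearMap.one_apply, zero_smul, smul_zero, zero_add, add_zero] at e
  rw [← sub_smul] at e
  rcases smul_eq_zero.1 e with h | h
  · exact sub_eq_zero.1 h
  · exact absurd h (ne0 hn)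

end PR3

open PR3 in
theorem t_PR3 (h1 : S_ONE.{u}) (h2 : S_COM.{u}) (h5 : S_QUAD.{u}) (h6 : S_RANK.{u}) :
    S_PR3.{u} := by
  intro H _ _ _ _ Φ hP h3
  have hne1 : ∀ x : H, ‖x‖ = 1 → ro x x ≠ 1 := by
    intro x hx h
    obtain ⟨z, hz, hxz, _⟩ := exists_orth h3 x x
    have e := congrArg (fun T : H →L[ℂ] H => T z) h
    simp only [ro_apply, hxz, zero_smul, ContinuousLinearMap.one_apply] at e
    exact ne0 hz e.symm
  obtain ⟨c, hc, hc1⟩ := h1 H Φ hP
  have hex : ∀ x : H, ‖x‖ = 1 → ∃ (a b : ℂ) (g : H), a ≠ 0 ∧ ‖g‖ = 1 ∧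
      Φ (ro x x) = a • ro g g + b • 1 := fun x hx => h6 H Φ hP x hx (hne1 x hx)
  choose! a b g ha hg he using hex
  have ho : ∀ x y, ‖x‖ = 1 → ‖y‖ = 1 → ⟪x, y⟫_ℂ = 0 → ⟪g x, g y⟫_ℂ = 0 := by
    intro x y hx hy hxy
    by_contra hne
    have hcomm : Commute (ro x x) (ro y y) := by
      show ro x x * ro y y = ro y y * ro x x
      rw [ro_mul, ro_mul, hxy, flip0 hxy, zero_smul, zero_smul]
    have hnorm : IsStarNormal (ro x x) := ⟨by rw [star_ro]⟩
    have hcm : Commute (Φ (ro x x)) (Φ (ro y y)) := ((h2 H Φ hP (ro x x) hnorm).2 (ro y y)).1 hcomm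
    have hE : ∀ z : H, ‖z‖ = 1 → ro (g z) (g z) = (a z)⁻¹ • (Φ (ro z z) - b z • 1) := by
      intro z hz
      rw [he z hz, add_sub_cancel_right, inv_smul_smul₀ (ha z hz)]
    have hEE : Commute (ro (g x) (g x)) (ro (g y) (g y)) := by
      rw [hE x hx, hE y hy]
      refine Commute.smul_left (Commute.smul_right ?_ _) _
      refine Commute.sub_left (Commute.sub_right hcm ?_) ?_
      · exact (Commute.one_right _).smul_right _
      · exact (Commute.one_left _).smul_left _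
    have e := congrArg (fun T : H →L[ℂ] H => T (g y)) hEE.eq
    simp only [ro_mul, ContinuousLinearMap.smul_apply, ro_apply, inn (hg y hy), one_smul] at e
    rw [smul_comm] at e
    have e2 : g x = ⟪g y, g x⟫_ℂ • g y := smul_right_injective H hne e
    have hEq : ro (g x) (g x) = ro (g y) (g y) := by
      generalize ⟪g y, g x⟫_ℂ = k at e2
      have e3 : conj k * k = 1 := by
        have e4 := inn (hg x hx)
        rw [e2, inner_smul_left, inner_smul_right, inn (hg y hy), mul_one] at e4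
        exact e4
      ext z
      rw [ro_apply, ro_apply, e2, inner_smul_left, smul_smul]
      congr 1
      linear_combination ⟪g y, z⟫_ℂ * e3
    have hΦ : Φ (a y • ro x x - a x • ro y y) = Φ (((a y * b x - a x * b y) / c) • 1) := by
      rw [map_sub, map_smul, map_smul, map_smul, hc1, he x hx, he y hy, hEq, smul_smul,
        div_mul_cancel₀ _ hc]
      module
    have hS := Φ.injective hΦ
    obtain ⟨z, hz, hxz, hyz⟩ := exists_orth h3 x y
    have f1 := congrArg (fun T : H →L[ℂ] H => T z) hS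
    simp only [ContinuousLinearMap.sub_apply, ContinuousLinearMap.smul_apply, ro_apply, hxz, hyz,
      zero_smul, smul_zero, sub_zero, ContinuousLinearMap.one_apply] at f1
    have f2 : (a y * b x - a x * b y) / c = 0 := by
      rcases smul_eq_zero.1 f1.symm with h | h
      · exact h
      · exact absurd h (ne0 hz)
    rw [f2, zero_smul] at hS
    have f3 := congrArg (fun T : H →L[ℂ] H => T x) hS
    simp only [ContinuousLinearMap.sub_apply, ContinuousLinearMap.smul_apply, ro_apply, inn hx,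
      flip0 hxy, one_smul, zero_smul, smul_zero, sub_zero, ContinuousLinearMap.zero_apply] at f3
    rcases smul_eq_zero.1 f3 with h | h
    · exact ha y hy h
    · exact ne0 hx h
  have haa : ∀ x y, ‖x‖ = 1 → ‖y‖ = 1 → ⟪x, y⟫_ℂ = 0 → a x = a y := by
    intro x y hx hy hxy
    have hgxy := ho x y hx hy hxy
    obtain ⟨z, hz, hxz, hyz⟩ := exists_orth h3 x y
    obtain ⟨h, hhn, hh1, hh2⟩ := exists_orth h3 (g x) (g y)
    have hPr := isPr_two hx hy hxy
    have hne0 : ro x x + ro y y ≠ 0 := by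
      intro h0
      have e := congrArg (fun T : H →L[ℂ] H => T x) h0
      simp only [ContinuousLinearMap.add_apply, ro_apply, inn hx, flip0 hxy, one_smul, zero_smul,
        add_zero, ContinuousLinearMap.zero_apply] at e
      exact ne0 hx e
    have hne1' : ro x x + ro y y ≠ 1 := by
      intro h0
      have e := congrArg (fun T : H →L[ℂ] H => T z) h0
      simp only [ContinuousLinearMap.add_apply, ro_apply, hxz, hyz, zero_smul,
        add_zero, ContinuousLinearMap.one_apply] at e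
      exact ne0 hz e.symm
    obtain ⟨α, β, F, _, hF, _, _, hΦ⟩ := h5 H Φ hP _ hPr hne0 hne1'
    rw [map_add, he x hx, he y hy] at hΦ
    have e1 : a x + (b x + b y) = β ∨ a x + (b x + b y) = α + β := by
      refine eig hF.2 (ne0 (hg x hx)) ?_
      rw [← hΦ]
      simp only [ContinuousLinearMap.add_apply, ContinuousLinearMap.smul_apply, ro_apply,
        inn (hg x hx), flip0 hgxy, ContinuousLinearMap.one_apply]
      module
    have e2 : a y + (b x + b y) = β ∨ a y + (b x + b y) = α + β := by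
      refine eig hF.2 (ne0 (hg y hy)) ?_
      rw [← hΦ]
      simp only [ContinuousLinearMap.add_apply, ContinuousLinearMap.smul_apply, ro_apply,
        inn (hg y hy), hgxy, ContinuousLinearMap.one_apply]
      module
    have e3 : b x + b y = β ∨ b x + b y = α + β := by
      refine eig hF.2 (ne0 hhn) ?_
      rw [← hΦ]
      simp only [ContinuousLinearMap.add_apply, ContinuousLinearMap.smul_apply, ro_apply,
        hh1, hh2, ContinuousLinearMap.one_apply]
      module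
    have hax := ha x hx
    have hay := ha y hy
    rcases e3 with e3 | e3
    · rcases e1 with e1 | e1
      · exact absurd (by linear_combination e1 - e3) hax
      · rcases e2 with e2 | e2
        · exact absurd (by linear_combination e2 - e3) hay
        · linear_combination e1 - e2
    · rcases e1 with e1 | e1
      · rcases e2 with e2 | e2
        · linear_combination e1 - e2
        · exact absurd (by linear_combination e2 - e3) hay
      · exact absurd (by linear_combination e1 - e3) hax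
  obtain ⟨x0, -, -, hx0, -⟩ := id h3
  have hconst : ∀ x, ‖x‖ = 1 → a x = a x0 := by
    intro x hx
    obtain ⟨z, hz, hxz, hyz⟩ := exists_orth h3 x x0
    rw [haa x z hx hz hxz, haa x0 z hx0 hz hyz]
  have hH : Hyp Φ (a x0) b g := by
    refine ⟨ha x0 hx0, hg, ?_, ho⟩
    intro x hx
    rw [he x hx, hconst x hx]
  refine ⟨a x0, b x0, g, ha x0 hx0, hg, ?_, ho⟩
  intro x hx
  obtain ⟨z, hz, hxz, hyz⟩ := exists_orth h3 x x0
  rw [hH.eq x hx, C3 h3 hH hP hx hz hxz, C3 h3 hH hP hx0 hz hyz]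

end Pool.Agent.R945.AP
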