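import Pool.Agent.R945.AP.Stm

/-!
# Project AP, piece QUAD (helper408): images of nontrivial projections
-/

set_option autoImplicit false

open scoped InnerProductSpace ComplexConjugate

namespace Pool.Agent.R945.AP

universe u

theorem t_QUAD (h1 : S_ONE.{u}) (h2 : S_COM.{u}) (h3 : S_BIC.{u}) (h4 : S_EPR.{u}) :
    S_QUAD.{u} := by
  intro H _ _ _ _ Φ hΦ P hP hP0 hP1
  obtain ⟨c, hc, hc1⟩ := h1 H Φ hΦ
  obtain ⟨hPs, hPP⟩ := hP
  have hnP : IsStarNormal P := hPs.isStarNormal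
  obtain ⟨hnΦ, hcom⟩ := h2 H Φ hΦ P hnP
  obtain ⟨X, hX⟩ : ∃ X : H →L[ℂ] H, Φ X = Φ P * Φ P := ⟨Φ.symm (Φ P * Φ P), Φ.apply_symm_apply _⟩
  obtain ⟨u, v, huv⟩ := h3 H P X ⟨hPs, hPP⟩ (by
    intro C hC hPC
    have e1 : Commute (Φ P) (Φ C) := (hcom C).1 hPC
    have e2 : Commute (Φ C) (Φ X) := by
      rw [hX]
      exact e1.symm.mul_right e1.symm
    exact (((h2 H Φ hΦ C hC.isStarNormal).2 X).2 e2).symm)
  have hB : Φ P * Φ P = u • Φ P + (v * c) • 1 := by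
    rw [← hX, huv, map_add, map_smul, map_smul, hc1, smul_smul]
  refine h4 H (Φ P) u (v * c) hnΦ hB ?_
  rintro ⟨s, hs⟩
  have e3 : P = (s / c) • (1 : H →L[ℂ] H) := by
    apply Φ.injective
    rw [map_smul, hc1, smul_smul, div_mul_cancel₀ _ hc, hs]
  obtain ⟨r, hr⟩ : ∃ r : ℂ, r = s / c := ⟨_, rfl⟩
  rw [← hr] at e3
  have e4 : (r * r - r) • (1 : H →L[ℂ] H) = 0 := by
    rw [sub_smul, sub_eq_zero, mul_smul, ← e3]
    have : r • P = P * P := by
      rw [e3]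
      simp
    rw [this, hPP]
  have e5 : r * r - r = 0 := by
    rcases smul_eq_zero.1 e4 with h | h
    · exact h
    · exact absurd h one_ne_zero
  have e6 : r * (r - 1) = 0 := by rw [mul_sub, mul_one]; exact e5
  rcases mul_eq_zero.1 e6 with h | h
  · apply hP0
    rw [e3, h, zero_smul]
  · apply hP1
    rw [e3, sub_eq_zero.1 h, one_smul]

end Pool.Agent.R945.AP
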