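import Pool.Agent.R945.AP.Stm

/-!
# Project AP: images of rank one projections
-/

set_option autoImplicit false

open scoped InnerProductSpace ComplexConjugate

namespace Pool.Agent.R945.AP

universe u

namespace RANKaux

variable {H : Type u} [NormedAddCommGroup H] [InnerProductSpace ℂ H] [CompleteSpace H]

theorem eigv {Q E : H →L[ℂ] H} {s t : ℂ} (hE : E * E = E) (hQ : Q = s • E + t • 1)
    {y : H} (hy : y ≠ 0) {m : ℂ} (e : Q y = m • y) : m = t ∨ m = t + s := by
  have h1 : s • E y + t • y = m • y := by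
    rw [← e, hQ]; rfl
  have h2 : s • E y = (m - t) • y := by
    rw [sub_smul, ← h1]; abel
  have h3 : E (E y) = E y := congrArg (fun A : H →L[ℂ] H => A y) hE
  have h4 : s • E y = (m - t) • E y := by
    have := congrArg E h2
    rw [map_smul, map_smul, h3] at this
    exact this
  have h5 : (m - t) • ((m - t) • y) = s • ((m - t) • y) := by
    calc (m - t) • ((m - t) • y) = (m - t) • (s • E y) := by rw [h2]
      _ = s • ((m - t) • E y) := smul_comm _ _ _
      _ = s • (s • E y) := by rw [← h4]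
      _ = s • ((m - t) • y) := by rw [h2]
  rw [smul_smul, smul_smul, ← sub_eq_zero, ← sub_smul] at h5
  have h6 := (smul_eq_zero.mp h5).resolve_right hy
  have h7 : (m - t) * (m - (t + s)) = 0 := by linear_combination h6
  rcases mul_eq_zero.mp h7 with h | h
  · exact Or.inl (sub_eq_zero.mp h)
  · exact Or.inr (sub_eq_zero.mp h)

theorem three {Q E : H →L[ℂ] H} {s t : ℂ} (hE : E * E = E) (hQ : Q = s • E + t • 1)
    {y1 y2 y3 : H} (h1 : y1 ≠ 0) (h2 : y2 ≠ 0) (h3 : y3 ≠ 0) {m1 m2 m3 : ℂ}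
    (e1 : Q y1 = m1 • y1) (e2 : Q y2 = m2 • y2) (e3 : Q y3 = m3 • y3) :
    m1 = m2 ∨ m1 = m3 ∨ m2 = m3 := by
  rcases eigv hE hQ h1 e1 with a | a <;> rcases eigv hE hQ h2 e2 with b | b <;>
    rcases eigv hE hQ h3 e3 with c | c <;>
    first
    | exact Or.inl (a.trans b.symm)
    | exact Or.inr (Or.inl (a.trans c.symm))
    | exact Or.inr (Or.inr (b.trans c.symm))

theorem sym {E : H →L[ℂ] H} (hE : IsPr E) (u v : H) : ⟪E u, v⟫_ℂ = ⟪u, E v⟫_ℂ :=
  (ContinuousLinearMap.isSelfAdjoint_iff_isSymmetric.mp hE.1) u v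

theorem idem {E : H →L[ℂ] H} (hE : IsPr E) (u : H) : E (E u) = E u :=
  congrArg (fun A : H →L[ℂ] H => A u) hE.2

theorem pr_one_sub {E : H →L[ℂ] H} (hE : IsPr E) : IsPr (1 - E) :=
  ⟨(IsSelfAdjoint.one _).sub hE.1, by rw [mul_sub, sub_mul, sub_mul, hE.2]; simp⟩

theorem pr_add {A B : H →L[ℂ] H} (hA : IsPr A) (hB : IsPr B) (h : A * B = 0) (h' : B * A = 0) :
    IsPr (A + B) :=
  ⟨hA.1.add hB.1, by rw [mul_add, add_mul, add_mul, hA.2, hB.2, h, h']; simp⟩

theorem pr_sub {A B : H →L[ℂ] H} (hA : IsPr A) (hB : IsPr B) (h : A * B = B) (h' : B * A = B) :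
    IsPr (A - B) :=
  ⟨hA.1.sub hB.1, by rw [mul_sub, sub_mul, sub_mul, hA.2, hB.2, h, h']; simp⟩

theorem inner_one {x : H} (hx : ‖x‖ = 1) : ⟪x, x⟫_ℂ = 1 := by
  rw [inner_self_eq_norm_sq_to_K, hx]; simp

theorem ro_self {x : H} (hx : ‖x‖ = 1) : ro x x x = x := by
  rw [ro_apply, inner_one hx, one_smul]

theorem ne0 {x : H} (hx : ‖x‖ = 1) : x ≠ 0 := by
  intro h
  rw [h, norm_zero] at hx
  exact zero_ne_one hx

theorem pr_ro {x : H} (hx : ‖x‖ = 1) : IsPr (ro x x) := by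
  constructor
  · rw [ContinuousLinearMap.isSelfAdjoint_iff_isSymmetric]
    intro u v
    show ⟪ro x x u, v⟫_ℂ = ⟪u, ro x x v⟫_ℂ
    rw [ro_apply, ro_apply, inner_smul_left, inner_smul_right, inner_conj_symm]
    ring
  · ext v
    show ro x x (ro x x v) = ro x x v
    rw [ro_apply x x v, map_smul, ro_self hx]

theorem ro_ne_zero {x : H} (hx : ‖x‖ = 1) : ro x x ≠ 0 := by
  intro h
  have := ro_self hx
  rw [h] at this
  exact ne0 hx this.symm

theorem mul_ro_in {E : H →L[ℂ] H} (hE : IsPr E) {v : H} (hv : E v = v) :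
    E * ro v v = ro v v ∧ ro v v * E = ro v v := by
  constructor
  · ext y
    show E (ro v v y) = ro v v y
    rw [ro_apply, map_smul, hv]
  · ext y
    show ro v v (E y) = ro v v y
    rw [ro_apply, ro_apply, ← sym hE, hv]

theorem mul_ro_out {E : H →L[ℂ] H} (hE : IsPr E) {v : H} (hv : E v = 0) :
    E * ro v v = 0 ∧ ro v v * E = 0 := by
  constructor
  · ext y
    show E (ro v v y) = 0
    rw [ro_apply, map_smul, hv, smul_zero]
  · ext y
    show ro v v (E y) = 0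
    rw [ro_apply, ← sym hE, hv, inner_zero_left, zero_smul]

theorem exvec {A : H →L[ℂ] H} (hA : A ≠ 0) : ∃ z, A z ≠ 0 := by
  by_contra h
  push Not at h
  exact hA (by ext z; exact h z)

theorem unitvec {E : H →L[ℂ] H} (hE : IsPr E) (h0 : E ≠ 0) : ∃ v : H, ‖v‖ = 1 ∧ E v = v := by
  obtain ⟨z, hz⟩ := exvec h0
  refine ⟨((‖E z‖ : ℂ)⁻¹) • E z, ?_, ?_⟩
  · rw [norm_smul, norm_inv, Complex.norm_real, norm_norm, inv_mul_cancel₀ (norm_ne_zero_iff.mpr hz)]
  · rw [map_smul, idem hE]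

theorem pres_symm {Φ : (H →L[ℂ] H) ≃ₗ[ℂ] (H →L[ℂ] H)} (h : Pres Φ) : Pres Φ.symm := by
  constructor
  · intro T
    rw [h.qn (Φ.symm T), Φ.apply_symm_apply]
  · intro T
    rw [h.sq (Φ.symm T), Φ.apply_symm_apply]

theorem normal {E : H →L[ℂ] H} (hE : IsPr E) : IsStarNormal E := hE.1.isStarNormal

theorem comm_of {A B : H →L[ℂ] H} {a b a' b' : ℂ} (ha : a ≠ 0) (ha' : a' ≠ 0)
    (h : Commute (a • A + b • 1) (a' • B + b' • 1)) : Commute A B := by
  have e1 : A = a⁻¹ • ((a • A + b • 1) - b • 1) := by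
    rw [add_sub_cancel_right, smul_smul, inv_mul_cancel₀ ha, one_smul]
  have e2 : B = a'⁻¹ • ((a' • B + b' • 1) - b' • 1) := by
    rw [add_sub_cancel_right, smul_smul, inv_mul_cancel₀ ha', one_smul]
  have one_l : ∀ (X : H →L[ℂ] H) (k : ℂ), Commute (k • (1 : H →L[ℂ] H)) X := fun X k =>
    (Commute.one_left X).smul_left k
  have k1 : Commute A (a' • B + b' • 1) := by
    rw [e1]
    exact (h.sub_left (one_l _ _)).smul_left _
  rw [e2]
  exact (k1.sub_right (one_l _ _).symm).smul_right _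

theorem prep (h2 : S_COM.{u}) (h5 : S_QUAD.{u}) [Nontrivial H]
    {Φ : (H →L[ℂ] H) ≃ₗ[ℂ] (H →L[ℂ] H)} (hΦ : Pres Φ) {x : H} (hx : ‖x‖ = 1) {F : H →L[ℂ] H}
    (hF : IsPr F) (hF0 : F ≠ 0) (hF1 : F ≠ 1) (hc : Commute (Φ (ro x x)) F) :
    ∃ (a1 b1 : ℂ) (E1 : H →L[ℂ] H), a1 ≠ 0 ∧ IsPr E1 ∧ E1 ≠ 0 ∧ E1 ≠ 1 ∧ E1 x = 0 ∧
      Φ.symm F = a1 • E1 + b1 • 1 := by
  obtain ⟨a1, b1, E1, ha1, hE1, h0, h1, he⟩ := h5 H Φ.symm (pres_symm hΦ) F hF hF0 hF1
  have hcomm : Commute (ro x x) (Φ.symm F) :=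
    ((h2 H Φ hΦ (ro x x) (normal (pr_ro hx))).2 (Φ.symm F)).mpr
      (by rw [Φ.apply_symm_apply]; exact hc)
  rw [he] at hcomm
  have hcomm' : Commute (ro x x) E1 := by
    have : Commute ((1:ℂ) • ro x x + (0:ℂ) • (1 : H →L[ℂ] H)) (a1 • E1 + b1 • 1) := by
      rw [one_smul, zero_smul, add_zero]; exact hcomm
    exact comm_of one_ne_zero ha1 this
  have h6 : ro x x (E1 x) = E1 x := by
    have h7 : ro x x (E1 x) = E1 (ro x x x) := congrArg (fun A : H →L[ℂ] H => A x) hcomm'.eq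
    rw [h7, ro_self hx]
  rw [ro_apply] at h6
  set k : ℂ := ⟪x, E1 x⟫_ℂ with hk
  have h8 : k • E1 x = E1 x := by
    have h9 := congrArg E1 h6
    rw [map_smul, idem hE1] at h9
    exact h9
  have h10 : (k - 1) • E1 x = 0 := by rw [sub_smul, h8, one_smul, sub_self]
  rcases smul_eq_zero.mp h10 with h | h
  · have hk1 : k = 1 := sub_eq_zero.mp h
    rw [hk1, one_smul] at h6
    refine ⟨-a1, a1 + b1, 1 - E1, neg_ne_zero.mpr ha1, pr_one_sub hE1,
      sub_ne_zero.mpr (Ne.symm h1), ?_, ?_, ?_⟩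
    · intro h
      apply h0
      have : E1 = 1 - (1 - E1) := by abel
      rw [this, h, sub_self]
    · show x - E1 x = 0
      rw [← h6, sub_self]
    · rw [he]; module
  · exact ⟨a1, b1, E1, ha1, hE1, h0, h1, h, he⟩

/-- killed vectors -/
theorem rx {E : H →L[ℂ] H} (hE : IsPr E) {x : H} (h : E x = 0) (z : H) :
    E (ro x x z) = 0 ∧ ro x x (E z) = 0 :=
  ⟨congrArg (fun A : H →L[ℂ] H => A z) (mul_ro_out hE h).1,
    congrArg (fun A : H →L[ℂ] H => A z) (mul_ro_out hE h).2⟩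

end RANKaux

open RANKaux

theorem t_RANK (h1 : S_ONE.{u}) (h2 : S_COM.{u}) (h5 : S_QUAD.{u}) : S_RANK.{u} := by
  intro H _ _ _ _ Φ hΦ x hx hP1
  have hP : IsPr (ro x x) := pr_ro hx
  obtain ⟨a, b, E, ha, hE, hE0, hE1, hΦP⟩ := h5 H Φ hΦ (ro x x) hP (ro_ne_zero hx) hP1
  by_contra hcon
  have nrk1 : ∀ g : H, ‖g‖ = 1 → E ≠ ro g g := fun g hg he =>
    hcon ⟨a, b, g, ha, hg, by rw [hΦP, he]⟩
  have nrk2 : ∀ g : H, ‖g‖ = 1 → 1 - E ≠ ro g g := fun g hg he =>
    hcon ⟨-a, a + b, g, neg_ne_zero.mpr ha, hg, by rw [hΦP, ← he]; module⟩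
  obtain ⟨v, hv, hEv⟩ := unitvec hE hE0
  obtain ⟨w, hw, hEw'⟩ := unitvec (pr_one_sub hE) (sub_ne_zero.mpr (Ne.symm hE1))
  have hEw : E w = 0 := by
    have : w - E w = w := hEw'
    have h' : w - E w = w - 0 := by rw [this, sub_zero]
    exact sub_right_injective h'
  have hvw : ⟪v, w⟫_ℂ = 0 := by rw [← hEv, sym hE, hEw, inner_zero_right]
  have hwv : ⟪w, v⟫_ℂ = 0 := by rw [← inner_conj_symm, hvw, map_zero]
  obtain ⟨c, hc0, hc⟩ := h1 H Φ hΦ
  have hΦE : Φ.symm E = a⁻¹ • ro x x - (a⁻¹ * b * c⁻¹) • 1 := by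
    apply Φ.injective
    rw [Φ.apply_symm_apply, map_sub, map_smul, map_smul, hΦP, hc, smul_add, smul_smul, smul_smul,
      smul_smul, inv_mul_cancel₀ ha, one_smul, mul_assoc (a⁻¹ * b), inv_mul_cancel₀ hc0, mul_one,
      add_sub_cancel_right]
  set k : ℂ := a⁻¹ * b * c⁻¹ with hk
  have hs : Pres Φ.symm := pres_symm hΦ
  -- the two small projections
  have hF1 : IsPr (ro v v) := pr_ro hv
  have hF2 : IsPr (ro w w) := pr_ro hw
  have hF1v : ro v v v = v := ro_self hv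
  have hF2w : ro w w w = w := ro_self hw
  have hF1w : ro v v w = 0 := by rw [ro_apply, hvw, zero_smul]
  have hF2v : ro w w v = 0 := by rw [ro_apply, hwv, zero_smul]
  have hv0 := ne0 hv
  have hw0 := ne0 hw
  have hx0 := ne0 hx
  have hPx : ro x x x = x := ro_self hx
  obtain ⟨m1, m1'⟩ := mul_ro_in hE hEv
  obtain ⟨m2, m2'⟩ := mul_ro_out hE hEw
  obtain ⟨m3, m3'⟩ := mul_ro_out hF1 hF1w
  have hone : ∀ (X : H →L[ℂ] H) (k : ℂ), Commute (k • (1 : H →L[ℂ] H)) X := fun X k =>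
    (Commute.one_left X).smul_left k
  have c1 : Commute (Φ (ro x x)) (ro v v) := by
    rw [hΦP]
    have : Commute E (ro v v) := by
      show E * ro v v = ro v v * E
      rw [m1, m1']
    exact (this.smul_left a).add_left (hone _ _)
  have c2 : Commute (Φ (ro x x)) (ro w w) := by
    rw [hΦP]
    have : Commute E (ro w w) := by
      show E * ro w w = ro w w * E
      rw [m2, m2']
    exact (this.smul_left a).add_left (hone _ _)
  have hF1n1 : ro v v ≠ 1 := by
    intro h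
    rw [h] at hF1w
    exact hw0 hF1w
  have hF2n1 : ro w w ≠ 1 := by
    intro h
    rw [h] at hF2v
    exact hv0 hF2v
  obtain ⟨a1, b1, E1, ha1, hE1p, hE10, hE11, hE1x, he1⟩ :=
    prep h2 h5 hΦ hx hF1 (ro_ne_zero hv) hF1n1 c1
  obtain ⟨a2, b2, E2, ha2, hE2p, hE20, hE21, hE2x, he2⟩ :=
    prep h2 h5 hΦ hx hF2 (ro_ne_zero hw) hF2n1 c2
  have hE12 : Commute E1 E2 := by
    have h3 : Commute (ro v v) (ro w w) := by
      show ro v v * ro w w = ro w w * ro v v
      rw [m3, m3']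
    have h4 := ((h2 H Φ.symm hs (ro v v) (normal hF1)).2 (ro w w)).mp h3
    rw [he1, he2] at h4
    exact comm_of ha1 ha2 h4
  have hcomm : ∀ z, E1 (E2 z) = E2 (E1 z) := fun z =>
    congrArg (fun A : H →L[ℂ] H => A z) hE12.eq
  -- nondegeneracy
  have span : ∀ (F E' : H →L[ℂ] H) (a' b' : ℂ), Φ.symm F = a' • E' + b' • 1 →
      1 - ro x x - E' = 0 → ∃ K L : ℂ, F = K • 1 + L • E := by
    intro F E' a' b' hF h0
    have h3 : E' = 1 - ro x x := by
      have : E' = (1 - ro x x) - (1 - ro x x - E') := by abel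
      rw [this, h0, sub_zero]
    have h4 : F = a' • (c • 1 - (a • E + b • 1)) + b' • (c • 1) := by
      have h6 := congrArg Φ hF
      rw [Φ.apply_symm_apply, map_add, map_smul, map_smul, h3, map_sub, hc, hΦP] at h6
      exact h6
    exact ⟨a' * (c - b) + b' * c, -(a' * a), by rw [h4]; module⟩
  have n1 : 1 - ro x x - E1 ≠ 0 := by
    intro h0
    obtain ⟨K, L, hF⟩ := span _ _ _ _ he1 h0
    have e1 : ro v v w = K • w + L • E w := congrArg (fun A : H →L[ℂ] H => A w) hF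
    rw [hF1w, hEw, smul_zero, add_zero] at e1
    have hK := (smul_eq_zero.mp e1.symm).resolve_right hw0
    have e2 : ro v v v = K • v + L • E v := congrArg (fun A : H →L[ℂ] H => A v) hF
    rw [hF1v, hEv, hK, zero_smul, zero_add] at e2
    have e3 : (L - 1) • v = 0 := by rw [sub_smul, ← e2, one_smul, sub_self]
    have hL := sub_eq_zero.mp ((smul_eq_zero.mp e3).resolve_right hv0)
    rw [hK, hL, zero_smul, zero_add, one_smul] at hF
    exact nrk1 v hv hF.symm
  have n2 : 1 - ro x x - E2 ≠ 0 := by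
    intro h0
    obtain ⟨K, L, hF⟩ := span _ _ _ _ he2 h0
    have e1 : ro w w w = K • w + L • E w := congrArg (fun A : H →L[ℂ] H => A w) hF
    rw [hF2w, hEw, smul_zero, add_zero] at e1
    have e3 : (K - 1) • w = 0 := by rw [sub_smul, ← e1, one_smul, sub_self]
    have hK := sub_eq_zero.mp ((smul_eq_zero.mp e3).resolve_right hw0)
    have e2 : ro w w v = K • v + L • E v := congrArg (fun A : H →L[ℂ] H => A v) hF
    rw [hF2v, hEv, ← add_smul] at e2
    have hL := (smul_eq_zero.mp e2.symm).resolve_right hv0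
    rw [hK] at hL
    have hL' : L = -1 := by linear_combination hL
    rw [hK, hL'] at hF
    exact nrk2 w hw (by rw [hF]; module)
  -- vectors
  obtain ⟨z1, hz1⟩ := exvec hE10
  obtain ⟨z2, hz2⟩ := exvec hE20
  obtain ⟨t1, ht1⟩ := exvec n1
  obtain ⟨t2, ht2⟩ := exvec n2
  have p1 : ∀ z, E1 (ro x x z) = 0 := fun z => (rx hE1p hE1x z).1
  have p1' : ∀ z, ro x x (E1 z) = 0 := fun z => (rx hE1p hE1x z).2
  have p2 : ∀ z, E2 (ro x x z) = 0 := fun z => (rx hE2p hE2x z).1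
  have p2' : ∀ z, ro x x (E2 z) = 0 := fun z => (rx hE2p hE2x z).2
  have i0 : ∀ z, ro x x (ro x x z) = ro x x z := idem hP
  have i1 : ∀ z, E1 (E1 z) = E1 z := idem hE1p
  have i2 : ∀ z, E2 (E2 z) = E2 z := idem hE2p
  -- E - F1
  have ka1 : a1 = -a⁻¹ := by
    have hR : IsPr (E - ro v v) := pr_sub hE hF1 m1 m1'
    have hR0 : E - ro v v ≠ 0 := sub_ne_zero.mpr (nrk1 v hv)
    have hR1 : E - ro v v ≠ 1 := by
      intro h
      have : E w - ro v v w = w := congrArg (fun A : H →L[ℂ] H => A w) h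
      rw [hEw, hF1w, sub_zero] at this
      exact hw0 this.symm
    obtain ⟨a3, b3, E3, _, hE3, _, _, h3⟩ := h5 H Φ.symm hs _ hR hR0 hR1
    have ev : ∀ y, Φ.symm (E - ro v v) y = a⁻¹ • ro x x y - k • y - (a1 • E1 y + b1 • y) := by
      intro y
      rw [map_sub, hΦE, he1]; rfl
    have q1 : Φ.symm (E - ro v v) x = (a⁻¹ - k - b1) • x := by
      rw [ev, hPx, hE1x]; module
    have q2 : Φ.symm (E - ro v v) (E1 z1) = (-k - a1 - b1) • E1 z1 := by
      rw [ev, p1', i1]; module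
    have q3 : Φ.symm (E - ro v v) ((1 - ro x x - E1) t1) = (-k - b1) • ((1 - ro x x - E1) t1) := by
      have r1 : ro x x ((1 - ro x x - E1) t1) = 0 := by
        show ro x x (t1 - ro x x t1 - E1 t1) = 0
        rw [map_sub, map_sub, i0, p1', sub_self, sub_zero]
      have r2 : E1 ((1 - ro x x - E1) t1) = 0 := by
        show E1 (t1 - ro x x t1 - E1 t1) = 0
        rw [map_sub, map_sub, i1, p1, sub_zero, sub_self]
      rw [ev, r1, r2]; module
    rcases three hE3.2 h3 hx0 hz1 ht1 q1 q2 q3 with h | h | h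
    · linear_combination h
    · exact absurd (by linear_combination h : a⁻¹ = 0) (inv_ne_zero ha)
    · exact absurd (by linear_combination -h : a1 = 0) ha1
  -- E + F2
  have ka2 : a2 = a⁻¹ := by
    have hR : IsPr (E + ro w w) := pr_add hE hF2 m2 m2'
    have hR0 : E + ro w w ≠ 0 := by
      intro h
      have : E w + ro w w w = 0 := congrArg (fun A : H →L[ℂ] H => A w) h
      rw [hEw, hF2w, zero_add] at this
      exact hw0 this
    have hR1 : E + ro w w ≠ 1 := by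
      intro h
      exact nrk2 w hw (by rw [← h]; abel)
    obtain ⟨a3, b3, E3, _, hE3, _, _, h3⟩ := h5 H Φ.symm hs _ hR hR0 hR1
    have ev : ∀ y, Φ.symm (E + ro w w) y = a⁻¹ • ro x x y - k • y + (a2 • E2 y + b2 • y) := by
      intro y
      rw [map_add, hΦE, he2]; rfl
    have q1 : Φ.symm (E + ro w w) x = (a⁻¹ - k + b2) • x := by
      rw [ev, hPx, hE2x]; module
    have q2 : Φ.symm (E + ro w w) (E2 z2) = (-k + a2 + b2) • E2 z2 := by
      rw [ev, p2', i2]; module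
    have q3 : Φ.symm (E + ro w w) ((1 - ro x x - E2) t2) = (-k + b2) • ((1 - ro x x - E2) t2) := by
      have r1 : ro x x ((1 - ro x x - E2) t2) = 0 := by
        show ro x x (t2 - ro x x t2 - E2 t2) = 0
        rw [map_sub, map_sub, i0, p2', sub_self, sub_zero]
      have r2 : E2 ((1 - ro x x - E2) t2) = 0 := by
        show E2 (t2 - ro x x t2 - E2 t2) = 0
        rw [map_sub, map_sub, i2, p2, sub_zero, sub_self]
      rw [ev, r1, r2]; module
    rcases three hE3.2 h3 hx0 hz2 ht2 q1 q2 q3 with h | h | h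
    · linear_combination -h
    · exact absurd (by linear_combination h : a⁻¹ = 0) (inv_ne_zero ha)
    · exact absurd (by linear_combination h : a2 = 0) ha2
  have hai : a⁻¹ ≠ 0 := inv_ne_zero ha
  -- F1 + F2
  have kD : (∀ z, E1 z = E1 (E2 z)) ∨ (∀ z, E2 z = E2 (E1 z)) := by
    by_contra hD
    push Not at hD
    obtain ⟨⟨y1, hy1⟩, ⟨y2, hy2⟩⟩ := hD
    have hy1' : E1 y1 - E1 (E2 y1) ≠ 0 := sub_ne_zero.mpr hy1
    have hy2' : E2 y2 - E2 (E1 y2) ≠ 0 := sub_ne_zero.mpr hy2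
    have hR : IsPr (ro v v + ro w w) := pr_add hF1 hF2 m3 m3'
    have hR0 : ro v v + ro w w ≠ 0 := by
      intro h
      have : ro v v w + ro w w w = 0 := congrArg (fun A : H →L[ℂ] H => A w) h
      rw [hF1w, hF2w, zero_add] at this
      exact hw0 this
    have hR1 : ro v v + ro w w ≠ 1 := by
      intro h
      refine nrk1 v hv ?_
      have e : E * (ro v v + ro w w) = E * 1 := by rw [h]
      rw [mul_add, m1, m2, mul_one, add_zero] at e
      exact e.symm
    obtain ⟨a3, b3, E3, _, hE3, _, _, h3⟩ := h5 H Φ.symm hs _ hR hR0 hR1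
    have ev : ∀ y, Φ.symm (ro v v + ro w w) y
        = (a1 • E1 y + b1 • y) + (a2 • E2 y + b2 • y) := by
      intro y
      rw [map_add, he1, he2]; rfl
    have q1 : Φ.symm (ro v v + ro w w) x = (b1 + b2) • x := by
      rw [ev, hE1x, hE2x]; module
    have q2 : Φ.symm (ro v v + ro w w) (E1 y1 - E1 (E2 y1))
        = (a1 + b1 + b2) • (E1 y1 - E1 (E2 y1)) := by
      have r1 : E1 (E1 y1 - E1 (E2 y1)) = E1 y1 - E1 (E2 y1) := by
        rw [map_sub, i1, i1]
      have r2 : E2 (E1 y1 - E1 (E2 y1)) = 0 := by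
        rw [map_sub, ← hcomm, ← hcomm, i2, sub_self]
      rw [ev, r1, r2]; module
    have q3 : Φ.symm (ro v v + ro w w) (E2 y2 - E2 (E1 y2))
        = (a2 + b1 + b2) • (E2 y2 - E2 (E1 y2)) := by
      have r1 : E2 (E2 y2 - E2 (E1 y2)) = E2 y2 - E2 (E1 y2) := by
        rw [map_sub, i2, i2]
      have r2 : E1 (E2 y2 - E2 (E1 y2)) = 0 := by
        rw [map_sub, hcomm, hcomm, i1, sub_self]
      rw [ev, r1, r2]; module
    rcases three hE3.2 h3 hx0 hy1' hy2' q1 q2 q3 with h | h | h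
    · exact ha1 (by linear_combination -h)
    · exact ha2 (by linear_combination -h)
    · rw [ka1, ka2] at h
      have : (2 : ℂ) * a⁻¹ = 0 := by linear_combination -h
      rcases mul_eq_zero.mp this with h' | h'
      · exact two_ne_zero h'
      · exact hai h'
  -- E - F1 + F2
  have kE : (∀ z, E1 (E2 z) = 0) ∨
      (∀ z, z - ro x x z - E1 z - E2 z + E1 (E2 z) = 0) := by
    by_contra hD
    push Not at hD
    obtain ⟨⟨y1, hy1⟩, ⟨y2, hy2⟩⟩ := hD
    have hR : IsPr (E - ro v v + ro w w) := by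
      refine pr_add (pr_sub hE hF1 m1 m1') hF2 ?_ ?_
      · rw [sub_mul, m2, m3, sub_zero]
      · rw [mul_sub, m2', m3', sub_zero]
    have hR0 : E - ro v v + ro w w ≠ 0 := by
      intro h
      have : E w - ro v v w + ro w w w = 0 := congrArg (fun A : H →L[ℂ] H => A w) h
      rw [hEw, hF1w, hF2w, sub_zero, zero_add] at this
      exact hw0 this
    have hR1 : E - ro v v + ro w w ≠ 1 := by
      intro h
      have : E v - ro v v v + ro w w v = v := congrArg (fun A : H →L[ℂ] H => A v) h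
      rw [hEv, hF1v, hF2v, sub_self, zero_add] at this
      exact hv0 this.symm
    obtain ⟨a3, b3, E3, _, hE3, _, _, h3⟩ := h5 H Φ.symm hs _ hR hR0 hR1
    have ev : ∀ y, Φ.symm (E - ro v v + ro w w) y
        = a⁻¹ • ro x x y - k • y - (a1 • E1 y + b1 • y) + (a2 • E2 y + b2 • y) := by
      intro y
      rw [map_add, map_sub, hΦE, he1, he2]; rfl
    have q1 : Φ.symm (E - ro v v + ro w w) x = (a⁻¹ - k - b1 + b2) • x := by
      rw [ev, hPx, hE1x, hE2x]; module
    have q2 : Φ.symm (E - ro v v + ro w w) (E1 (E2 y1))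
        = (-k - a1 - b1 + a2 + b2) • (E1 (E2 y1)) := by
      have r2 : E2 (E1 (E2 y1)) = E1 (E2 y1) := by rw [← hcomm, i2]
      rw [ev, p1', i1, r2]; module
    have q3 : Φ.symm (E - ro v v + ro w w) (y2 - ro x x y2 - E1 y2 - E2 y2 + E1 (E2 y2))
        = (-k - b1 + b2) • (y2 - ro x x y2 - E1 y2 - E2 y2 + E1 (E2 y2)) := by
      have r0 : ro x x (y2 - ro x x y2 - E1 y2 - E2 y2 + E1 (E2 y2)) = 0 := by
        rw [map_add, map_sub, map_sub, map_sub, i0, p1', p2', p1']; simp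
      have r1 : E1 (y2 - ro x x y2 - E1 y2 - E2 y2 + E1 (E2 y2)) = 0 := by
        rw [map_add, map_sub, map_sub, map_sub, p1, i1, i1]; simp
      have r2 : E2 (y2 - ro x x y2 - E1 y2 - E2 y2 + E1 (E2 y2)) = 0 := by
        rw [map_add, map_sub, map_sub, map_sub, p2, i2, ← hcomm, ← hcomm, i2]; simp
      rw [ev, r0, r1, r2]; module
    rcases three hE3.2 h3 hx0 hy1 hy2 q1 q2 q3 with h | h | h
    · rw [ka1, ka2] at h
      exact hai (by linear_combination -h)
    · exact hai (by linear_combination h)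
    · rw [ka1, ka2] at h
      have : (2 : ℂ) * a⁻¹ = 0 := by linear_combination h
      rcases mul_eq_zero.mp this with h' | h'
      · exact two_ne_zero h'
      · exact hai h'
  rcases kD with d | d <;> rcases kE with e | e
  · exact hE10 (by ext z; rw [d z, e z]; rfl)
  · refine n2 ?_
    ext z
    show z - ro x x z - E2 z = 0
    rw [← e z, ← d z]
    abel
  · exact hE20 (by ext z; rw [d z, ← hcomm, e z]; rfl)
  · refine n1 ?_
    ext z
    show z - ro x x z - E1 z = 0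
    rw [← e z, hcomm, ← d z]
    abel

end Pool.Agent.R945.AP
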