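import Pool.Agent.R945.AP.Stm

/-!
# Aluthge transforms of rank one plus self-adjoint operators
-/

set_option autoImplicit false

open scoped InnerProductSpace ComplexConjugate

namespace Pool.Agent.R945.AP

universe u

set_option linter.deprecated false
set_option linter.unusedSectionVars false

namespace RK

open Pool.Agent.R884.AL

variable {H : Type u} [NormedAddCommGroup H] [InnerProductSpace ℂ H] [CompleteSpace H]

/-- intertwining passes to the functional calculus -/
lemma intw {a b X : H →L[ℂ] H} (ha : IsSelfAdjoint a) (hb : IsSelfAdjoint b) (h : a * X = X * b)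
    {f : ℝ → ℝ} (hf : Continuous f) : cfc f a * X = X * cfc f b := by
  have hpoly : ∀ p : Polynomial ℝ, Polynomial.aeval a p * X = X * Polynomial.aeval b p := by
    intro p
    induction p using Polynomial.induction_on' with
    | add p q hp hq => rw [map_add, map_add, add_mul, mul_add, hp, hq]
    | monomial n c =>
      rw [Polynomial.aeval_monomial, Polynomial.aeval_monomial]
      have hn : ∀ n : ℕ, a ^ n * X = X * b ^ n := by
        intro n
        induction n with
        | zero => simp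
        | succ n ih => rw [pow_succ, pow_succ, mul_assoc, h, ← mul_assoc, ih, mul_assoc]
      rw [mul_assoc, hn, ← mul_assoc, ← mul_assoc, Algebra.commutes]
  set M : ℝ := max (‖a‖ * ‖(1 : H →L[ℂ] H)‖) (‖b‖ * ‖(1 : H →L[ℂ] H)‖) with hM
  have key : ∀ ε : ℝ, 0 < ε → ‖cfc f a * X - X * cfc f b‖ ≤ ε * (2 * ‖X‖) := by
    intro ε hε
    obtain ⟨p, hp⟩ := exists_polynomial_near_of_continuousOn (-M) M f hf.continuousOn ε hε
    have hA : ∀ c : H →L[ℂ] H, IsSelfAdjoint c → ‖c‖ * ‖(1 : H →L[ℂ] H)‖ ≤ M →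
        ‖cfc f c - Polynomial.aeval c p‖ ≤ ε := by
      intro c hc hcM
      rw [← cfc_polynomial p c hc, ← cfc_sub (a := c) f (fun x => p.eval x)
        hf.continuousOn p.continuous.continuousOn]
      refine norm_cfc_le hε.le ?_
      intro x hx
      have h1 := spectrum.norm_le_norm_mul_of_mem hx
      have h2 : |x| ≤ M := h1.trans hcM
      have h3 := hp x (abs_le.1 h2)
      rw [Real.norm_eq_abs, abs_sub_comm]
      exact h3.le
    have h1 : cfc f a * X - X * cfc f b =
        (cfc f a - Polynomial.aeval a p) * X - X * (cfc f b - Polynomial.aeval b p) := by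
      rw [sub_mul, mul_sub, hpoly]; abel
    rw [h1]
    calc ‖(cfc f a - Polynomial.aeval a p) * X - X * (cfc f b - Polynomial.aeval b p)‖
        ≤ ‖(cfc f a - Polynomial.aeval a p) * X‖ + ‖X * (cfc f b - Polynomial.aeval b p)‖ :=
          norm_sub_le _ _
      _ ≤ ‖cfc f a - Polynomial.aeval a p‖ * ‖X‖ + ‖X‖ * ‖cfc f b - Polynomial.aeval b p‖ :=
          add_le_add (norm_mul_le _ _) (norm_mul_le _ _)
      _ ≤ ε * ‖X‖ + ‖X‖ * ε := by
          gcongr
          · exact hA a ha (le_max_left _ _)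
          · exact hA b hb (le_max_right _ _)
      _ = ε * (2 * ‖X‖) := by ring
  have h0 : ‖cfc f a * X - X * cfc f b‖ ≤ 0 := by
    by_contra hlt
    rw [not_le] at hlt
    have h2 : 0 < 2 * ‖X‖ + 1 := by positivity
    have h3 := key (‖cfc f a * X - X * cfc f b‖ / (2 * (2 * ‖X‖ + 1))) (by positivity)
    have h4 : ‖cfc f a * X - X * cfc f b‖ / (2 * (2 * ‖X‖ + 1)) * (2 * ‖X‖) ≤
        ‖cfc f a * X - X * cfc f b‖ / 2 := by
      rw [div_mul_eq_mul_div, div_le_div_iff₀ (by positivity) (by norm_num)]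
      nlinarith
    linarith
  exact sub_eq_zero.1 (norm_le_zero_iff.1 h0)

lemma pw_intw {a b X : H →L[ℂ] H} (ha : IsSelfAdjoint a) (hb : IsSelfAdjoint b)
    (h : a * X = X * b) {l : ℝ} (hl : 0 ≤ l) : pw a l * X = X * pw b l :=
  intw ha hb h (Real.continuous_rpow_const hl)

/-- the polar part -/
lemma pol_spec (T : H →L[ℂ] H) : IsPolarPart T (pol T) :=
  (existsUnique_polarPart T).choose_spec.1

lemma pw_mul (P : H →L[ℂ] H) (hP : 0 ≤ P) {l : ℝ} (hl : 0 < l) (hl1 : l ≤ 1) :
    pw P l * pw P (1 - l) = P := by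
  unfold pw
  rw [← cfc_mul _ _ P (Real.continuous_rpow_const hl.le).continuousOn
    (Real.continuous_rpow_const (by linarith)).continuousOn]
  conv_rhs => rw [← cfc_id ℝ P hP.isSelfAdjoint]
  apply cfc_congr
  intro t ht
  have ht0 : 0 ≤ t := spectrum_nonneg_of_nonneg hP ht
  simp only [id]
  rcases ht0.eq_or_lt with h | h
  · rw [← h, Real.zero_rpow hl.ne', zero_mul]
  · rw [← Real.rpow_add h]
    simp

/-- for a self-adjoint operator, the polar part commutes with the absolute value -/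
lemma pol_comm {A : H →L[ℂ] H} (hA : IsSelfAdjoint A) :
    CFC.abs A * pol A = pol A * CFC.abs A := by
  have hW := pol_spec A
  set B := CFC.abs A with hB
  set W := pol A with hWd
  have hBsa : IsSelfAdjoint B := (CFC.abs_nonneg A).isSelfAdjoint
  have hcomm : B * A = A * B := (CFC.commute_abs_self A hA.isStarNormal).eq
  have h1 : (B * W - W * B) * B = 0 := by
    rw [sub_mul, mul_assoc, hW.mul_abs, hcomm, sub_self]
  have h2 : ∀ x, B x = 0 → (B * W - W * B) x = 0 := by
    intro x hx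
    have h3 : W x = 0 := (hW.ker_eq x).2 ((abs_ker A x).1 hx)
    rw [ContinuousLinearMap.sub_apply, ContinuousLinearMap.mul_apply,
      ContinuousLinearMap.mul_apply, hx, h3, map_zero, map_zero, sub_self]
  exact sub_eq_zero.1 (eq_zero_of_mul hBsa h1 h2)

lemma alu_sa {A : H →L[ℂ] H} (hA : IsSelfAdjoint A) {l : ℝ} (hl : 0 < l) (hl1 : l ≤ 1) :
    pw (CFC.abs A) l * pol A * pw (CFC.abs A) (1 - l) = A := by
  have hBsa : IsSelfAdjoint (CFC.abs A) := (CFC.abs_nonneg A).isSelfAdjoint
  rw [pw_intw hBsa hBsa (pol_comm hA) hl.le, mul_assoc, pw_mul _ (CFC.abs_nonneg A) hl hl1,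
    (pol_spec A).mul_abs]

lemma star_ro (x y : H) : star (ro x y) = ro y x := by
  ext v
  refine ext_inner_right ℂ fun w => ?_
  rw [inner_star_left, ro_apply, ro_apply, inner_smul_right, inner_smul_left, inner_conj_symm]
  ring

lemma mul_ro (A : H →L[ℂ] H) (x y : H) : A * ro x y = ro (A x) y := by
  ext v
  simp [ContinuousLinearMap.mul_apply]

lemma ro_mul (A : H →L[ℂ] H) (x y : H) : ro x y * A = ro x (star A y) := by
  ext v
  rw [ContinuousLinearMap.mul_apply, ro_apply, ro_apply, inner_star_left]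

lemma ro_zero_left (y : H) : ro (0 : H) y = 0 := by
  ext v; simp

lemma ro_zero_right (y : H) : ro y (0 : H) = 0 := by
  ext v; simp

/-- the case of a unit vector -/
theorem main {l : ℝ} (hl : 0 < l) (hl1 : l ≤ 1) {A : H →L[ℂ] H} {x e : H}
    (hA : IsSelfAdjoint A) (hx : A x = 0) (he : A e = 0) (hn : ‖e‖ = 1) :
    alu l (ro x e + A) = ⟪e, x⟫_ℂ • ro e e + A := by
  set T := ro x e + A with hT
  set Q := ro e e with hQ
  set B := CFC.abs A with hB
  set P := CFC.abs T with hP
  set V := pol T with hV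
  set W := pol A with hW
  have hVs : IsPolarPart T V := pol_spec T
  have hWs : IsPolarPart A W := pol_spec A
  have hBsa : IsSelfAdjoint B := (CFC.abs_nonneg A).isSelfAdjoint
  have hPsa : IsSelfAdjoint P := (CFC.abs_nonneg T).isSelfAdjoint
  have hBe : B e = 0 := (abs_ker A e).2 he
  have hBx : B x = 0 := (abs_ker A x).2 hx
  have hee : ⟪e, e⟫_ℂ = 1 := by
    rw [inner_self_eq_norm_sq_to_K, hn]; simp
  have hQsa : IsSelfAdjoint Q := star_ro e e
  have hQQ : Q * Q = Q := by
    rw [hQ, mul_ro, ro_apply, hee, one_smul]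
  have hBQ : B * Q = 0 := by rw [hQ, mul_ro, hBe, ro_zero_left]
  have hQB : Q * B = 0 := by rw [hQ, ro_mul, hBsa.star_eq, hBe, ro_zero_right]
  have hAQ : A * Q = 0 := by rw [hQ, mul_ro, he, ro_zero_left]
  have hQA : Q * A = 0 := by rw [hQ, ro_mul, hA.star_eq, he, ro_zero_right]
  have hTe : T e = x := by
    rw [hT, ContinuousLinearMap.add_apply, ro_apply, hee, one_smul, he, add_zero]
  -- the absolute value
  have hTT : star T * T = ((‖x‖ : ℂ) ^ 2) • Q + A * A := by
    rw [hT, star_add, star_ro, hA.star_eq, add_mul, mul_add, mul_add, mul_ro, ro_apply, mul_ro,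
      hx, ro_zero_left, zero_add, ro_mul, hA.star_eq, hx, ro_zero_right, add_zero,
      inner_self_eq_norm_sq_to_K]
    congr 1
    ext v
    simp [hQ, smul_smul, mul_comm]
  have hBB : B * B = A * A := by
    rw [hB, CFC.abs_mul_abs, hA.star_eq]
  have hPeq : P = (‖x‖ : ℝ) • Q + B := by
    have h0 : 0 ≤ (‖x‖ : ℝ) • Q + B := by
      refine add_nonneg (smul_nonneg (norm_nonneg _) ?_) (CFC.abs_nonneg A)
      have : Q = star Q * Q := by rw [hQsa.star_eq, hQQ]
      rw [this]
      exact star_mul_self_nonneg Q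
    have h1 : ((‖x‖ : ℝ) • Q + B) * ((‖x‖ : ℝ) • Q + B) = star T * T := by
      rw [hTT, add_mul, mul_add, mul_add, smul_mul_smul_comm, hQQ, smul_mul_assoc, hQB, smul_zero,
        add_zero, mul_smul_comm, hBQ, smul_zero, zero_add, hBB]
      congr 1
      rw [← Complex.coe_smul]
      push_cast
      rw [sq]
    rw [hP, CFC.abs]
    exact CFC.sqrt_unique h1 h0
  have hPQ : P * Q = Q * (algebraMap ℝ (H →L[ℂ] H) ‖x‖) := by
    rw [hPeq, add_mul, hBQ, add_zero, smul_mul_assoc, hQQ, Algebra.algebraMap_eq_smul_one,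
      mul_smul_comm, mul_one]
  have hPQ' : P * (1 - Q) = (1 - Q) * B := by
    rw [hPeq, mul_sub, mul_one, add_mul, hBQ, add_zero, smul_mul_assoc, hQQ, sub_mul, one_mul, hQB,
      sub_zero]
    abel
  have hlsa : IsSelfAdjoint (algebraMap ℝ (H →L[ℂ] H) ‖x‖) := by
    rw [Algebra.algebraMap_eq_smul_one]
    exact IsSelfAdjoint.smul (IsSelfAdjoint.all _) (IsSelfAdjoint.one _)
  have hpQ : ∀ s : ℝ, 0 ≤ s → pw P s * Q = (‖x‖ ^ s : ℝ) • Q := by
    intro s hs
    rw [pw_intw hPsa hlsa hPQ hs]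
    unfold pw
    rw [cfc_algebraMap, Algebra.algebraMap_eq_smul_one, mul_smul_comm, mul_one]
  have hpQ' : ∀ s : ℝ, 0 ≤ s → pw P s * (1 - Q) = (1 - Q) * pw B s := by
    intro s hs
    exact pw_intw hPsa hBsa hPQ' hs
  -- the polar part
  have hVQ' : V * (1 - Q) = W * (1 - Q) := by
    have hVB : V * B = A := by
      have h1 : V * (P * (1 - Q)) = T * (1 - Q) := by
        rw [← mul_assoc, hVs.mul_abs]
      rw [hPQ', sub_mul, one_mul, hQB, sub_zero] at h1
      rw [h1, hT, add_mul, mul_sub, mul_sub, mul_one, mul_one, hAQ, sub_zero, hQ, mul_ro,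
        ro_apply, hee, one_smul, sub_self, zero_add]
    have hWB : W * B = A := hWs.mul_abs
    have h1 : (V * (1 - Q) - W * (1 - Q)) * B = 0 := by
      rw [sub_mul, mul_assoc, mul_assoc, sub_mul, one_mul, hQB, sub_zero, hVB, hWB, sub_self]
    have h2 : ∀ z, B z = 0 → (V * (1 - Q) - W * (1 - Q)) z = 0 := by
      intro z hz
      have hz1 : A ((1 - Q) z) = 0 := by
        rw [← ContinuousLinearMap.mul_apply, mul_sub, mul_one, hAQ, sub_zero]
        exact (abs_ker A z).1 hz
      have hz2 : T ((1 - Q) z) = 0 := by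
        rw [hT, ContinuousLinearMap.add_apply, hz1, add_zero, ← ContinuousLinearMap.mul_apply,
          mul_sub, mul_one, hQ, mul_ro, ro_apply, hee, one_smul, sub_self]
        rfl
      rw [ContinuousLinearMap.sub_apply, ContinuousLinearMap.mul_apply,
        ContinuousLinearMap.mul_apply, (hVs.ker_eq _).2 hz2, (hWs.ker_eq _).2 hz1, sub_self]
    exact sub_eq_zero.1 (eq_zero_of_mul hBsa h1 h2)
  have hWQ : W * Q = 0 := by
    rw [hQ, mul_ro, (hWs.ker_eq e).2 he, ro_zero_left]
  have hQW : Q * W = 0 := by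
    have h1 : (Q * W) * B = 0 := by
      rw [mul_assoc, hWs.mul_abs, hQA]
    refine eq_zero_of_mul hBsa h1 ?_
    intro z hz
    rw [ContinuousLinearMap.mul_apply, (hWs.ker_eq z).2 ((abs_ker A z).1 hz), map_zero]
  -- the second term
  have hl' : 0 ≤ 1 - l := by linarith
  have hQpB : ∀ s : ℝ, 0 ≤ s → (1 - Q) * pw B s = pw B s * (1 - Q) := by
    intro s hs
    refine (pw_intw hBsa hBsa ?_ hs).symm
    rw [mul_sub, sub_mul, hBQ, hQB, mul_one, one_mul]
  have second : pw P l * V * ((1 - Q) * pw B (1 - l)) = A := by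
    have h1 : pw P l * V * ((1 - Q) * pw B (1 - l)) =
        pw P l * ((1 - Q) * W) * pw B (1 - l) := by
      rw [← mul_assoc, mul_assoc (pw P l) V, hVQ', mul_sub, mul_one, hWQ, sub_zero, sub_mul,
        one_mul, hQW, sub_zero]
    rw [h1, ← mul_assoc, hpQ' l hl.le, mul_assoc, mul_assoc, ← mul_assoc (pw B l)]
    rw [alu_sa hA hl hl1, sub_mul, one_mul, hQA, sub_zero]
  -- the first term
  have hVe : x ≠ 0 → V e = (‖x‖ : ℂ)⁻¹ • x := by
    intro hx0
    have h1 : V (P e) = T e := by rw [← ContinuousLinearMap.mul_apply, hVs.mul_abs]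
    have h2 : P e = (‖x‖ : ℂ) • e := by
      rw [hPeq, ContinuousLinearMap.add_apply, hBe, add_zero, ContinuousLinearMap.smul_apply, hQ,
        ro_apply, hee, one_smul, ← Complex.coe_smul]
    rw [h2, map_smul, hTe] at h1
    have h3 : (‖x‖ : ℂ) ≠ 0 := by
      exact_mod_cast (norm_ne_zero_iff.2 hx0)
    rw [eq_inv_smul_iff₀ h3]
    exact h1
  have hBlx : pw B l x = 0 := by
    have h1 : B * ro x e = ro x e * (algebraMap ℝ (H →L[ℂ] H) 0) := by
      rw [mul_ro, hBx, ro_zero_left, map_zero, mul_zero]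
    have h2 := pw_intw hBsa (by rw [map_zero]; exact IsSelfAdjoint.zero _) h1 hl.le
    unfold pw at h2
    rw [cfc_algebraMap, Real.zero_rpow hl.ne', map_zero, mul_zero] at h2
    have h3 := congrArg (fun Z : H →L[ℂ] H => Z e) h2
    simp only [ContinuousLinearMap.mul_apply, ro_apply, hee, one_smul,
      ContinuousLinearMap.zero_apply] at h3
    exact h3
  have hPlx : pw P l x = ((‖x‖ ^ l : ℝ) : ℂ) • ⟪e, x⟫_ℂ • e := by
    have h1 : pw P l x = (pw P l * Q) x + (pw P l * (1 - Q)) x := by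
      rw [← ContinuousLinearMap.add_apply, ← mul_add]
      congr 2
      abel_nf
      simp
    rw [h1, hpQ l hl.le, hpQ' l hl.le, ContinuousLinearMap.mul_apply, hBlx, map_zero, add_zero,
      ContinuousLinearMap.smul_apply, hQ, ro_apply, ← Complex.coe_smul]
  have first : pw P l * V * ((‖x‖ ^ (1 - l) : ℝ) • Q) = ⟪e, x⟫_ℂ • Q := by
    rcases eq_or_ne x 0 with h0 | h0
    · have h1 : V e = 0 := by rw [hVs.ker_eq, hTe, h0]
      rw [mul_smul_comm, mul_assoc, hQ, mul_ro, h1, ro_zero_left, mul_zero, smul_zero, h0,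
        inner_zero_right, zero_smul]
    · have hx0 : 0 < ‖x‖ := norm_pos_iff.2 h0
      rw [mul_smul_comm, mul_assoc, hQ, mul_ro, mul_ro, hVe h0, map_smul, hPlx]
      ext v
      simp only [ContinuousLinearMap.smul_apply, ro_apply]
      rw [← Complex.coe_smul]
      simp only [smul_smul]
      congr 1
      have h2 : ((‖x‖ ^ (1 - l) : ℝ) : ℂ) * ((‖x‖ : ℂ)⁻¹ * ((‖x‖ ^ l : ℝ) : ℂ)) = 1 := by
        have h3 : ‖x‖ ^ (1 - l) * (‖x‖⁻¹ * ‖x‖ ^ l) = 1 := by
          rw [mul_left_comm, ← Real.rpow_add hx0]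
          simp [hx0.ne']
        exact_mod_cast h3
      linear_combination (⟪e, v⟫_ℂ * ⟪e, x⟫_ℂ) * h2
  -- conclusion
  unfold alu
  rw [← hP, ← hV]
  have h1 : pw P (1 - l) = (‖x‖ ^ (1 - l) : ℝ) • Q + (1 - Q) * pw B (1 - l) := by
    rw [← hpQ _ hl', ← hpQ' _ hl', ← mul_add]
    simp
  rw [h1, mul_add, first, second]

end RK

open RK

theorem t_RK : S_RK.{u} := by
  intro H _ _ _ l hl hl1 A x y hA hx hy hy0
  have hn : ‖y‖ ≠ 0 := norm_ne_zero_iff.2 hy0
  have hnc : (‖y‖ : ℂ) ≠ 0 := by exact_mod_cast hn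
  set e : H := (‖y‖ : ℂ)⁻¹ • y with he
  have hen : ‖e‖ = 1 := by
    rw [he, norm_smul, norm_inv, Complex.norm_real, norm_norm, inv_mul_cancel₀ hn]
  have hAe : A e = 0 := by rw [he, map_smul, hy, smul_zero]
  have hAx : A ((‖y‖ : ℂ) • x) = 0 := by rw [map_smul, hx, smul_zero]
  have h := main hl hl1 hA hAx hAe hen
  have h1 : ro ((‖y‖ : ℂ) • x) e = ro x y := by
    ext v
    rw [ro_apply, ro_apply, he, inner_smul_left, smul_smul, map_inv₀, Complex.conj_ofReal]
    congr 1
    field_simp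
  have h2 : ⟪e, (‖y‖ : ℂ) • x⟫_ℂ • ro e e = (⟪y, x⟫_ℂ / ((‖y‖ : ℂ) ^ 2)) • ro y y := by
    ext v
    simp only [ContinuousLinearMap.smul_apply, ro_apply, he, inner_smul_left, inner_smul_right,
      map_inv₀, Complex.conj_ofReal, smul_smul]
    congr 1
    field_simp
  rw [h1, h2] at h
  exact h

end Pool.Agent.R945.AP
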