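import Pool.Agent.R945.AP.SQbase

/-!
# Piece SQA (project AP): the mean-Aluthge transform kills exactly the square-zero operators
-/

set_option autoImplicit false

open scoped InnerProductSpace ComplexConjugate

namespace Pool.Agent.R945.AP

universe u

namespace SQA

open Pool.Agent.R884.AL SQB

variable {H : Type u} [NormedAddCommGroup H] [InnerProductSpace ℂ H] [CompleteSpace H]

theorem mt_zero (S : H →L[ℂ] H) : mt S = 0 ↔ S = 0 := by
  constructor
  · intro h
    have h0 : S + CFC.abs S * pol S = 0 := (smul_eq_zero.1 h).resolve_left (by norm_num)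
    have hB := CFC.abs_nonneg S
    have hs := star_pol_mul_abs S
    have hS := (pol_spec S).mul_abs
    have h1 : CFC.abs S + star (pol S) * CFC.abs S * pol S = 0 := by
      have h2 : star (pol S) * (S + CFC.abs S * pol S) = 0 := by rw [h0, mul_zero]
      have h3 : star (pol S) * S = CFC.abs S := by
        conv_rhs => rw [← hs]
        rw [mul_assoc, hS]
      rw [mul_add, h3, ← mul_assoc] at h2
      exact h2
    have h4 : CFC.abs S = 0 := by
      refine eq_of_re hB.isSelfAdjoint (IsSelfAdjoint.zero _) fun x => ?_
      have h5 : ⟪(CFC.abs S + star (pol S) * CFC.abs S * pol S) x, x⟫_ℂ = 0 := by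
        rw [h1]; simp
      have h6 : (star (pol S) * CFC.abs S * pol S) x = star (pol S) (CFC.abs S (pol S x)) := rfl
      rw [add_apply, h6, inner_add_left, inner_star_left] at h5
      have h7 := congrArg Complex.re h5
      rw [Complex.add_re, Complex.zero_re] at h7
      have h8 := re_inner_nonneg hB x
      have h9 := re_inner_nonneg hB (pol S x)
      simp only [zero_apply, inner_zero_left, Complex.zero_re]
      linarith
    rw [← hS, h4, mul_zero]
  · intro h
    subst h
    unfold mt
    rw [CFC.abs_zero, zero_mul, add_zero, smul_zero]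

end SQA

open Pool.Agent.R884.AL SQB SQA in
theorem t_SQA : S_SQA.{u} := by
  intro H _ _ _ T
  have hP : 0 ≤ CFC.abs T := CFC.abs_nonneg T
  unfold mA
  rw [mt_zero, sq_zero_iff]
  set P := CFC.abs T with hPdef
  set V := pol T with hV
  have halu : alu (1 / 2) T = pw P (1 / 2) * V * pw P (1 / 2) := by
    unfold alu
    rw [show (1 : ℝ) - 1 / 2 = 1 / 2 by norm_num]
  rw [halu]
  have e : P = pw P (1 / 2) * pw P (1 / 2) := by
    rw [← pw_add hP (by norm_num) (by norm_num), add_halves, pw_one hP]
  constructor
  · intro h
    calc P * V * P = (pw P (1 / 2) * pw P (1 / 2)) * V * (pw P (1 / 2) * pw P (1 / 2)) := by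
          rw [← e]
      _ = pw P (1 / 2) * (pw P (1 / 2) * V * pw P (1 / 2)) * pw P (1 / 2) := by noncomm_ring
      _ = 0 := by rw [h, mul_zero, zero_mul]
  · intro h
    exact sandwich hP h (by norm_num) (by norm_num)

end Pool.Agent.R945.AP
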