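import Pool.Agent.R945.AP.SQbase

/-!
# Piece SQM (project AP): `M_l`, `0 < l ≤ 1/2`, kills exactly the square-zero operators
-/

set_option autoImplicit false

open scoped InnerProductSpace ComplexConjugate

namespace Pool.Agent.R945.AP

universe u

namespace SQM

open Pool.Agent.R884.AL SQB

variable {H : Type u} [NormedAddCommGroup H] [InnerProductSpace ℂ H] [CompleteSpace H]

theorem two_smul_zero {Z : H →L[ℂ] H} (h : Z + Z = 0) : Z = 0 := by
  have h2 : (2 : ℂ) • Z = 0 := by rw [two_smul]; exact h
  exact (smul_eq_zero.1 h2).resolve_left two_ne_zero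

/-- `W K = - K W` with `K ≥ 0` implies `K W = 0` -/
theorem anti {W K : H →L[ℂ] H} (hK : 0 ≤ K) (h : W * K + K * W = 0) : K * W = 0 := by
  have h1 : W * K = -(K * W) := eq_neg_of_add_eq_zero_left h
  have h2 : Commute (K * K) W := by
    show K * K * W = W * (K * K)
    calc K * K * W = -(K * (-(K * W))) := by noncomm_ring
      _ = -(K * (W * K)) := by rw [← h1]
      _ = -(K * W) * K := by noncomm_ring
      _ = (W * K) * K := by rw [← h1]
      _ = W * (K * K) := by rw [mul_assoc]
  have h3 : Commute K W := by
    have h4 := h2.cfc_nnreal NNReal.sqrt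
    rwa [← CFC.sqrt_eq_cfc, CFC.sqrt_mul_self K hK] at h4
  have h5 : K * W + K * W = 0 := by
    have h6 : W * K = K * W := h3.eq.symm
    rw [h6] at h
    exact h
  exact two_smul_zero h5

end SQM

open Pool.Agent.R884.AL SQB SQM in
theorem t_SQM : S_SQM.{u} := by
  intro H _ _ _ l hl0 hl1 T
  have hP : 0 ≤ CFC.abs T := CFC.abs_nonneg T
  set P := CFC.abs T with hPdef
  set V := pol T with hV
  have hML : ML l T = (2⁻¹ : ℂ) • (pw P l * V * pw P (1 - l) + pw P (1 - l) * V * pw P l) := by
    unfold ML alu
    rw [sub_sub_cancel]
  rw [sq_zero_iff, hML]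
  have h1l : 0 < 1 - l := by linarith
  constructor
  · intro h
    have h0 : pw P l * V * pw P (1 - l) + pw P (1 - l) * V * pw P l = 0 :=
      (smul_eq_zero.1 h).resolve_left (by norm_num)
    set K := pw P (1 - 2 * l) with hK
    have hK0 : 0 ≤ K := pw_nonneg hP _
    have e1 : pw P (1 - l) = pw P l * K := by
      rw [hK, ← pw_add hP hl0.le (by linarith)]
      congr 1
      ring
    have e1' : pw P (1 - l) = K * pw P l := by
      rw [hK, ← pw_add hP (by linarith) hl0.le]
      congr 1
      ring
    have e2 : P = pw P (1 - l) * pw P l := by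
      rw [← pw_add hP h1l.le hl0.le, sub_add_cancel, pw_one hP]
    have e2' : P = pw P l * pw P (1 - l) := by
      rw [← pw_add hP hl0.le h1l.le, add_sub_cancel, pw_one hP]
    have e3 : P * K = K * P := by
      have a1 : P * K = pw P (1 + (1 - 2 * l)) := by
        rw [pw_add hP zero_le_one (by linarith), pw_one hP]
      have a2 : K * P = pw P ((1 - 2 * l) + 1) := by
        rw [pw_add hP (by linarith) zero_le_one, pw_one hP]
      rw [a1, a2, add_comm]
    have h2 : pw P l * (V * K + K * V) * pw P l = 0 := by
      have a3 : pw P l * (V * K + K * V) * pw P l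
          = pw P l * V * (K * pw P l) + (pw P l * K) * V * pw P l := by noncomm_ring
      rw [a3, ← e1, ← e1', h0]
    have h3 : P * (V * K + K * V) * P = 0 := by
      have a4 : P * (V * K + K * V) * P
          = pw P (1 - l) * (pw P l * (V * K + K * V) * pw P l) * pw P (1 - l) := by
        conv_lhs => rw [show P * (V * K + K * V) * P = P * ((V * K + K * V) * P) by
          rw [mul_assoc]]
        calc P * ((V * K + K * V) * P)
            = (pw P (1 - l) * pw P l) * ((V * K + K * V) * (pw P l * pw P (1 - l))) := by
              rw [← e2, ← e2']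
          _ = pw P (1 - l) * (pw P l * (V * K + K * V) * pw P l) * pw P (1 - l) := by
              noncomm_ring
      rw [a4, h2, mul_zero, zero_mul]
    have h4 : (P * V * P) * K + K * (P * V * P) = 0 := by
      have a5 : (P * V * P) * K + K * (P * V * P) = P * V * (P * K) + (K * P) * V * P := by
        noncomm_ring
      rw [a5, e3, ← e3]
      have a6 : P * V * (P * K) + P * K * V * P = P * (V * K + K * V) * P := by
        have a8 : P * V * (P * K) = P * V * (K * P) := by rw [e3]
        rw [a8]
        noncomm_ring
      have a7 : P * V * (P * K) + P * K * V * P = 0 := by rw [a6, h3]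
      exact a7
    have h5 := anti hK0 h4
    rcases hl1.lt_or_eq with hlt | heq
    · -- `K` is injective where `P` is
      have h6 : P * (P * V * P) = 0 :=
        left_ker (fun v hv => ker_of_pw hP (by linarith) hv) h5
      have h7 : P * P * (V * P) = 0 := by
        have : P * P * (V * P) = P * (P * V * P) := by noncomm_ring
        rw [this, h6]
      have h8 : P * (V * P) = 0 := by
        refine left_ker (Q := P * P) (fun v hv => ?_) h7
        rw [mul_apply_eq_comp] at hv
        exact sq_ker hP.isSelfAdjoint hv
      rw [mul_assoc]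
      exact h8
    · have h6 : K = 1 := by
        rw [hK, heq]
        norm_num
        exact pw_zero hP
      rwa [h6, one_mul] at h5
  · intro h
    rw [sandwich hP h hl0 h1l, sandwich hP h h1l hl0, add_zero, smul_zero]

end Pool.Agent.R945.AP
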