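import Pool.Agent.R945.AP.Stm

/-!
# Project AP: `M_0` and square-zero operators
-/

set_option autoImplicit false

open scoped InnerProductSpace ComplexConjugate

namespace Pool.Agent.R945.AP

universe u

namespace SQZ

variable {H : Type u} [NormedAddCommGroup H] [InnerProductSpace ℂ H] [CompleteSpace H]

theorem pol_spec (T : H →L[ℂ] H) : Pool.Agent.R884.AL.IsPolarPart T (pol T) :=
  (Pool.Agent.R884.AL.existsUnique_polarPart T).choose_spec.1

theorem pw_zero (P : H →L[ℂ] H) (hP : IsSelfAdjoint P) : pw P 0 = 1 := by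
  unfold pw
  have h : (fun t : ℝ => t ^ (0 : ℝ)) = fun _ => (1 : ℝ) := by
    funext t
    exact Real.rpow_zero t
  rw [h]
  exact cfc_const_one ℝ P

theorem pw_one (P : H →L[ℂ] H) (hP : IsSelfAdjoint P) : pw P 1 = P := by
  unfold pw
  have h : (fun t : ℝ => t ^ (1 : ℝ)) = fun t => t := by
    funext t
    exact Real.rpow_one t
  rw [h]
  exact cfc_id' ℝ P

theorem abs_sa (T : H →L[ℂ] H) : IsSelfAdjoint (CFC.abs T) := (CFC.abs_nonneg T).isSelfAdjoint

theorem alu_zero (T : H →L[ℂ] H) : alu 0 T = T := by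
  unfold alu
  rw [sub_zero, pw_zero _ (abs_sa T), pw_one _ (abs_sa T), one_mul]
  exact (pol_spec T).mul_abs

theorem alu_one (T : H →L[ℂ] H) : alu 1 T = CFC.abs T * pol T := by
  unfold alu
  rw [sub_self, pw_zero _ (abs_sa T), pw_one _ (abs_sa T), mul_one]

theorem key (T : H →L[ℂ] H) : CFC.abs T * pol T = 0 ↔ T * T = 0 := by
  have hs := pol_spec T
  constructor
  · intro h
    calc T * T = (pol T * CFC.abs T) * (pol T * CFC.abs T) := by rw [hs.mul_abs]
      _ = pol T * (CFC.abs T * pol T) * CFC.abs T := by simp only [mul_assoc]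
      _ = 0 := by rw [h, mul_zero, zero_mul]
  · intro h
    have hP := abs_sa T
    refine Pool.Agent.R884.AL.eq_zero_of_mul hP ?_ ?_
    · ext x
      -- `z = V P x`
      have h1 : T (T x) = 0 := by
        rw [← ContinuousLinearMap.mul_apply, h]
        rfl
      have hTx : ∀ y, T y = pol T (CFC.abs T y) := by
        intro y
        rw [← ContinuousLinearMap.mul_apply, hs.mul_abs]
      have h2 : pol T (CFC.abs T (pol T (CFC.abs T x))) = 0 := by
        rw [← hTx, ← hTx]
        exact h1
      have h3 : CFC.abs T (CFC.abs T (pol T (CFC.abs T x))) = 0 :=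
        (Pool.Agent.R884.AL.abs_ker T _).2 ((hs.ker_eq _).1 h2)
      have h4 : ⟪CFC.abs T (pol T (CFC.abs T x)), CFC.abs T (pol T (CFC.abs T x))⟫_ℂ = 0 := by
        have h5 := Pool.Agent.R884.AL.inner_star_right (CFC.abs T) (pol T (CFC.abs T x))
          (CFC.abs T (pol T (CFC.abs T x)))
        rw [hP.star_eq, h3, inner_zero_right] at h5
        exact h5.symm
      rw [inner_self_eq_zero] at h4
      exact h4
    · intro x hx
      have h1 : pol T x = 0 := (hs.ker_eq x).2 ((Pool.Agent.R884.AL.abs_ker T x).1 hx)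
      rw [ContinuousLinearMap.mul_apply, h1, map_zero]

end SQZ

theorem t_SQZ : S_SQZ.{u} := by
  intro H _ _ _ T
  rw [← SQZ.key]
  unfold ML
  rw [sub_zero, SQZ.alu_zero, SQZ.alu_one]
  constructor
  · intro h
    have h2 := smul_right_injective (H →L[ℂ] H) (inv_ne_zero (two_ne_zero : (2 : ℂ) ≠ 0)) h
    exact add_eq_left.1 h2
  · intro h
    rw [h, add_zero]

end Pool.Agent.R945.AP
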