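import Pool.Agent.R945.AP.Stm

/-!
# Project AP, piece TRIA: triangular blocks and the mean-Aluthge transform (subtask 5635, helper55)
-/

set_option autoImplicit false

open scoped InnerProductSpace ComplexConjugate

namespace Pool.Agent.R945.AP

universe u

namespace PTRIA

open Pool.Agent.R884.AL

variable {H : Type u} [NormedAddCommGroup H] [InnerProductSpace ℂ H] [CompleteSpace H]

/-- the matrix of the compression to the span of `h1`, `h2` -/
noncomputable def mat (h1 h2 : H) (Z : H →L[ℂ] H) : Matrix (Fin 2) (Fin 2) ℂ :=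
  !![⟪h1, Z h1⟫_ℂ, ⟪h1, Z h2⟫_ℂ; ⟪h2, Z h1⟫_ℂ, ⟪h2, Z h2⟫_ℂ]

/-- the projection onto the span of `h1`, `h2` -/
noncomputable def Q (h1 h2 : H) : H →L[ℂ] H := ro h1 h1 + ro h2 h2

lemma Q_apply (h1 h2 v : H) : Q h1 h2 v = ⟪h1, v⟫_ℂ • h1 + ⟪h2, v⟫_ℂ • h2 := rfl

lemma Q_sa (h1 h2 : H) : star (Q h1 h2) = Q h1 h2 := by
  ext v
  apply ext_inner_left ℂ
  intro w
  rw [inner_star_right, Q_apply, Q_apply, inner_add_left, inner_add_right, inner_smul_left,
    inner_smul_left, inner_smul_right, inner_smul_right, inner_conj_symm, inner_conj_symm]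
  ring

section

variable {h1 h2 : H} (n1 : ‖h1‖ = 1) (n2 : ‖h2‖ = 1) (h12 : ⟪h1, h2⟫_ℂ = 0)

include n1 n2 h12

lemma i11 : ⟪h1, h1⟫_ℂ = 1 := by
  rw [inner_self_eq_norm_sq_to_K, n1]; norm_num

lemma i22 : ⟪h2, h2⟫_ℂ = 1 := by
  rw [inner_self_eq_norm_sq_to_K, n2]; norm_num

lemma i21 : ⟪h2, h1⟫_ℂ = 0 := by
  rw [← inner_conj_symm, h12, map_zero]

lemma Q1 : Q h1 h2 h1 = h1 := by
  rw [Q_apply, i11 n1 n2 h12, i21 n1 n2 h12, one_smul, zero_smul, add_zero]

lemma Q2 : Q h1 h2 h2 = h2 := by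
  rw [Q_apply, i22 n1 n2 h12, h12, one_smul, zero_smul, zero_add]

lemma mat_mul (A Z : H →L[ℂ] H) (hZ : Commute Z (Q h1 h2)) :
    mat h1 h2 (A * Z) = mat h1 h2 A * mat h1 h2 Z := by
  have e1 : Z h1 = ⟪h1, Z h1⟫_ℂ • h1 + ⟪h2, Z h1⟫_ℂ • h2 := by
    have := congrArg (fun Y : H →L[ℂ] H => Y h1) hZ.eq
    simp only [mul_apply_eq_comp] at this
    rw [Q1 n1 n2 h12, Q_apply] at this
    exact this
  have e2 : Z h2 = ⟪h1, Z h2⟫_ℂ • h1 + ⟪h2, Z h2⟫_ℂ • h2 := by
    have := congrArg (fun Y : H →L[ℂ] H => Y h2) hZ.eq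
    simp only [mul_apply_eq_comp] at this
    rw [Q2 n1 n2 h12, Q_apply] at this
    exact this
  have k : ∀ w : H, ⟪w, A (Z h1)⟫_ℂ = ⟪h1, Z h1⟫_ℂ * ⟪w, A h1⟫_ℂ + ⟪h2, Z h1⟫_ℂ * ⟪w, A h2⟫_ℂ := by
    intro w
    conv_lhs => rw [e1]
    rw [map_add, map_smul, map_smul, inner_add_right, inner_smul_right, inner_smul_right]
  have k' : ∀ w : H, ⟪w, A (Z h2)⟫_ℂ = ⟪h1, Z h2⟫_ℂ * ⟪w, A h1⟫_ℂ + ⟪h2, Z h2⟫_ℂ * ⟪w, A h2⟫_ℂ := by
    intro w
    conv_lhs => rw [e2]
    rw [map_add, map_smul, map_smul, inner_add_right, inner_smul_right, inner_smul_right]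
  ext i j
  fin_cases i <;> fin_cases j <;>
    simp [mat, Matrix.mul_apply, Fin.sum_univ_two, k, k'] <;> ring

end

lemma mat_star (h1 h2 : H) (Z : H →L[ℂ] H) : mat h1 h2 (star Z) = (mat h1 h2 Z).conjTranspose := by
  ext i j
  fin_cases i <;> fin_cases j <;>
    simp [mat, Matrix.conjTranspose_apply, inner_star_right]

lemma polar (T : H →L[ℂ] H) : IsPolarPart T (pol T) := (existsUnique_polarPart T).choose_spec.1

/-- the polar part commutes with self-adjoint operators commuting with `T` -/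
lemma comm_pol {T P : H →L[ℂ] H} (hP : star P = P) (hT : Commute T P) : Commute (pol T) P := by
  have hA : Commute (CFC.abs T) P := Commute.cfcAbs_left hT (by rw [hP]; exact hT)
  have hV := polar T
  have hK : pol T * P - P * pol T = 0 := by
    apply eq_zero_of_mul (CFC.abs_nonneg T).isSelfAdjoint
    · rw [sub_mul, mul_assoc, ← hA.eq, ← mul_assoc, hV.mul_abs, mul_assoc, hV.mul_abs, hT.eq,
        sub_self]
    · intro x hx
      have h1 : T x = 0 := (abs_ker T x).1 hx
      have h2 : pol T x = 0 := (hV.ker_eq x).2 h1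
      have h3 : T (P x) = 0 := by
        have := congrArg (fun Y : H →L[ℂ] H => Y x) hT.eq
        simp only [mul_apply_eq_comp] at this
        rw [this, h1, map_zero]
      have h4 : pol T (P x) = 0 := (hV.ker_eq _).2 h3
      rw [sub_apply, mul_apply_eq_comp,
        mul_apply_eq_comp, h2, h4, map_zero, sub_zero]
  exact sub_eq_zero.1 hK

lemma comm_pw {A P : H →L[ℂ] H} (hA : 0 ≤ A) (h : Commute A P) (l : ℝ) : Commute (pw A l) P :=
  hA.isSelfAdjoint.commute_cfc h _

lemma pw_half {A : H →L[ℂ] H} (hA : 0 ≤ A) : pw A (1 / 2) * pw A (1 / 2) = A := by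
  unfold pw
  have hc : ContinuousOn (fun t : ℝ => t ^ (1 / 2 : ℝ)) (spectrum ℝ A) := by
    apply Continuous.continuousOn
    exact Real.continuous_rpow_const (by norm_num)
  rw [← cfc_mul _ _ A hc hc]
  have h1 : cfc (fun t : ℝ => t ^ (1 / 2 : ℝ) * t ^ (1 / 2 : ℝ)) A = cfc (fun t : ℝ => t) A := by
    apply cfc_congr
    intro t ht
    have h0 : 0 ≤ t := spectrum_nonneg_of_nonneg hA ht
    simp only
    rw [← Real.rpow_add_of_nonneg h0 (by norm_num) (by norm_num)]
    norm_num
  rw [h1]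
  exact cfc_id' ℝ A hA.isSelfAdjoint

end PTRIA

open PTRIA Pool.Agent.R884.AL in
theorem t_TRIA : S_TRIA.{u} := by
  intro H _ _ _ h1 h2 T p q τ n1 n2 h12 hpq hp hq hT1 hT2 hTs1 hTs2 hm1 hm2
  have e11 := i11 n1 n2 h12
  have e22 := i22 n1 n2 h12
  have e21 := i21 n1 n2 h12
  -- `T` commutes with the projection
  have hTQ : Commute T (Q h1 h2) := by
    ext v
    rw [mul_apply_eq_comp, mul_apply_eq_comp, Q_apply, Q_apply,
      ← inner_star_left, ← inner_star_left, hTs1, hTs2, map_add, map_smul, map_smul, hT1, hT2]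
    simp only [inner_add_left, inner_smul_left, RingHomCompTriple.comp_apply, RingHom.id_apply]
    module
  have hQs := Q_sa h1 h2
  have hTsQ : Commute (star T) (Q h1 h2) := by
    have := hTQ.star_star
    rwa [hQs] at this
  have hAQ : Commute (CFC.abs T) (Q h1 h2) := Commute.cfcAbs_left hTQ (by rw [hQs]; exact hTQ)
  set X := pw (CFC.abs T) (1 / 2) with hX
  have hXQ : Commute X (Q h1 h2) := comm_pw (CFC.abs_nonneg T) hAQ _
  have hXX : X * X = CFC.abs T := pw_half (CFC.abs_nonneg T)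
  have hVQ : Commute (pol T) (Q h1 h2) := comm_pol hQs hTQ
  set S := alu (1 / 2) T with hS
  have hS' : S = X * pol T * X := by
    rw [hS, alu, hX]
    norm_num
  have hSQ : Commute S (Q h1 h2) := by
    rw [hS']
    exact (hXQ.mul_left hVQ).mul_left hXQ
  have hSsQ : Commute (star S) (Q h1 h2) := by
    have := hSQ.star_star
    rwa [hQs] at this
  have hBQ : Commute (CFC.abs S) (Q h1 h2) := Commute.cfcAbs_left hSQ (by rw [hQs]; exact hSQ)
  have hSX : S * X = X * T := by
    rw [hS', mul_assoc, hXX, mul_assoc, (polar T).mul_abs]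
  set M := mat h1 h2 with hM
  -- matrix identities
  have mT : M T = !![p, τ; 0, q] := by
    simp [hM, mat, hT1, hT2, inner_add_right, inner_smul_right, e21, h12, n1, n2]
  have m1 : M S * M X = M X * M T := by
    rw [← mat_mul n1 n2 h12 S X hXQ, ← mat_mul n1 n2 h12 X T hTQ, hSX]
  have m2 : (M X * M X) * (M X * M X) = (M T).conjTranspose * M T := by
    rw [← mat_mul n1 n2 h12 X X hXQ, hXX, ← mat_mul n1 n2 h12 _ _ hAQ, CFC.abs_mul_abs,
      mat_mul n1 n2 h12 (star T) T hTQ, mat_star]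
  have m3 : M (CFC.abs S) * M (CFC.abs S) = (M S).conjTranspose * M S := by
    rw [← mat_mul n1 n2 h12 _ _ hBQ, CFC.abs_mul_abs, mat_mul n1 n2 h12 (star S) S hSQ, mat_star]
  have hmA : mA T + mA T = S + CFC.abs S * pol S := by
    rw [mA, mt, ← hS, ← two_smul ℂ, smul_smul]
    norm_num
  have m4 : M (CFC.abs S * pol S) * M (CFC.abs S) = M (CFC.abs S) * M S := by
    rw [← mat_mul n1 n2 h12 _ _ hBQ, ← mat_mul n1 n2 h12 _ _ hSQ, mul_assoc, (polar S).mul_abs]
  have m5 : M (CFC.abs S * pol S) = !![2 * p, 0; 0, 2 * q] - M S := by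
    have f1 : (CFC.abs S * pol S) h1 = (2 * p) • h1 - S h1 := by
      have := congrArg (fun Y : H →L[ℂ] H => Y h1) hmA
      simp only [add_apply] at this
      rw [hm1] at this
      rw [eq_sub_iff_add_eq, add_comm, ← this]
      module
    have f2 : (CFC.abs S * pol S) h2 = (2 * q) • h2 - S h2 := by
      have := congrArg (fun Y : H →L[ℂ] H => Y h2) hmA
      simp only [add_apply] at this
      rw [hm2] at this
      rw [eq_sub_iff_add_eq, add_comm, ← this]
      module
    rw [hM]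
    unfold mat
    rw [f1, f2]
    ext i j
    fin_cases i <;> fin_cases j <;>
      simp [inner_sub_right, inner_smul_right, e21, h12, n1, n2]
  -- determinants
  have hdT : (M T).det = p * q := by
    rw [mT, Matrix.det_fin_two_of]
    ring
  have hdX : (M X).det ≠ 0 := by
    intro h0
    have := congrArg Matrix.det m2
    rw [Matrix.det_mul, Matrix.det_mul, Matrix.det_mul, h0, Matrix.det_conjTranspose, hdT] at this
    have h3 : star (p * q) * (p * q) = 0 := by
      rw [← this]; ring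
    rcases mul_eq_zero.1 h3 with h4 | h4
    · rw [star_eq_zero] at h4
      exact mul_ne_zero hp hq h4
    · exact mul_ne_zero hp hq h4
  have hdS : (M S).det = p * q := by
    have := congrArg Matrix.det m1
    rw [Matrix.det_mul, Matrix.det_mul, hdT, mul_comm] at this
    exact mul_left_cancel₀ hdX this
  have htS : (M S).trace = p + q := by
    have hu : IsUnit (M X).det := isUnit_iff_ne_zero.2 hdX
    have h3 : M S = M X * M T * (M X)⁻¹ := by
      rw [← m1, mul_assoc, Matrix.mul_nonsing_inv _ hu, mul_one]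
    rw [h3, Matrix.trace_mul_comm, ← mul_assoc, Matrix.nonsing_inv_mul _ hu, one_mul, mT,
      Matrix.trace_fin_two_of]
  have hdB : (M (CFC.abs S)).det ≠ 0 := by
    intro h0
    have := congrArg Matrix.det m3
    rw [Matrix.det_mul, Matrix.det_mul, h0, Matrix.det_conjTranspose, hdS] at this
    have h3 : star (p * q) * (p * q) = 0 := by
      rw [← this]; ring
    rcases mul_eq_zero.1 h3 with h4 | h4
    · rw [star_eq_zero] at h4
      exact mul_ne_zero hp hq h4
    · exact mul_ne_zero hp hq h4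
  have hdW : (M (CFC.abs S * pol S)).det = p * q := by
    have := congrArg Matrix.det m4
    rw [Matrix.det_mul, Matrix.det_mul, hdS, mul_comm] at this
    exact mul_left_cancel₀ hdB this
  -- entries
  obtain ⟨s11, s12, s21, s22, hs⟩ : ∃ a b c d, M S = !![a, b; c, d] :=
    ⟨_, _, _, _, Matrix.eta_fin_two (M S)⟩
  obtain ⟨x11, x12, x21, x22, hx⟩ : ∃ a b c d, M X = !![a, b; c, d] :=
    ⟨_, _, _, _, Matrix.eta_fin_two (M X)⟩
  obtain ⟨b11, b12, b21, b22, hb⟩ : ∃ a b c d, M (CFC.abs S) = !![a, b; c, d] :=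
    ⟨_, _, _, _, Matrix.eta_fin_two (M (CFC.abs S))⟩
  rw [hs, Matrix.det_fin_two_of] at hdS
  rw [hs, Matrix.trace_fin_two_of] at htS
  rw [m5, hs] at hdW
  have hdW' : (2 * p - s11) * (2 * q - s22) - s12 * s21 = p * q := by
    rw [← hdW, Matrix.det_fin_two]
    simp
  have hk : s11 = p := by
    have h3 : 2 * (s11 - p) * (q - p) = 0 := by
      have h4 : s22 = p + q - s11 := by linear_combination htS
      subst h4
      linear_combination hdS - hdW'
    rcases mul_eq_zero.1 h3 with h4 | h4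
    · rcases mul_eq_zero.1 h4 with h5 | h5
      · exact absurd h5 two_ne_zero
      · exact sub_eq_zero.1 h5
    · exact absurd (sub_eq_zero.1 h4).symm hpq
  subst hk
  have hk2 : s22 = q := by linear_combination htS
  subst hk2
  have hab : s12 * s21 = 0 := by linear_combination -hdS
  have hs21 : s21 = 0 := by
    rcases mul_eq_zero.1 hab with h0 | h0
    · subst h0
      rw [m5, hs, hb] at m4
      have h3 := congrFun (congrFun m4 0) 1
      simp [Matrix.mul_apply, Fin.sum_univ_two] at h3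
      have h4 : (s11 - s22) * b12 = 0 := by linear_combination h3
      have h5 : b12 = 0 := (mul_eq_zero.1 h4).resolve_left (sub_ne_zero.2 hpq)
      rw [hb, hs] at m3
      have h6 := congrFun (congrFun m3 0) 1
      simp [Matrix.mul_apply, Fin.sum_univ_two, h5] at h6
      rcases h6 with h6 | h6
      · exact h6
      · exact absurd h6 hq
    · exact h0
  subst hs21
  rw [hs, hx, mT] at m1
  have h3 := congrFun (congrFun m1 1) 0
  simp [Matrix.mul_apply, Fin.sum_univ_two] at h3
  have h4 : (s11 - s22) * x21 = 0 := by linear_combination -h3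
  have h5 : x21 = 0 := (mul_eq_zero.1 h4).resolve_left (sub_ne_zero.2 hpq)
  rw [hx, mT] at m2
  have h6 := congrFun (congrFun m2 1) 0
  simp [Matrix.mul_apply, Fin.sum_univ_two, h5] at h6
  rcases h6 with h6 | h6
  · exact h6
  · exact absurd h6 hp

end Pool.Agent.R945.AP
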