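import Pool.Agent.R945.AP.Stm

/-! Piece TRIM of project AP: triangular blocks, `M_l`. -/

set_option autoImplicit false

open scoped InnerProductSpace ComplexConjugate

namespace Pool.Agent.R945.AP

universe u

namespace TRIM

variable {H : Type u} [NormedAddCommGroup H] [InnerProductSpace ℂ H] [CompleteSpace H]

theorem comm_abs {T E : H →L[ℂ] H} (h : Commute (star T * T) E) : Commute (CFC.abs T) E := by
  unfold CFC.abs CFC.sqrt
  exact h.cfcₙ_nnreal _

theorem cont_pw {a : ℝ} (ha : 0 ≤ a) (s : Set ℝ) : ContinuousOn (fun t : ℝ => t ^ a) s :=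
  (Real.continuous_rpow_const ha).continuousOn

theorem pw_add {P : H →L[ℂ] H} (hP : 0 ≤ P) {a b : ℝ} (ha : 0 ≤ a) (hb : 0 ≤ b) :
    pw P a * pw P b = pw P (a + b) := by
  unfold pw
  rw [← cfc_mul (fun t : ℝ => t ^ a) (fun t : ℝ => t ^ b) P (cont_pw ha _) (cont_pw hb _)]
  refine cfc_congr fun t ht => ?_
  exact (Real.rpow_add_of_nonneg (spectrum_nonneg_of_nonneg hP ht) ha hb).symm

theorem pw_one {P : H →L[ℂ] H} (hP : 0 ≤ P) : pw P 1 = P := by
  unfold pw
  simp only [Real.rpow_one]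
  exact cfc_id' ℝ P hP.isSelfAdjoint

theorem pw_zero {P : H →L[ℂ] H} (hP : 0 ≤ P) : pw P 0 = 1 := by
  unfold pw
  simp only [Real.rpow_zero]
  exact cfc_const_one ℝ P hP.isSelfAdjoint

theorem pw_pw {P : H →L[ℂ] H} (hP : 0 ≤ P) {a b : ℝ} (ha : 0 ≤ a) (hb : 0 ≤ b) :
    pw (pw P a) b = pw P (a * b) := by
  unfold pw
  rw [← cfc_comp' (fun t : ℝ => t ^ b) (fun t : ℝ => t ^ a) P (cont_pw hb _) (cont_pw ha _)
    hP.isSelfAdjoint]
  refine cfc_congr fun t ht => ?_
  exact (Real.rpow_mul (spectrum_nonneg_of_nonneg hP ht) a b).symm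

theorem pw_sa (P : H →L[ℂ] H) (a : ℝ) : IsSelfAdjoint (pw P a) := cfc_predicate _ _

theorem pw_two {P : H →L[ℂ] H} (hP : 0 ≤ P) : pw P 2 = P * P := by
  have h := pw_add hP (zero_le_one) (zero_le_one (α := ℝ))
  rw [pw_one hP] at h
  rw [h]
  norm_num

theorem inner_self_one {h : H} (n : ‖h‖ = 1) : ⟪h, h⟫_ℂ = 1 := by
  rw [inner_self_eq_norm_sq_to_K, n]
  norm_num

/-- an eigenvector of a self-adjoint operator is an eigenvector of its functions -/
theorem eig {X : H →L[ℂ] H} (hX : IsSelfAdjoint X) {h : H} (n : ‖h‖ = 1) {c : ℂ}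
    (e : X h = c • h) (s : ℝ) : ∃ c' : ℂ, pw X s h = c' • h := by
  have hc : conj c = c := by
    have h1 : ⟪X h, h⟫_ℂ = ⟪h, X h⟫_ℂ := Pool.Agent.R884.AL.inner_sa hX h h
    rw [e, inner_smul_left, inner_smul_right, inner_self_one n, mul_one, mul_one] at h1
    exact h1
  have h1 : Commute X (ro h h) := by
    refine ContinuousLinearMap.ext fun v => ?_
    rw [ContinuousLinearMap.mul_apply, ContinuousLinearMap.mul_apply, ro_apply, ro_apply,
      map_smul, e, ← Pool.Agent.R884.AL.inner_sa hX, e, inner_smul_left, hc, smul_smul, mul_comm]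
  have h2 : Commute (pw X s) (ro h h) := h1.cfc_real _
  refine ⟨⟪h, pw X s h⟫_ℂ, ?_⟩
  have h3 := congrArg (fun F : H →L[ℂ] H => F h) h2.eq
  simp only [ContinuousLinearMap.mul_apply, ro_apply, inner_self_one n, one_smul] at h3
  exact h3

theorem coords {h1 h2 : H} (n1 : ‖h1‖ = 1) (n2 : ‖h2‖ = 1) (o : ⟪h1, h2⟫_ℂ = 0) {a b c d : ℂ}
    (e : a • h1 + b • h2 = c • h1 + d • h2) : a = c ∧ b = d := by
  have i11 := inner_self_one n1
  have i22 := inner_self_one n2
  have i21 : ⟪h2, h1⟫_ℂ = 0 := inner_eq_zero_symm.1 o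
  constructor
  · have h3 := congrArg (fun v => ⟪h1, v⟫_ℂ) e
    simpa only [inner_add_right, inner_smul_right, i11, o, mul_one, mul_zero, add_zero] using h3
  · have h3 := congrArg (fun v => ⟪h2, v⟫_ℂ) e
    simpa only [inner_add_right, inner_smul_right, i22, i21, mul_one, mul_zero, zero_add] using h3

/-- the matrix of an operator on the span of two vectors -/
structure Rep (h1 h2 : H) (F : H →L[ℂ] H) (m : Matrix (Fin 2) (Fin 2) ℂ) : Prop where
  c1 : F h1 = m 0 0 • h1 + m 1 0 • h2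
  c2 : F h2 = m 0 1 • h1 + m 1 1 • h2

section rep

variable {h1 h2 : H} {F G A X T : H →L[ℂ] H} {m n x t : Matrix (Fin 2) (Fin 2) ℂ}

theorem Rep.lin (hF : Rep h1 h2 F m) (a b : ℂ) : F (a • h1 + b • h2) =
    (m 0 0 * a + m 0 1 * b) • h1 + (m 1 0 * a + m 1 1 * b) • h2 := by
  rw [map_add, map_smul, map_smul, hF.c1, hF.c2]
  module

theorem Rep.mul (hF : Rep h1 h2 F m) (hG : Rep h1 h2 G n) : Rep h1 h2 (F * G) (m * n) := by
  constructor
  · rw [ContinuousLinearMap.mul_apply, hG.c1, hF.lin, Matrix.mul_apply, Matrix.mul_apply,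
      Fin.sum_univ_two, Fin.sum_univ_two]
  · rw [ContinuousLinearMap.mul_apply, hG.c2, hF.lin, Matrix.mul_apply, Matrix.mul_apply,
      Fin.sum_univ_two, Fin.sum_univ_two]

theorem Rep.unique (n1 : ‖h1‖ = 1) (n2 : ‖h2‖ = 1) (o : ⟪h1, h2⟫_ℂ = 0) (hF : Rep h1 h2 F m)
    (hF' : Rep h1 h2 F n) : m = n := by
  have e1 := coords n1 n2 o (hF.c1.symm.trans hF'.c1)
  have e2 := coords n1 n2 o (hF.c2.symm.trans hF'.c2)
  ext i j
  fin_cases i <;> fin_cases j
  · exact e1.1
  · exact e2.1
  · exact e1.2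
  · exact e2.2

theorem Rep.of_comm (n1 : ‖h1‖ = 1) (n2 : ‖h2‖ = 1) (o : ⟪h1, h2⟫_ℂ = 0)
    (hc : Commute F (ro h1 h1 + ro h2 h2)) : ∃ m, Rep h1 h2 F m := by
  have i11 := inner_self_one n1
  have i22 := inner_self_one n2
  have i21 : ⟪h2, h1⟫_ℂ = 0 := inner_eq_zero_symm.1 o
  refine ⟨!![⟪h1, F h1⟫_ℂ, ⟪h1, F h2⟫_ℂ; ⟪h2, F h1⟫_ℂ, ⟪h2, F h2⟫_ℂ], ?_, ?_⟩
  · have h3 := congrArg (fun F : H →L[ℂ] H => F h1) hc.eq
    simp only [ContinuousLinearMap.mul_apply, ContinuousLinearMap.add_apply, ro_apply, i11, i21,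
      one_smul, zero_smul, add_zero] at h3
    simpa using h3
  · have h3 := congrArg (fun F : H →L[ℂ] H => F h2) hc.eq
    simp only [ContinuousLinearMap.mul_apply, ContinuousLinearMap.add_apply, ro_apply, i22, o,
      one_smul, zero_smul, zero_add] at h3
    simpa using h3

theorem Rep.conj (hAX : A * X = X * T) (hX : Rep h1 h2 X x) (hT : Rep h1 h2 T t)
    (hd : x.det ≠ 0) : Rep h1 h2 A (x * t * x⁻¹) := by
  have hxy : x * x⁻¹ = 1 := Matrix.mul_nonsing_inv x (isUnit_iff_ne_zero.2 hd)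
  have hAv : ∀ v, A (X v) = X (T v) := fun v => by
    have h3 := congrArg (fun F : H →L[ℂ] H => F v) hAX
    simpa only [ContinuousLinearMap.mul_apply] using h3
  generalize x⁻¹ = y at hxy ⊢
  have h00 := congrFun (congrFun hxy 0) 0
  have h01 := congrFun (congrFun hxy 0) 1
  have h10 := congrFun (congrFun hxy 1) 0
  have h11 := congrFun (congrFun hxy 1) 1
  rw [Matrix.mul_apply, Fin.sum_univ_two] at h00 h01 h10 h11
  simp only [Matrix.one_apply_eq, ne_eq, zero_ne_one, one_ne_zero, not_false_eq_true,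
    Matrix.one_apply_ne] at h00 h01 h10 h11
  constructor
  · have e : X (y 0 0 • h1 + y 1 0 • h2) = h1 := by
      rw [hX.lin, h00, h10, one_smul, zero_smul, add_zero]
    calc A h1 = A (X (y 0 0 • h1 + y 1 0 • h2)) := by rw [e]
      _ = X (T (y 0 0 • h1 + y 1 0 • h2)) := hAv _
      _ = _ := by
        rw [hT.lin, hX.lin]
        congr 2
        · simp only [Matrix.mul_apply, Fin.sum_univ_two]
          ring
        · simp only [Matrix.mul_apply, Fin.sum_univ_two]
          ring
  · have e : X (y 0 1 • h1 + y 1 1 • h2) = h2 := by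
      rw [hX.lin, h01, h11, one_smul, zero_smul, zero_add]
    calc A h2 = A (X (y 0 1 • h1 + y 1 1 • h2)) := by rw [e]
      _ = X (T (y 0 1 • h1 + y 1 1 • h2)) := hAv _
      _ = _ := by
        rw [hT.lin, hX.lin]
        congr 2
        · simp only [Matrix.mul_apply, Fin.sum_univ_two]
          ring
        · simp only [Matrix.mul_apply, Fin.sum_univ_two]
          ring

theorem conj_facts (hd : x.det ≠ 0) : (x * t * x⁻¹).trace = t.trace ∧
    (x * t * x⁻¹).det = t.det ∧ (x * t * x⁻¹) * x = x * t := by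
  have h1 : x⁻¹ * x = 1 := Matrix.nonsing_inv_mul x (isUnit_iff_ne_zero.2 hd)
  refine ⟨?_, ?_, ?_⟩
  · rw [Matrix.trace_mul_comm, ← mul_assoc, h1, one_mul]
  · have h2 : (x⁻¹).det * x.det = 1 := by rw [← Matrix.det_mul, h1, Matrix.det_one]
    rw [Matrix.det_mul, Matrix.det_mul]
    linear_combination t.det * h2
  · rw [mul_assoc, h1, mul_one]

end rep

end TRIM

open TRIM in
theorem t_TRIM : S_TRIM.{u} := by
  intro H _ _ _ l hl0 hl h1 h2 T p q τ n1 n2 o hpq hp hq hT1 hT2 hS1 hS2 hM1 hM2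
  have i11 := inner_self_one n1
  have i22 := inner_self_one n2
  have i21 : ⟪h2, h1⟫_ℂ = 0 := inner_eq_zero_symm.1 o
  set P := CFC.abs T with hPdef
  have hP : 0 ≤ P := CFC.abs_nonneg T
  have hPP : P * P = star T * T := CFC.abs_mul_abs T
  have cT : Commute T (ro h1 h1 + ro h2 h2) := by
    refine ContinuousLinearMap.ext fun v => ?_
    simp only [ContinuousLinearMap.mul_apply, ContinuousLinearMap.add_apply, ro_apply, map_add,
      map_smul, hT1, hT2]
    rw [← Pool.Agent.R884.AL.inner_star_left, ← Pool.Agent.R884.AL.inner_star_left, hS1, hS2]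
    simp only [inner_add_left, inner_smul_left, Complex.conj_conj]
    module
  have cS : Commute (star T) (ro h1 h1 + ro h2 h2) := by
    refine ContinuousLinearMap.ext fun v => ?_
    simp only [ContinuousLinearMap.mul_apply, ContinuousLinearMap.add_apply, ro_apply, map_add,
      map_smul, hS1, hS2]
    rw [Pool.Agent.R884.AL.inner_star_right, Pool.Agent.R884.AL.inner_star_right, hT1, hT2]
    simp only [inner_add_left, inner_smul_left]
    module
  have cP : Commute P (ro h1 h1 + ro h2 h2) := comm_abs (cS.mul_left cT)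
  have cpw : ∀ s : ℝ, Commute (pw P s) (ro h1 h1 + ro h2 h2) := fun s => cP.cfc_real _
  have rT : Rep h1 h2 T !![p, τ; 0, q] := ⟨by simpa using hT1, by simpa using hT2⟩
  have rS : Rep h1 h2 (star T) !![conj p, 0; conj τ, conj q] :=
    ⟨by simpa using hS1, by simpa using hS2⟩
  have hdet : ∀ s : ℝ, 0 ≤ s → s ≤ 1 → ∀ x, Rep h1 h2 (pw P s) x → x.det ≠ 0 := by
    intro s hs0 hs1 x hx hx0
    obtain ⟨y, hy⟩ := Rep.of_comm n1 n2 o (cpw (1 - s))
    obtain ⟨z, hz⟩ := Rep.of_comm n1 n2 o cP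
    have e1 : P * (pw P (1 - s) * pw P s) = star T * T := by
      rw [pw_add hP (by linarith) hs0, sub_add_cancel, pw_one hP, hPP]
    have e2 := hz.mul (hy.mul hx)
    rw [e1] at e2
    have e3 := Rep.unique n1 n2 o e2 (rS.mul rT)
    have e4 := congrArg Matrix.det e3
    rw [Matrix.det_mul, Matrix.det_mul, hx0, mul_zero, mul_zero, Matrix.det_mul,
      Matrix.det_fin_two_of, Matrix.det_fin_two_of] at e4
    have hp' : conj p ≠ 0 := (map_ne_zero _).2 hp
    have hq' : conj q ≠ 0 := (map_ne_zero _).2 hq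
    have : (conj p * conj q) * (p * q) = 0 := by linear_combination -e4
    simp [hp, hq] at this
  have hV : pol T * P = T :=
    (Pool.Agent.R884.AL.existsUnique_polarPart T).choose_spec.1.mul_abs
  set A := alu l T with hA
  set B := alu (1 - l) T with hB
  obtain ⟨x, hx⟩ := Rep.of_comm n1 n2 o (cpw l)
  obtain ⟨z, hz⟩ := Rep.of_comm n1 n2 o (cpw (1 - 2 * l))
  have dx : x.det ≠ 0 := hdet l hl0.le (by linarith) x hx
  have dz : z.det ≠ 0 := hdet (1 - 2 * l) (by linarith) (by linarith) z hz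
  have hAX : A * pw P l = pw P l * T := by
    rw [hA, alu, mul_assoc, ← hPdef, pw_add hP (by linarith) hl0.le, sub_add_cancel, pw_one hP,
      mul_assoc, hV]
  have hBZ : B * pw P (1 - 2 * l) = pw P (1 - 2 * l) * A := by
    rw [hA, hB, alu, alu, ← hPdef, mul_assoc, pw_add hP (by linarith) (by linarith),
      mul_assoc (pw P l) (pol T), ← mul_assoc (pw P (1 - 2 * l)),
      pw_add hP (by linarith) hl0.le, ← mul_assoc]
    congr 2
    · congr 1
      ring_nf
    · ring_nf
  have ra : Rep h1 h2 A (x * !![p, τ; 0, q] * x⁻¹) := Rep.conj hAX hx rT dx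
  obtain ⟨ta, da, ma⟩ := conj_facts (t := !![p, τ; 0, q]) dx
  generalize x * !![p, τ; 0, q] * x⁻¹ = a at ra ta da ma
  have rb : Rep h1 h2 B (z * a * z⁻¹) := Rep.conj hBZ hz ra dz
  obtain ⟨tb, db, mb⟩ := conj_facts (t := a) dz
  generalize z * a * z⁻¹ = b at rb tb db mb
  rw [da] at db
  rw [ta] at tb
  rw [Matrix.trace_fin_two, Matrix.trace_fin_two] at ta
  rw [Matrix.det_fin_two, Matrix.det_fin_two] at da db
  simp only [Matrix.of_apply, Matrix.cons_val', Matrix.cons_val_zero, Matrix.cons_val_one,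
    Matrix.cons_val_fin_one] at ta da db
  -- coordinates of the mean
  have k1 : (2⁻¹ : ℂ) * (a 0 0 + b 0 0) = p ∧ (2⁻¹ : ℂ) * (a 1 0 + b 1 0) = 0 := by
    apply coords n1 n2 o
    rw [zero_smul, add_zero, ← hM1, ML, ← hA, ← hB]
    simp only [ContinuousLinearMap.smul_apply, ContinuousLinearMap.add_apply, ra.c1, rb.c1]
    module
  have k2 : (2⁻¹ : ℂ) * (a 0 1 + b 0 1) = 0 ∧ (2⁻¹ : ℂ) * (a 1 1 + b 1 1) = q := by
    apply coords n1 n2 o
    rw [zero_smul, zero_add, ← hM2, ML, ← hA, ← hB]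
    simp only [ContinuousLinearMap.smul_apply, ContinuousLinearMap.add_apply, ra.c2, rb.c2]
    module
  obtain ⟨k11, k12⟩ := k1
  obtain ⟨k21, k22⟩ := k2
  have b00 : b 0 0 = 2 * p - a 0 0 := by linear_combination 2 * k11
  have b10 : b 1 0 = - a 1 0 := by linear_combination 2 * k12
  have b01 : b 0 1 = - a 0 1 := by linear_combination 2 * k21
  have b11 : b 1 1 = 2 * q - a 1 1 := by linear_combination 2 * k22
  have a11' : a 1 1 = p + q - a 0 0 := by linear_combination ta
  rw [b00, b10, b01, b11] at db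
  have a00 : a 0 0 = p := by
    have h3 : (q - p) * (a 0 0 - p) = 0 := by
      rw [a11'] at db da
      linear_combination (da - db) / 2
    rcases mul_eq_zero.1 h3 with h4 | h4
    · exact absurd (sub_eq_zero.1 h4).symm hpq
    · exact sub_eq_zero.1 h4
  have a11 : a 1 1 = q := by rw [a11', a00]; ring
  have hprod : a 0 1 * a 1 0 = 0 := by
    rw [a00, a11] at da
    linear_combination -da
  -- first case
  have case1 : a 1 0 = 0 → τ = 0 := by
    intro h0
    have h3 := congrFun (congrFun ma 1) 0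
    rw [Matrix.mul_apply, Matrix.mul_apply, Fin.sum_univ_two, Fin.sum_univ_two, h0, a11] at h3
    simp only [Matrix.of_apply, Matrix.cons_val', Matrix.cons_val_zero, Matrix.cons_val_one,
      Matrix.cons_val_fin_one, zero_mul, zero_add, mul_zero, add_zero] at h3
    have h4 : x 1 0 = 0 := by
      have h5 : (q - p) * x 1 0 = 0 := by linear_combination h3
      rcases mul_eq_zero.1 h5 with h6 | h6
      · exact absurd (sub_eq_zero.1 h6).symm hpq
      · exact h6
    have h5 : pw P l h1 = x 0 0 • h1 := by rw [hx.c1, h4, zero_smul, add_zero]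
    obtain ⟨c, hc⟩ := eig (pw_sa P l) n1 h5 (2 / l)
    rw [pw_pw hP hl0.le (by positivity), mul_div_cancel₀ _ hl0.ne', pw_two hP, hPP,
      ContinuousLinearMap.mul_apply, hT1, map_smul, hS1] at hc
    have h6 := (coords n1 n2 o (a := p * conj p) (b := p * conj τ) (c := c) (d := 0) (by
      rw [zero_smul, add_zero, ← hc]
      module)).2
    rcases mul_eq_zero.1 h6 with h7 | h7
    · exact absurd h7 hp
    · exact (map_eq_zero _).1 h7
  rcases mul_eq_zero.1 hprod with h0 | h0
  · -- second case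
    have h3 := congrFun (congrFun mb 0) 1
    rw [Matrix.mul_apply, Matrix.mul_apply, Fin.sum_univ_two, Fin.sum_univ_two, h0, a11, b00, b01,
      h0, a00] at h3
    have h4 : z 0 1 = 0 := by
      have h5 : (p - q) * z 0 1 = 0 := by linear_combination h3
      rcases mul_eq_zero.1 h5 with h6 | h6
      · exact absurd (sub_eq_zero.1 h6) hpq
      · exact h6
    rcases hl.lt_or_eq with hlt | heq
    · have hpos : 0 < 1 - 2 * l := by linarith
      have h5 : pw P (1 - 2 * l) h2 = z 1 1 • h2 := by rw [hz.c2, h4, zero_smul, zero_add]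
      obtain ⟨c, hc⟩ := eig (pw_sa P (1 - 2 * l)) n2 h5 (2 / (1 - 2 * l))
      rw [pw_pw hP hpos.le (by positivity), mul_div_cancel₀ _ hpos.ne', pw_two hP, hPP,
        ContinuousLinearMap.mul_apply, hT2, map_add, map_smul, map_smul, hS1, hS2] at hc
      have h6 := (coords n1 n2 o (a := τ * conj p) (b := τ * conj τ + q * conj q) (c := 0)
        (d := c) (by
        rw [zero_smul, zero_add, ← hc]
        module)).1
      rcases mul_eq_zero.1 h6 with h7 | h7
      · exact h7
      · exact absurd ((map_eq_zero _).1 h7) hp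
    · apply case1
      have h5 : B = A := by
        have h6 := hBZ
        rw [show 1 - 2 * l = 0 by rw [heq]; ring, pw_zero hP, mul_one, one_mul] at h6
        exact h6
      rw [h5] at rb
      have h6 := Rep.unique n1 n2 o rb ra
      have h7 := congrFun (congrFun h6 1) 0
      rw [b10] at h7
      have h8 : 2 * a 1 0 = 0 := by linear_combination -h7
      simpa using h8
  · exact case1 h0

end Pool.Agent.R945.AP
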