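import Pool.Agent.R945.AP.Stm

/-!
# Project AP, piece TRIZ: triangular blocks, `M_0`
-/

set_option autoImplicit false

open scoped InnerProductSpace ComplexConjugate ComplexOrder

namespace Pool.Agent.R945.AP

universe u

namespace PTRIZ

open Pool.Agent.R884.AL

variable {H : Type u} [NormedAddCommGroup H] [InnerProductSpace ℂ H] [CompleteSpace H]

lemma pw_zero {P : H →L[ℂ] H} (hP : 0 ≤ P) : pw P 0 = 1 := by
  unfold pw
  simp only [Real.rpow_zero]
  exact cfc_const_one ℝ P (hP.isSelfAdjoint)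

lemma pw_one {P : H →L[ℂ] H} (hP : 0 ≤ P) : pw P 1 = P := by
  unfold pw
  simp only [Real.rpow_one]
  exact cfc_id' ℝ P (hP.isSelfAdjoint)

lemma pol_spec (T : H →L[ℂ] H) : IsPolarPart T (pol T) :=
  (existsUnique_polarPart T).choose_spec.1

lemma alu_zero (T : H →L[ℂ] H) : alu 0 T = T := by
  unfold alu
  rw [sub_zero, pw_zero (CFC.abs_nonneg T), pw_one (CFC.abs_nonneg T), one_mul,
    (pol_spec T).mul_abs]

lemma alu_one (T : H →L[ℂ] H) : alu 1 T = CFC.abs T * pol T := by
  unfold alu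
  rw [sub_self, pw_zero (CFC.abs_nonneg T), pw_one (CFC.abs_nonneg T), mul_one]

lemma ML_zero (T : H →L[ℂ] H) : ML 0 T = (2⁻¹ : ℂ) • (T + CFC.abs T * pol T) := by
  unfold ML
  rw [sub_zero, alu_zero, alu_one]

/-- an operator commuting with `T* T` commutes with `|T|` -/
lemma comm_abs {T E : H →L[ℂ] H} (h : Commute (star T * T) E) : Commute (CFC.abs T) E := by
  unfold CFC.abs CFC.sqrt
  exact Commute.cfcₙ_nnreal h _

end PTRIZ

open PTRIZ in
theorem t_TRIZ : S_TRIZ.{u} := by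
  intro H _ _ _ h1 h2 T p q τ n1 n2 h12 hpq hp hq hT1 hT2 hS1 hS2 hM1 hM2
  set P := CFC.abs T with hP
  set B := P * pol T with hB
  have h21 : ⟪h2, h1⟫_ℂ = 0 := by
    rw [← inner_conj_symm, h12, map_zero]
  have i11 : ⟪h1, h1⟫_ℂ = 1 := by
    rw [inner_self_eq_norm_sq_to_K, n1]; norm_num
  have i22 : ⟪h2, h2⟫_ℂ = 1 := by
    rw [inner_self_eq_norm_sq_to_K, n2]; norm_num
  have h2ne : h2 ≠ 0 := by
    rintro rfl
    rw [norm_zero] at n2
    exact zero_ne_one n2
  have hB1 : B h1 = p • h1 := by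
    rw [ML_zero] at hM1
    have e : (2⁻¹ : ℂ) • (T h1 + B h1) = p • h1 := hM1
    rw [hT1] at e
    have e2 : (2 : ℂ) • ((2⁻¹ : ℂ) • (p • h1 + B h1)) = (2 : ℂ) • (p • h1) := by rw [e]
    rw [smul_smul, mul_inv_cancel₀ (two_ne_zero), one_smul, two_smul] at e2
    exact add_left_cancel e2
  have hB2 : B h2 = q • h2 := by
    rw [ML_zero] at hM2
    have e : (2⁻¹ : ℂ) • (T h2 + B h2) = (2⁻¹ * τ) • h1 + q • h2 := hM2
    rw [hT2] at e
    have e2 : (2 : ℂ) • ((2⁻¹ : ℂ) • (τ • h1 + q • h2 + B h2)) =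
        (2 : ℂ) • ((2⁻¹ * τ) • h1 + q • h2) := by rw [e]
    rw [smul_smul, mul_inv_cancel₀ (two_ne_zero), one_smul, smul_add, smul_smul, ← mul_assoc,
      mul_inv_cancel₀ (two_ne_zero), one_mul, two_smul, ← add_assoc] at e2
    exact add_left_cancel e2
  have hBP : B * P = P * T := by
    rw [hB, mul_assoc, hP, (pol_spec T).mul_abs]
  have hPP : P * P = star T * T := CFC.abs_mul_abs T
  -- the span of `h1`, `h2` is invariant
  set E : H →L[ℂ] H := ro h1 h1 + ro h2 h2 with hE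
  have sT1 : (star T * T) h1 = (p * conj p) • h1 + (p * conj τ) • h2 := by
    rw [mul_apply_eq_comp, hT1, map_smul, hS1, smul_add, smul_smul, smul_smul]
  have sT2 : (star T * T) h2 = (τ * conj p) • h1 + (τ * conj τ + q * conj q) • h2 := by
    rw [mul_apply_eq_comp, hT2, map_add, map_smul, map_smul, hS1, hS2, smul_add,
      smul_smul, smul_smul, smul_smul]
    module
  have sa : ∀ u v : H, ⟪u, (star T * T) v⟫_ℂ = ⟪(star T * T) u, v⟫_ℂ := by
    intro u v
    rw [mul_apply_eq_comp, mul_apply_eq_comp,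
      Pool.Agent.R884.AL.inner_star_right, Pool.Agent.R884.AL.inner_star_left]
  have hcom : Commute (star T * T) E := by
    show (star T * T) * E = E * (star T * T)
    ext v
    show (star T * T) (⟪h1, v⟫_ℂ • h1 + ⟪h2, v⟫_ℂ • h2) =
      ⟪h1, (star T * T) v⟫_ℂ • h1 + ⟪h2, (star T * T) v⟫_ℂ • h2
    rw [map_add, map_smul, map_smul, sa, sa, sT1, sT2, inner_add_left, inner_add_left,
      inner_smul_left, inner_smul_left, inner_smul_left, inner_smul_left]
    simp only [map_mul, map_add, Complex.conj_conj]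
    module
  have hPE := comm_abs hcom
  rw [← hP] at hPE
  have hE1 : E h1 = h1 := by
    rw [hE, add_apply, ro_apply, ro_apply, i11, h21, one_smul, zero_smul,
      add_zero]
  obtain ⟨a, b, hab⟩ : ∃ a b : ℂ, P h1 = a • h1 + b • h2 := by
    refine ⟨⟪h1, P h1⟫_ℂ, ⟪h2, P h1⟫_ℂ, ?_⟩
    have e : (P * E) h1 = (E * P) h1 := by rw [hPE.eq]
    rw [mul_apply_eq_comp, hE1, mul_apply_eq_comp] at e
    conv_lhs => rw [e]
    rfl
  have hk : B (P h1) = p • P h1 := by
    rw [← mul_apply_eq_comp, hBP, mul_apply_eq_comp, hT1, map_smul]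
  rw [hab, map_add, map_smul, map_smul, hB1, hB2] at hk
  have hb : b = 0 := by
    have e : (b * (q - p)) • h2 = 0 := by
      have e1 : a • p • h1 + b • q • h2 - p • (a • h1 + b • h2) = 0 := sub_eq_zero.2 hk
      rw [← e1]
      module
    rcases smul_eq_zero.1 e with h | h
    · rcases mul_eq_zero.1 h with h' | h'
      · exact h'
      · exact absurd (sub_eq_zero.1 h').symm hpq
    · exact absurd h h2ne
  rw [hb, zero_smul, add_zero] at hab
  have e3 : (star T * T) h1 = (a * a) • h1 := by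
    rw [← hPP, mul_apply_eq_comp, hab, map_smul, hab, smul_smul]
  rw [sT1] at e3
  have e4 := congrArg (fun z => ⟪h2, z⟫_ℂ) e3
  simp only [inner_add_right, inner_smul_right, h21, i22, mul_zero, zero_add, mul_one] at e4
  rcases mul_eq_zero.1 e4 with h | h
  · exact absurd h hp
  · exact (map_eq_zero (starRingEnd ℂ)).1 h

end Pool.Agent.R945.AP
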