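import Pool.Agent.R945.AP.Stm

/-!
# Project AP: the transposed type is impossible
-/

set_option autoImplicit false

open scoped InnerProductSpace ComplexConjugate

namespace Pool.Agent.R945.AP

universe u

theorem t_TYPE : S_TYPE.{u} := by
  intro H _ _ _ L α hL Φ a g hcomm hP x y ζ hx hy hxy hζ hcon
  have hyx : ⟪y, x⟫_ℂ = 0 := by rw [← inner_conj_symm, hxy, map_zero]
  have hgx := hP.norm x hx
  have hgy := hP.norm y hy
  have hgxy : ⟪g x, g y⟫_ℂ = 0 := hP.orth x y hx hy hxy
  have hgyx : ⟪g y, g x⟫_ℂ = 0 := by rw [← inner_conj_symm, hgxy, map_zero]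
  have hyy : ⟪y, y⟫_ℂ = 1 := by
    rw [inner_self_eq_norm_sq_to_K, hy]
    norm_num
  have hgxx : ⟪g x, g x⟫_ℂ = 1 := by
    rw [inner_self_eq_norm_sq_to_K, hgx]
    norm_num
  have hgyy : ⟪g y, g y⟫_ℂ = 1 := by
    rw [inner_self_eq_norm_sq_to_K, hgy]
    norm_num
  have hΦy : Φ (ro y y) = a • ro (g y) (g y) := by
    rw [hP.eq y hy, zero_smul, add_zero]
  have hy0 : y ≠ 0 := by
    intro h
    rw [h, norm_zero] at hy
    exact zero_ne_one hy
  set w : H := g y + (conj ζ) • g x with hw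
  have hwgy : ⟪w, g y⟫_ℂ = 1 := by
    rw [hw, inner_add_left, inner_smul_left, hgyy, hgxy, mul_zero, add_zero]
  have hwgx : ⟪w, g x⟫_ℂ = ζ := by
    rw [hw, inner_add_left, inner_smul_left, hgyx, hgxx, mul_one, zero_add, Complex.conj_conj]
  have hw0 : w ≠ 0 := by
    intro h
    rw [h, inner_zero_left] at hwgy
    exact zero_ne_one hwgy
  have hT : ro (y + x) y = ro y y + ro x y := by
    ext v
    simp [smul_add]
  have h1 : L (ro (y + x) y) = α • ro (y + x) y + (1 - α) • ro y y := by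
    have h := hL.rank 0 (y + x) y (IsSelfAdjoint.zero _) (by simp) (by simp) hy0
    rw [add_zero, add_zero, inner_add_right, hyy, hyx, add_zero, hy] at h
    rw [h]
    norm_num
  have h2 : Φ (ro (y + x) y) = ro (a • g y) w := by
    rw [hT, map_add, hΦy, hcon]
    ext v
    simp only [ContinuousLinearMap.add_apply, ContinuousLinearMap.smul_apply, ro_apply, hw,
      inner_add_left, inner_smul_left, Complex.conj_conj]
    module
  have h3 : L (ro (a • g y) w) = α • ro (a • g y) w +
      ((1 - α) * (a / ((‖w‖ : ℂ) ^ 2))) • ro w w := by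
    have h := hL.rank 0 (a • g y) w (IsSelfAdjoint.zero _) (by simp) (by simp) hw0
    rw [add_zero, add_zero, inner_smul_right, hwgy, mul_one] at h
    exact h
  have h4 := hcomm (ro (y + x) y)
  rw [h1, h2, h3, map_add, map_smul, map_smul, h2, hΦy] at h4
  have h5 := add_left_cancel h4
  have h6 := congrArg (fun S : H →L[ℂ] H => S (g x)) h5
  simp only [ContinuousLinearMap.smul_apply, ro_apply, hgyx, hwgx, zero_smul, smul_zero] at h6
  have hα : 1 - α ≠ 0 := sub_ne_zero.2 (Ne.symm hL.ne)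
  have hwn : ((‖w‖ : ℂ) ^ 2) ≠ 0 := by
    refine pow_ne_zero _ ?_
    exact_mod_cast (norm_ne_zero_iff.2 hw0)
  have h7 := h6.symm
  rw [smul_eq_zero, smul_eq_zero] at h7
  rcases h7 with h7 | h7 | h7
  · exact mul_ne_zero hα (div_ne_zero hP.ne hwn) h7
  · exact hζ h7
  · exact hw0 h7

end Pool.Agent.R945.AP
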