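import Pool.Agent.R945.AP.Stm

/-! Project AP (helper945, MP_11cc5c_an), piece UNI by helper744: the unitary. -/

set_option autoImplicit false

open scoped InnerProductSpace ComplexConjugate

namespace Pool.Agent.R945.AP

universe u

namespace UniAux

variable {H : Type u} [NormedAddCommGroup H] [InnerProductSpace ℂ H] [CompleteSpace H]

lemma ro_add_left (x x' y : H) : ro (x + x') y = ro x y + ro x' y := by
  ext v
  simp [smul_add]

lemma ro_smul_left (c : ℂ) (x y : H) : ro (c • x) y = c • ro x y := by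
  ext v
  show ⟪y, v⟫_ℂ • c • x = c • ⟪y, v⟫_ℂ • x
  rw [smul_comm]

lemma ro_add_right (x y y' : H) : ro x (y + y') = ro x y + ro x y' := by
  ext v
  simp [inner_add_left, add_smul]

lemma ro_smul_right (c : ℂ) (x y : H) : ro x (c • y) = conj c • ro x y := by
  ext v
  show ⟪c • y, v⟫_ℂ • x = conj c • ⟪y, v⟫_ℂ • x
  rw [inner_smul_left, mul_smul]

/-- the defect -/
noncomputable def S (Φ : (H →L[ℂ] H) ≃ₗ[ℂ] (H →L[ℂ] H)) (a : ℂ) (U : H →ₗ[ℂ] H) (x y : H) : H →L[ℂ] H :=
  Φ (ro x y) - a • ro (U x) (U y)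

variable (Φ : (H →L[ℂ] H) ≃ₗ[ℂ] (H →L[ℂ] H)) (a : ℂ) (U : H →ₗ[ℂ] H)

lemma S_add_left (x x' y : H) : S Φ a U (x + x') y = S Φ a U x y + S Φ a U x' y := by
  unfold S
  rw [ro_add_left, map_add, map_add, ro_add_left, smul_add]
  abel

lemma S_add_right (x y y' : H) : S Φ a U x (y + y') = S Φ a U x y + S Φ a U x y' := by
  unfold S
  rw [ro_add_right, map_add, map_add, ro_add_right, smul_add]
  abel

lemma S_smul_left (c : ℂ) (x y : H) : S Φ a U (c • x) y = c • S Φ a U x y := by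
  unfold S
  rw [ro_smul_left, map_smul, map_smul, ro_smul_left, smul_sub, smul_comm a c]

lemma S_smul_right (c : ℂ) (x y : H) : S Φ a U x (c • y) = conj c • S Φ a U x y := by
  unfold S
  rw [ro_smul_right, map_smul, map_smul, ro_smul_right, smul_sub, smul_comm a]

/-- polarization -/
lemma S_polar (x y : H) (hx : S Φ a U x x = 0) (hy : S Φ a U y y = 0) (h1 : S Φ a U (x + y) (x + y) = 0)
    (h2 : S Φ a U (x + Complex.I • y) (x + Complex.I • y) = 0) : S Φ a U x y = 0 := by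
  rw [S_add_left, S_add_right, S_add_right, hx, hy, zero_add, add_zero] at h1
  rw [S_add_left, S_add_right, S_add_right, S_smul_left, S_smul_left, S_smul_right, S_smul_right, hx, hy,
    smul_zero, smul_zero, zero_add, add_zero, Complex.conj_I] at h2
  have h3 : Complex.I • (-Complex.I • S Φ a U x y + Complex.I • S Φ a U y x) = 0 := by rw [h2, smul_zero]
  rw [smul_add, smul_smul, smul_smul, mul_neg, Complex.I_mul_I, neg_neg, one_smul, neg_one_smul] at h3
  have h4 : (2 : ℂ) • S Φ a U x y = 0 := by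
    rw [two_smul]
    have : S Φ a U x y + S Φ a U x y = (S Φ a U x y + S Φ a U y x) + (S Φ a U x y + -S Φ a U y x) := by abel
    rw [this, h1, h3, add_zero]
  exact (smul_eq_zero.1 h4).resolve_left two_ne_zero

/-- scaling to unit vectors -/
lemma scale (p : H → Prop) (h0 : p 0) (h1 : ∀ (c : ℂ) (x : H), ‖x‖ = 1 → p (c • x)) : ∀ x, p x := by
  intro x
  by_cases hx : x = 0
  · rw [hx]; exact h0
  · have hn : ‖x‖ ≠ 0 := norm_ne_zero_iff.2 hx
    have e : x = ((‖x‖ : ℝ) : ℂ) • (((‖x‖ : ℝ) : ℂ)⁻¹ • x) := by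
      rw [smul_smul, mul_inv_cancel₀ (by exact_mod_cast hn), one_smul]
    rw [e]
    refine h1 _ _ ?_
    rw [norm_smul, norm_inv, Complex.norm_real, norm_norm, inv_mul_cancel₀ hn]

lemma sym_ro (u v w : H) : ⟪ro u u v, w⟫_ℂ = ⟪v, ro u u w⟫_ℂ := by
  rw [ro_apply, ro_apply, inner_smul_left, inner_smul_right, inner_conj_symm, mul_comm]

end UniAux

open UniAux

theorem t_UNI : S_UNI.{u} := by
  intro H _ _ _ _ Φ a g hP hoff hsur
  obtain ⟨e0, he0⟩ := exists_norm_eq H (zero_le_one' ℝ)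
  have ha := hP.ne
  have hproj : ∀ x, ‖x‖ = 1 → Φ (ro x x) = a • ro (g x) (g x) := fun x hx => by
    have := hP.eq x hx
    rwa [zero_smul, add_zero] at this
  have hg0 : ‖g e0‖ = 1 := hP.norm e0 he0
  have hgg : ∀ x, ‖x‖ = 1 → ⟪g x, g x⟫_ℂ = 1 := fun x hx => by
    rw [inner_self_eq_norm_sq_to_K, hP.norm x hx]; simp
  let U : H →ₗ[ℂ] H :=
    { toFun := fun x => a⁻¹ • Φ (ro x e0) (g e0)
      map_add' := fun x y => by rw [ro_add_left, map_add, ContinuousLinearMap.add_apply, smul_add]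
      map_smul' := fun c x => by
        rw [ro_smul_left, map_smul, ContinuousLinearMap.smul_apply, smul_comm]; rfl }
  have hU : ∀ x, U x = a⁻¹ • Φ (ro x e0) (g e0) := fun x => rfl
  have hUe : U e0 = g e0 := by
    rw [hU, hproj e0 he0, ContinuousLinearMap.smul_apply, ro_apply, hgg e0 he0, one_smul, smul_smul,
      inv_mul_cancel₀ ha, one_smul]
  -- unit vectors orthogonal to e0
  have key : ∀ x, ‖x‖ = 1 → ⟪x, e0⟫_ℂ = 0 → S Φ a U x e0 = 0 ∧ S Φ a U e0 x = 0 ∧ S Φ a U x x = 0 := by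
    intro x hx hxe
    have hex : ⟪e0, x⟫_ℂ = 0 := inner_eq_zero_symm.1 hxe
    obtain ⟨z, hz, hz1⟩ := hoff x e0 hx he0 hxe
    obtain ⟨z', hz', hz1'⟩ := hoff e0 x he0 hx hex
    have hgx : ⟪g x, g e0⟫_ℂ = 0 := hP.orth x e0 hx he0 hxe
    have hgx' : ⟪g e0, g x⟫_ℂ = 0 := hP.orth e0 x he0 hx hex
    have hUx : U x = z • g x := by
      rw [hU, hz1, ContinuousLinearMap.smul_apply, ro_apply, hgg e0 he0, one_smul, smul_smul, ← mul_assoc,
        inv_mul_cancel₀ ha, one_mul]
    have hzz : conj z * z = 1 := by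
      rw [mul_comm, Complex.mul_conj, Complex.normSq_eq_norm_sq, hz]; simp
    -- the relation between the two phases
    have hconj : conj z' = z := by
      set u : H := ((√2 : ℝ) : ℂ)⁻¹ • (e0 + x) with hu
      have h2 : ((√2 : ℝ) : ℂ) * ((√2 : ℝ) : ℂ) = 2 := by
        rw [← Complex.ofReal_mul, Real.mul_self_sqrt (by norm_num)]; norm_num
      have h20 : ((√2 : ℝ) : ℂ) ≠ 0 := by
        intro h; rw [h] at h2; norm_num at h2
      have hnorm : ‖e0 + x‖ = √2 := by
        have h3 : ‖e0 + x‖ * ‖e0 + x‖ = ‖e0‖ * ‖e0‖ + ‖x‖ * ‖x‖ :=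
          norm_add_sq_eq_norm_sq_add_norm_sq_of_inner_eq_zero e0 x hex
        rw [he0, hx] at h3
        rw [← Real.sqrt_mul_self (norm_nonneg (e0 + x)), h3]; norm_num
      have hun : ‖u‖ = 1 := by
        rw [hu, norm_smul, norm_inv, Complex.norm_real, hnorm, Real.norm_eq_abs, abs_of_nonneg (Real.sqrt_nonneg _),
          inv_mul_cancel₀ (by positivity)]
      have hru : (2 : ℂ) • ro u u = ro e0 e0 + ro e0 x + (ro x e0 + ro x x) := by
        rw [hu, ro_smul_left, ro_smul_right, ro_add_left, ro_add_right, ro_add_right, map_inv₀, Complex.conj_ofReal,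
          smul_smul, smul_smul, mul_assoc, ← mul_inv, h2, mul_inv_cancel₀ two_ne_zero, one_smul]
      have h4 := congrArg Φ hru
      rw [map_smul, hproj u hun, map_add, map_add, map_add, hproj e0 he0, hproj x hx, hz1, hz1'] at h4
      have h5 : ∀ v, (2 : ℂ) • ro (g u) (g u) v = ro (g e0) (g e0) v + z' • ro (g e0) (g x) v +
          (z • ro (g x) (g e0) v + ro (g x) (g x) v) := by
        intro v
        have h6 := congrArg (fun T : H →L[ℂ] H => a⁻¹ • T v) h4
        simp only [ContinuousLinearMap.add_apply, ContinuousLinearMap.smul_apply, smul_add, smul_smul] at h6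
        rw [mul_comm 2 a, ← mul_assoc, ← mul_assoc, ← mul_assoc, inv_mul_cancel₀ ha, one_mul, one_mul, one_mul,
          one_smul, one_smul] at h6
        exact h6
      have h7 := sym_ro (g u) (g x) (g e0)
      have h8 : ⟪(2 : ℂ) • ro (g u) (g u) (g x), g e0⟫_ℂ = ⟪g x, (2 : ℂ) • ro (g u) (g u) (g e0)⟫_ℂ := by
        rw [inner_smul_left, inner_smul_right, h7, map_ofNat]
      rw [h5, h5] at h8
      simp only [ro_apply, hgx, hgx', hgg e0 he0, hgg x hx, zero_smul, one_smul, smul_zero, zero_add, add_zero] at h8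
      rw [inner_add_left, inner_add_right, inner_smul_left, inner_smul_right, hgg e0 he0, hgg x hx, hgx, mul_one,
        mul_one, zero_add, add_zero] at h8
      exact h8
    have hconj' : z' = conj z := by rw [← hconj, Complex.conj_conj]
    refine ⟨?_, ?_, ?_⟩
    · unfold S
      rw [hUe, hUx, hz1, ro_smul_left, smul_smul, sub_self]
    · unfold S
      rw [hUe, hUx, hz1', ro_smul_right, smul_smul, hconj', sub_self]
    · unfold S
      rw [hUx, hproj x hx, ro_smul_left, ro_smul_right, smul_smul z, mul_comm z, hzz, one_smul, sub_self]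
  have hS0l : ∀ y, S Φ a U 0 y = 0 := fun y => by
    have := S_smul_left Φ a U 0 0 y
    rwa [zero_smul, zero_smul] at this
  have hS0r : ∀ x, S Φ a U x 0 = 0 := fun x => by
    have := S_smul_right Φ a U 0 x 0
    rwa [zero_smul, map_zero, zero_smul] at this
  have key2 : ∀ x, ⟪x, e0⟫_ℂ = 0 → S Φ a U x e0 = 0 ∧ S Φ a U e0 x = 0 ∧ S Φ a U x x = 0 := by
    refine scale (fun x => ⟪x, e0⟫_ℂ = 0 → S Φ a U x e0 = 0 ∧ S Φ a U e0 x = 0 ∧ S Φ a U x x = 0) ?_ ?_
    · exact fun _ => ⟨hS0l _, hS0r _, hS0l _⟩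
    · intro c x hx h
      by_cases hc : c = 0
      · rw [hc, zero_smul]; exact ⟨hS0l _, hS0r _, hS0l _⟩
      · rw [inner_smul_left] at h
        have h' := (mul_eq_zero.1 h).resolve_left (by simpa using hc)
        obtain ⟨k1, k2, k3⟩ := key x hx h'
        refine ⟨?_, ?_, ?_⟩
        · rw [S_smul_left, k1, smul_zero]
        · rw [S_smul_right, k2, smul_zero]
        · rw [S_smul_left, S_smul_right, k3, smul_zero, smul_zero]
  have hee : S Φ a U e0 e0 = 0 := by
    unfold S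
    rw [hUe, hproj e0 he0, sub_self]
  have key3 : ∀ x y, ⟪x, e0⟫_ℂ = 0 → ⟪y, e0⟫_ℂ = 0 → S Φ a U x y = 0 := by
    intro x y hx hy
    refine S_polar Φ a U x y (key2 x hx).2.2 (key2 y hy).2.2 (key2 _ ?_).2.2 (key2 _ ?_).2.2
    · rw [inner_add_left, hx, hy, add_zero]
    · rw [inner_add_left, inner_smul_left, hx, hy, mul_zero, add_zero]
  have hdec : ∀ x : H, ∃ (c : ℂ) (x' : H), ⟪x', e0⟫_ℂ = 0 ∧ x = c • e0 + x' := fun x => by
    refine ⟨⟪e0, x⟫_ℂ, x - ⟪e0, x⟫_ℂ • e0, ?_, by abel⟩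
    rw [inner_sub_left, inner_smul_left, inner_conj_symm, inner_self_eq_norm_sq_to_K, he0]
    simp
  have key4 : ∀ x y, S Φ a U x y = 0 := by
    intro x y
    obtain ⟨c, x', hx', rfl⟩ := hdec x
    obtain ⟨d, y', hy', rfl⟩ := hdec y
    rw [S_add_left, S_add_right, S_add_right, S_smul_left, S_smul_left, S_smul_right, S_smul_right, hee,
      (key2 y' hy').2.1, (key2 x' hx').1, key3 x' y' hx' hy']
    simp
  have hform : ∀ x y, Φ (ro x y) = a • ro (U x) (U y) := fun x y => sub_eq_zero.1 (key4 x y)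
  -- isometric
  have hiso1 : ∀ x, ‖x‖ = 1 → ‖U x‖ = 1 := by
    intro x hx
    have h1 : a • ro (U x) (U x) = a • ro (g x) (g x) := by rw [← hform, ← hproj x hx]
    have h2 : ro (U x) (U x) (g x) = ro (g x) (g x) (g x) := by
      have h6 : ∀ T : H →L[ℂ] H, a⁻¹ • (a • T) (g x) = T (g x) := fun T => by
        show a⁻¹ • a • T (g x) = T (g x)
        rw [smul_smul, inv_mul_cancel₀ ha, one_smul]
      rw [← h6 (ro (U x) (U x)), h1, h6]
    rw [ro_apply, ro_apply, hgg x hx, one_smul] at h2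
    set c : ℂ := ⟪U x, g x⟫_ℂ with hc
    have hgx0 : g x ≠ 0 := by
      intro h; have := hP.norm x hx; rw [h, norm_zero] at this; exact zero_ne_one this
    have hc0 : c ≠ 0 := by
      intro h; rw [h, zero_smul] at h2; exact hgx0 h2.symm
    have h3 : c = c * ((‖U x‖ : ℂ) ^ 2) := by
      conv_lhs => rw [hc, ← h2, inner_smul_right, inner_self_eq_norm_sq_to_K]
      rfl
    have h4 : ((‖U x‖ : ℂ) ^ 2) = 1 := by
      have : c * ((‖U x‖ : ℂ) ^ 2) = c * 1 := by rw [← h3, mul_one]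
      exact mul_left_cancel₀ hc0 this
    have h5 : ‖U x‖ ^ 2 = 1 := by exact_mod_cast h4
    exact (pow_eq_one_iff_of_nonneg (norm_nonneg _) two_ne_zero).1 h5
  have hiso : ∀ x, ‖U x‖ = ‖x‖ := by
    refine scale (fun x => ‖U x‖ = ‖x‖) (by simp) ?_
    intro c x hx
    rw [map_smul, norm_smul, norm_smul, hiso1 x hx, hx]
  let Ui : H →ₗᵢ[ℂ] H := ⟨U, hiso⟩
  have hsurj : Function.Surjective Ui := by
    refine scale (fun v => ∃ x, Ui x = v) ⟨0, map_zero _⟩ ?_
    intro c v hv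
    obtain ⟨x, a', hx, ha', hxa⟩ := hsur v hv
    rw [hform] at hxa
    have h1 := congrArg (fun T : H →L[ℂ] H => T v) hxa
    simp only [ContinuousLinearMap.smul_apply, ro_apply] at h1
    rw [inner_self_eq_norm_sq_to_K, hv] at h1
    have h2 : v = (a'⁻¹ * a * ⟪U x, v⟫_ℂ) • U x := by
      have h3 := congrArg (fun w => a'⁻¹ • w) h1
      simp only [smul_smul] at h3
      rw [← mul_assoc, ← mul_assoc, inv_mul_cancel₀ ha'] at h3
      rw [h3]
      simp
    refine ⟨(c * (a'⁻¹ * a * ⟪U x, v⟫_ℂ)) • x, ?_⟩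
    rw [map_smul, mul_smul]
    congr 1
    exact h2.symm
  exact ⟨LinearIsometryEquiv.ofSurjective Ui hsurj, fun x y => hform x y⟩

end Pool.Agent.R945.AP
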