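import Pool.Agent.R945.AP.Stm

/-!
# Common lemmas for the pieces SQM and SQA (project AP)
-/

set_option autoImplicit false

open scoped InnerProductSpace ComplexConjugate

namespace Pool.Agent.R945.AP.SQB

open Pool.Agent.R884.AL

universe u

variable {H : Type u} [NormedAddCommGroup H] [InnerProductSpace ℂ H] [CompleteSpace H]

theorem pol_spec (T : H →L[ℂ] H) : IsPolarPart T (pol T) :=
  (existsUnique_polarPart T).choose_spec.1

theorem spec_nonneg {P : H →L[ℂ] H} (hP : 0 ≤ P) {t : ℝ} (ht : t ∈ spectrum ℝ P) : 0 ≤ t :=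
  spectrum_nonneg_of_nonneg hP ht

theorem pw_add {P : H →L[ℂ] H} (hP : 0 ≤ P) {a b : ℝ} (ha : 0 ≤ a) (hb : 0 ≤ b) :
    pw P (a + b) = pw P a * pw P b := by
  unfold pw
  rw [← cfc_mul (fun t : ℝ => t ^ a) (fun t : ℝ => t ^ b) P
    (Real.continuous_rpow_const ha).continuousOn (Real.continuous_rpow_const hb).continuousOn]
  refine cfc_congr fun t ht => ?_
  exact Real.rpow_add_of_nonneg (spec_nonneg hP ht) ha hb

theorem pw_zero {P : H →L[ℂ] H} (hP : 0 ≤ P) : pw P 0 = 1 := by
  unfold pw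
  simp only [Real.rpow_zero]
  exact cfc_const_one ℝ P hP.isSelfAdjoint

theorem pw_one {P : H →L[ℂ] H} (hP : 0 ≤ P) : pw P 1 = P := by
  unfold pw
  simp only [Real.rpow_one]
  exact cfc_id' ℝ P hP.isSelfAdjoint

theorem pw_sa (P : H →L[ℂ] H) (a : ℝ) : IsSelfAdjoint (pw P a) := cfc_predicate _ _

theorem pw_nonneg {P : H →L[ℂ] H} (hP : 0 ≤ P) (a : ℝ) : 0 ≤ pw P a :=
  cfc_nonneg fun _ ht => Real.rpow_nonneg (spec_nonneg hP ht) a

theorem sq_ker {Q : H →L[ℂ] H} (hQ : IsSelfAdjoint Q) {v : H} (h : Q (Q v) = 0) : Q v = 0 := by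
  have h1 : ⟪Q v, Q v⟫_ℂ = 0 := by
    rw [inner_sa hQ, h, inner_zero_right]
  exact inner_self_eq_zero.1 h1

theorem ker_aux {P : H →L[ℂ] H} (hP : 0 ≤ P) {v : H} (hv : P v = 0) (n : ℕ) :
    ∀ l : ℝ, 0 < l → 1 ≤ 2 ^ n * l → pw P l v = 0 := by
  induction n with
  | zero =>
    intro l hl h1
    rw [pow_zero, one_mul] at h1
    have h2 : pw P l = pw P (l - 1) * pw P 1 := by
      rw [← pw_add hP (by linarith) zero_le_one]
      congr 1
      ring
    rw [h2, pw_one hP, mul_apply_eq_comp, hv, map_zero]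
  | succ n ih =>
    intro l hl h1
    have h2 := ih (l + l) (by linarith) (by
      have : (2 : ℝ) ^ (n + 1) * l = 2 ^ n * (l + l) := by ring
      linarith)
    rw [pw_add hP hl.le hl.le, mul_apply_eq_comp] at h2
    exact sq_ker (pw_sa P l) h2

theorem ker_pw {P : H →L[ℂ] H} (hP : 0 ≤ P) {v : H} (hv : P v = 0) {l : ℝ} (hl : 0 < l) :
    pw P l v = 0 := by
  obtain ⟨n, hn⟩ := pow_unbounded_of_one_lt (1 / l) (one_lt_two : (1 : ℝ) < 2)
  refine ker_aux hP hv n l hl ?_
  rw [div_lt_iff₀ hl] at hn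
  exact hn.le

theorem ker_of_pw {P : H →L[ℂ] H} (hP : 0 ≤ P) {v : H} {l : ℝ} (hl : 0 < l)
    (hv : pw P l v = 0) : P v = 0 := by
  -- take `n` with `n l ≥ 1`
  have h1 : ∀ n : ℕ, pw P (l + n * l) v = 0 := by
    intro n
    have : pw P (l + n * l) = pw P (n * l) * pw P l := by
      rw [← pw_add hP (by positivity) hl.le]
      congr 1
      ring
    rw [this, mul_apply_eq_comp, hv, map_zero]
  obtain ⟨k, hk⟩ := pow_unbounded_of_one_lt (max l 1) (one_lt_two : (1 : ℝ) < 2)
  -- descend from the exponent `2 ^ k`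
  have hd : ∀ j : ℕ, pw P ((2 : ℝ) ^ j) v = 0 → pw P 1 v = 0 := by
    intro j
    induction j with
    | zero => intro h; simpa using h
    | succ j ih =>
      intro h
      apply ih
      have h2 : ((2 : ℝ) ^ (j + 1)) = 2 ^ j + 2 ^ j := by ring
      rw [h2, pw_add hP (by positivity) (by positivity), mul_apply_eq_comp] at h
      exact sq_ker (pw_sa P _) h
  have h3 : pw P ((2 : ℝ) ^ k) v = 0 := by
    have h4 : pw P ((2 : ℝ) ^ k) = pw P ((2 : ℝ) ^ k - l) * pw P l := by
      rw [← pw_add hP (by have := le_max_left l 1; linarith) hl.le]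
      congr 1
      ring
    rw [h4, mul_apply_eq_comp, hv, map_zero]
  have h5 := hd k h3
  rwa [pw_one hP] at h5

/-- left and right cancellation through kernels -/
theorem left_ker {Q R Y : H →L[ℂ] H} (h : ∀ v, Q v = 0 → R v = 0) (hQ : Q * Y = 0) :
    R * Y = 0 := by
  ext v
  have h1 : Q (Y v) = 0 := by
    rw [← mul_apply_eq_comp, hQ]; rfl
  rw [mul_apply_eq_comp, h _ h1]
  rfl

theorem right_ker {Q R Y : H →L[ℂ] H} (hQs : IsSelfAdjoint Q) (hRs : IsSelfAdjoint R)
    (h : ∀ v, Q v = 0 → R v = 0) (hQ : Y * Q = 0) : Y * R = 0 := by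
  have h1 : Q * star Y = 0 := by
    have := congrArg star hQ
    rwa [star_mul, star_zero, hQs.star_eq] at this
  have h2 := congrArg star (left_ker h h1)
  rwa [star_mul, star_star, star_zero, hRs.star_eq] at h2

theorem star_pol_mul_abs (T : H →L[ℂ] H) :
    star (pol T) * pol T * CFC.abs T = CFC.abs T := by
  refine proj_mul (pol_spec T).partialIsometry (CFC.abs_nonneg T).isSelfAdjoint fun x hx => ?_
  exact (abs_ker T x).2 (((pol_spec T).ker_eq x).1 hx)

/-- `T² = 0` in terms of the polar decomposition -/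
theorem sq_zero_iff (T : H →L[ℂ] H) : T * T = 0 ↔ CFC.abs T * pol T * CFC.abs T = 0 := by
  have hT := (pol_spec T).mul_abs
  have hTT : T * T = pol T * CFC.abs T * (pol T * CFC.abs T) := by rw [hT]
  constructor
  · intro h
    have h1 : star (pol T) * (T * T) = CFC.abs T * pol T * CFC.abs T := by
      rw [hTT]
      have h2 := star_pol_mul_abs T
      calc star (pol T) * (pol T * CFC.abs T * (pol T * CFC.abs T))
          = (star (pol T) * pol T * CFC.abs T) * (pol T * CFC.abs T) := by noncomm_ring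
        _ = CFC.abs T * (pol T * CFC.abs T) := by rw [h2]
        _ = CFC.abs T * pol T * CFC.abs T := by rw [mul_assoc]
    rw [← h1, h, mul_zero]
  · intro h
    have h1 : T * T = pol T * (CFC.abs T * pol T * CFC.abs T) := by
      rw [hTT]
      noncomm_ring
    rw [h1, h, mul_zero]

/-- two positive exponents -/
theorem sandwich {P V : H →L[ℂ] H} (hP : 0 ≤ P) (h : P * V * P = 0) {a b : ℝ} (ha : 0 < a)
    (hb : 0 < b) : pw P a * V * pw P b = 0 := by
  have h1 : P * (V * P) = 0 := by rw [← mul_assoc, h]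
  have h2 : pw P a * (V * P) = 0 := left_ker (fun v hv => ker_pw hP hv ha) h1
  have h3 : (pw P a * V) * P = 0 := by rw [mul_assoc, h2]
  exact right_ker hP.isSelfAdjoint (pw_sa P b) (fun v hv => ker_pw hP hv hb) h3

end Pool.Agent.R945.AP.SQB
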