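import Pool.Agent.R945.AP.Defs

/-!
# Project AP: the pieces
-/

set_option autoImplicit false

open scoped InnerProductSpace ComplexConjugate

namespace Pool.Agent.R945.AP

universe u

/-! ## the transforms -/

/-- fixed points of `M_l` -/
def S_FIXM : Prop := ∀ (H : Type u) [NormedAddCommGroup H] [InnerProductSpace ℂ H]
  [CompleteSpace H] (l : ℝ), 0 ≤ l → l ≤ 1 / 2 → ∀ T : H →L[ℂ] H, ML l T = T ↔ QN T

/-- fixed points of the mean-Aluthge transform -/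
def S_FIXA : Prop := ∀ (H : Type u) [NormedAddCommGroup H] [InnerProductSpace ℂ H]
  [CompleteSpace H] (T : H →L[ℂ] H), mA T = T ↔ QN T

/-- `M_l`, `0 < l ≤ 1/2`, kills exactly the square-zero operators -/
def S_SQM : Prop := ∀ (H : Type u) [NormedAddCommGroup H] [InnerProductSpace ℂ H]
  [CompleteSpace H] (l : ℝ), 0 < l → l ≤ 1 / 2 → ∀ T : H →L[ℂ] H, ML l T = 0 ↔ T * T = 0

/-- `M_0` -/
def S_SQZ : Prop := ∀ (H : Type u) [NormedAddCommGroup H] [InnerProductSpace ℂ H]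
  [CompleteSpace H] (T : H →L[ℂ] H), ML 0 T = (2⁻¹ : ℂ) • T ↔ T * T = 0

/-- the mean-Aluthge transform kills exactly the square-zero operators -/
def S_SQA : Prop := ∀ (H : Type u) [NormedAddCommGroup H] [InnerProductSpace ℂ H]
  [CompleteSpace H] (T : H →L[ℂ] H), mA T = 0 ↔ T * T = 0

/-- Aluthge transforms of rank one plus self-adjoint, `l < 1`, `0 < l` -/
def S_RK : Prop := ∀ (H : Type u) [NormedAddCommGroup H] [InnerProductSpace ℂ H]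
  [CompleteSpace H] (l : ℝ), 0 < l → l ≤ 1 → ∀ (A : H →L[ℂ] H) (x y : H), IsSelfAdjoint A →
  A x = 0 → A y = 0 → y ≠ 0 →
  alu l (ro x y + A) = (⟪y, x⟫_ℂ / ((‖y‖ : ℂ) ^ 2)) • ro y y + A

/-- triangular blocks, `M_l` -/
def S_TRIM : Prop := ∀ (H : Type u) [NormedAddCommGroup H] [InnerProductSpace ℂ H]
  [CompleteSpace H] (l : ℝ), 0 < l → l ≤ 1 / 2 →
  ∀ (h1 h2 : H) (T : H →L[ℂ] H) (p q τ : ℂ), ‖h1‖ = 1 → ‖h2‖ = 1 → ⟪h1, h2⟫_ℂ = 0 →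
    p ≠ q → p ≠ 0 → q ≠ 0 → T h1 = p • h1 → T h2 = τ • h1 + q • h2 →
    star T h1 = conj p • h1 + conj τ • h2 → star T h2 = conj q • h2 →
    ML l T h1 = p • h1 → ML l T h2 = q • h2 → τ = 0

/-- triangular blocks, `M_0` -/
def S_TRIZ : Prop := ∀ (H : Type u) [NormedAddCommGroup H] [InnerProductSpace ℂ H]
  [CompleteSpace H] (h1 h2 : H) (T : H →L[ℂ] H) (p q τ : ℂ), ‖h1‖ = 1 → ‖h2‖ = 1 →
    ⟪h1, h2⟫_ℂ = 0 →
    p ≠ q → p ≠ 0 → q ≠ 0 → T h1 = p • h1 → T h2 = τ • h1 + q • h2 →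
    star T h1 = conj p • h1 + conj τ • h2 → star T h2 = conj q • h2 →
    ML 0 T h1 = p • h1 → ML 0 T h2 = (2⁻¹ * τ) • h1 + q • h2 → τ = 0

/-- triangular blocks, mean-Aluthge transform -/
def S_TRIA : Prop := ∀ (H : Type u) [NormedAddCommGroup H] [InnerProductSpace ℂ H]
  [CompleteSpace H] (h1 h2 : H) (T : H →L[ℂ] H) (p q τ : ℂ), ‖h1‖ = 1 → ‖h2‖ = 1 →
    ⟪h1, h2⟫_ℂ = 0 →
    p ≠ q → p ≠ 0 → q ≠ 0 → T h1 = p • h1 → T h2 = τ • h1 + q • h2 →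
    star T h1 = conj p • h1 + conj τ • h2 → star T h2 = conj q • h2 →
    mA T h1 = p • h1 → mA T h2 = q • h2 → τ = 0

/-- the transforms commute with nonzero scalars and unitary conjugation -/
def S_EQV : Prop := ∀ (H : Type u) [NormedAddCommGroup H] [InnerProductSpace ℂ H]
  [CompleteSpace H] (l : ℝ) (c : ℂ) (U : H ≃ₗᵢ[ℂ] H), 0 ≤ l → l ≤ 1 → c ≠ 0 → ∀ T : H →L[ℂ] H,
  let W : H →L[ℂ] H := (U : H →L[ℂ] H)
  alu l (c • (W * T * star W)) = c • (W * alu l T * star W) ∧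
    CFC.abs (c • (W * T * star W)) = (‖c‖ : ℂ) • (W * CFC.abs T * star W) ∧
    pol (c • (W * T * star W)) = (c / (‖c‖ : ℂ)) • (W * pol T * star W)

/-! ## linear preservers -/

/-- `Φ 1` is a scalar -/
def S_ONE : Prop := ∀ (H : Type u) [NormedAddCommGroup H] [InnerProductSpace ℂ H]
  [CompleteSpace H] [Nontrivial H] (Φ : (H →L[ℂ] H) ≃ₗ[ℂ] (H →L[ℂ] H)), Pres Φ →
  ∃ c : ℂ, c ≠ 0 ∧ Φ 1 = c • 1

/-- normal operators and their commutants are preserved -/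
def S_COM : Prop := ∀ (H : Type u) [NormedAddCommGroup H] [InnerProductSpace ℂ H]
  [CompleteSpace H] [Nontrivial H] (Φ : (H →L[ℂ] H) ≃ₗ[ℂ] (H →L[ℂ] H)), Pres Φ →
  ∀ A : H →L[ℂ] H, IsStarNormal A → IsStarNormal (Φ A) ∧ ∀ B, Commute A B ↔ Commute (Φ A) (Φ B)

/-- double commutant of a projection -/
def S_BIC : Prop := ∀ (H : Type u) [NormedAddCommGroup H] [InnerProductSpace ℂ H]
  [CompleteSpace H] (P X : H →L[ℂ] H), IsPr P →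
  (∀ C : H →L[ℂ] H, IsSelfAdjoint C → Commute P C → Commute X C) → ∃ u v : ℂ, X = u • P + v • 1

/-- normal operators with a quadratic equation -/
def S_EPR : Prop := ∀ (H : Type u) [NormedAddCommGroup H] [InnerProductSpace ℂ H]
  [CompleteSpace H] (A : H →L[ℂ] H) (u v : ℂ), IsStarNormal A → A * A = u • A + v • 1 →
  (¬ ∃ s : ℂ, A = s • 1) →
  ∃ (a b : ℂ) (E : H →L[ℂ] H), a ≠ 0 ∧ IsPr E ∧ E ≠ 0 ∧ E ≠ 1 ∧ A = a • E + b • 1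

/-- images of nontrivial projections -/
def S_QUAD : Prop := ∀ (H : Type u) [NormedAddCommGroup H] [InnerProductSpace ℂ H]
  [CompleteSpace H] [Nontrivial H] (Φ : (H →L[ℂ] H) ≃ₗ[ℂ] (H →L[ℂ] H)), Pres Φ →
  ∀ P : H →L[ℂ] H, IsPr P → P ≠ 0 → P ≠ 1 →
  ∃ (a b : ℂ) (E : H →L[ℂ] H), a ≠ 0 ∧ IsPr E ∧ E ≠ 0 ∧ E ≠ 1 ∧ Φ P = a • E + b • 1

/-- the image of a rank one projection has rank one modulo scalars -/
def S_RANK : Prop := ∀ (H : Type u) [NormedAddCommGroup H] [InnerProductSpace ℂ H]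
  [CompleteSpace H] [Nontrivial H] (Φ : (H →L[ℂ] H) ≃ₗ[ℂ] (H →L[ℂ] H)), Pres Φ →
  ∀ x : H, ‖x‖ = 1 → ro x x ≠ 1 → ∃ (a b : ℂ) (g : H), a ≠ 0 ∧ ‖g‖ = 1 ∧
    Φ (ro x x) = a • ro g g + b • 1

/-- uniform constants, dimension at least three -/
def S_PR3 : Prop := ∀ (H : Type u) [NormedAddCommGroup H] [InnerProductSpace ℂ H]
  [CompleteSpace H] [Nontrivial H] (Φ : (H →L[ℂ] H) ≃ₗ[ℂ] (H →L[ℂ] H)), Pres Φ → Dim3 H →
  ∃ (a b : ℂ) (g : H → H), Proj Φ a b g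

/-- uniform constants, dimension two -/
def S_PR2 : Prop := ∀ (H : Type u) [NormedAddCommGroup H] [InnerProductSpace ℂ H]
  [CompleteSpace H] [Nontrivial H] (Φ : (H →L[ℂ] H) ≃ₗ[ℂ] (H →L[ℂ] H)), Pres Φ → Dim2 H →
  ¬ Dim3 H → ∃ (a b : ℂ) (g : H → H), Proj Φ a b g

/-- off-diagonal matrix units -/
def S_BLK : Prop := ∀ (H : Type u) [NormedAddCommGroup H] [InnerProductSpace ℂ H]
  [CompleteSpace H] (Φ : (H →L[ℂ] H) ≃ₗ[ℂ] (H →L[ℂ] H)) (a b : ℂ) (g : H → H), Proj Φ a b g →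
  ∀ x y : H, ‖x‖ = 1 → ‖y‖ = 1 → ⟪x, y⟫_ℂ = 0 → ∃ ζ : ℂ, ‖ζ‖ = 1 ∧
    (Φ (ro x y) = (a * ζ) • ro (g x) (g y) ∨ Φ (ro x y) = (a * ζ) • ro (g y) (g x))

/-- the constant `b` vanishes, dimension at least three -/
def S_B3 : Prop := ∀ (H : Type u) [NormedAddCommGroup H] [InnerProductSpace ℂ H]
  [CompleteSpace H] (L : (H →L[ℂ] H) → (H →L[ℂ] H)) (α : ℂ), Good L α →
  ∀ (Φ : (H →L[ℂ] H) ≃ₗ[ℂ] (H →L[ℂ] H)) (a b : ℂ) (g : H → H), (∀ T, Φ (L T) = L (Φ T)) →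
  Proj Φ a b g → Dim3 H → b = 0

/-- the constant `b` vanishes for a suitable choice, dimension two -/
def S_B2 : Prop := ∀ (H : Type u) [NormedAddCommGroup H] [InnerProductSpace ℂ H]
  [CompleteSpace H] (L : (H →L[ℂ] H) → (H →L[ℂ] H)) (α : ℂ), Good L α →
  ∀ (Φ : (H →L[ℂ] H) ≃ₗ[ℂ] (H →L[ℂ] H)) (a b : ℂ) (g : H → H), (∀ T, Φ (L T) = L (Φ T)) →
  Proj Φ a b g → Dim2 H → ¬ Dim3 H → ∃ (a' : ℂ) (g' : H → H), Proj Φ a' 0 g'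

/-- the transposed type is impossible -/
def S_TYPE : Prop := ∀ (H : Type u) [NormedAddCommGroup H] [InnerProductSpace ℂ H]
  [CompleteSpace H] (L : (H →L[ℂ] H) → (H →L[ℂ] H)) (α : ℂ), Good L α →
  ∀ (Φ : (H →L[ℂ] H) ≃ₗ[ℂ] (H →L[ℂ] H)) (a : ℂ) (g : H → H), (∀ T, Φ (L T) = L (Φ T)) →
  Proj Φ a 0 g → ∀ (x y : H) (ζ : ℂ), ‖x‖ = 1 → ‖y‖ = 1 → ⟪x, y⟫_ℂ = 0 → ζ ≠ 0 →
  Φ (ro x y) ≠ (a * ζ) • ro (g y) (g x)

/-- the unitary -/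
def S_UNI : Prop := ∀ (H : Type u) [NormedAddCommGroup H] [InnerProductSpace ℂ H]
  [CompleteSpace H] [Nontrivial H] (Φ : (H →L[ℂ] H) ≃ₗ[ℂ] (H →L[ℂ] H)) (a : ℂ) (g : H → H),
  Proj Φ a 0 g →
  (∀ x y : H, ‖x‖ = 1 → ‖y‖ = 1 → ⟪x, y⟫_ℂ = 0 → ∃ ζ : ℂ, ‖ζ‖ = 1 ∧
    Φ (ro x y) = (a * ζ) • ro (g x) (g y)) →
  (∀ v : H, ‖v‖ = 1 → ∃ (x : H) (a' : ℂ), ‖x‖ = 1 ∧ a' ≠ 0 ∧ Φ (ro x x) = a' • ro v v) →
  ∃ U : H ≃ₗᵢ[ℂ] H, ∀ x y, Φ (ro x y) = a • ro (U x) (U y)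

/-- from finite rank to all operators -/
def S_FIN : Prop := ∀ (H : Type u) [NormedAddCommGroup H] [InnerProductSpace ℂ H]
  [CompleteSpace H] (L : (H →L[ℂ] H) → (H →L[ℂ] H)) (α : ℂ), Good L α →
  ∀ (Φ : (H →L[ℂ] H) ≃ₗ[ℂ] (H →L[ℂ] H)) (a : ℂ) (U : H ≃ₗᵢ[ℂ] H), (∀ T, Φ (L T) = L (Φ T)) →
  (∀ A B : H →L[ℂ] H, IsStarNormal A → Commute A B → Commute (Φ A) (Φ B)) → a ≠ 0 → Dim2 H →
  (∀ x y, Φ (ro x y) = a • ro (U x) (U y)) →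
  ∀ T : H →L[ℂ] H, Φ T = a • ((U : H →L[ℂ] H) * T * star (U : H →L[ℂ] H))

/-- dimension at most one -/
def S_D1 : Prop := ∀ (H : Type u) [NormedAddCommGroup H] [InnerProductSpace ℂ H]
  [CompleteSpace H], ¬ Dim2 H → ∀ (Φ : (H →L[ℂ] H) ≃ₗ[ℂ] (H →L[ℂ] H)),
  ∃ c : ℂ, c ≠ 0 ∧ ∀ T, Φ T = c • T

end Pool.Agent.R945.AP
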